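import Pool.Graph.R_seed8.W401.Cheb.Main

/-! # Natural densities from Chebotarev's theorem -/

set_option autoImplicit false
set_option linter.unusedSectionVars false

namespace Pool.Agent.H515.KV

open NumberField Filter Topology Pool.Agent.W401.Cheb

/-- the relative density of a set of primes up to `N` -/
noncomputable def dn (P : ℕ → Prop) (N : ℕ) : ℝ :=
  (Nat.card {q : ℕ // q.Prime ∧ q ≤ N ∧ P q} : ℝ) / (Nat.primeCounting N : ℝ)

theorem dn_eq (P : ℕ → Prop) (N : ℕ) :
    open scoped Classical in dn P N = M (fun q => if P q then (1 : ℝ) else 0) N := by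
  classical
  unfold dn M
  congr 1
  rw [← Finset.sum_filter, Finset.sum_const, nsmul_eq_mul, mul_one]
  congr 1
  rw [← Nat.card_eq_finsetCard]
  apply Nat.card_congr
  apply Equiv.subtypeEquivRight
  intro q
  rw [Finset.mem_filter, mem_pr]
  tauto

/-- **Chebotarev's theorem**: a property of primes which is given by the Frobenius elements -/
theorem dens (L : Type) [Field L] [NumberField L] [IsGalois ℚ L] (S : Set Gal(L/ℚ)) (P : ℕ → Prop)
    (D : ℕ) (hD : 0 < D) (hP : ∀ (q : ℕ) [Fact q.Prime], ¬ q ∣ D →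
      ∀ (φ : 𝓞 L →+* AlgebraicClosure (ZMod q)) (σ : Gal(L/ℚ)), HasFrob q φ σ → (P q ↔ σ ∈ S)) :
    Tendsto (dn P) atTop (𝓝 ((Nat.card S : ℝ) / (Nat.card Gal(L/ℚ) : ℝ))) := by
  classical
  obtain ⟨D0, hD0, hT⟩ := torsor L
  have hG0 : (Nat.card Gal(L/ℚ) : ℝ) ≠ 0 := Nat.cast_ne_zero.2 Nat.card_pos.ne'
  have h1 : Tendsto (M fun q => ∑ g ∈ S.toFinset, (xp L g q : ℝ)) atTop (𝓝 (Nat.card S : ℝ)) := by
    have h2 : ∀ N, M (fun q => ∑ g ∈ S.toFinset, (xp L g q : ℝ)) N =
        ∑ g ∈ S.toFinset, M (fun q => (xp L g q : ℝ)) N := fun N => M_sum _ _ _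
    have h3 : Tendsto (fun N => ∑ g ∈ S.toFinset, M (fun q => (xp L g q : ℝ)) N) atTop
        (𝓝 (∑ g ∈ S.toFinset, (1 : ℝ))) := tendsto_finsetSum _ fun g _ => chebotarev L g
    rw [Finset.sum_const, nsmul_eq_mul, mul_one] at h3
    rw [Nat.card_eq_card_toFinset]
    exact h3.congr fun N => (h2 N).symm
  have h2 : Tendsto (M fun q => (Nat.card Gal(L/ℚ) : ℝ) * (if P q then (1 : ℝ) else 0)) atTop
      (𝓝 (Nat.card S : ℝ)) := by
    refine M_congr (D := D * D0) (Nat.mul_pos hD hD0) ?_ h1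
    intro q hq hqD
    have hfq : Fact q.Prime := ⟨hq⟩
    have hqD1 : ¬ q ∣ D := fun h => hqD (Dvd.dvd.mul_right h _)
    have hqD2 : ¬ q ∣ D0 := fun h => hqD (Dvd.dvd.mul_left h _)
    obtain ⟨t1, t2, t3⟩ := hT q hqD2
    have hfr : ∀ φ : 𝓞 L →+* AlgebraicClosure (ZMod q), ∃! σ : Gal(L/ℚ), HasFrob q φ σ := by
      intro φ
      obtain ⟨σ, hσ, hu⟩ := t2 φ ((frobenius _ q).comp φ)
      refine ⟨σ, fun x => ?_, fun τ hτ => ?_⟩
      · rw [← hσ x]
        rfl
      · exact hu τ fun x => (hτ x).symm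
    have hfin : Finite (𝓞 L →+* AlgebraicClosure (ZMod q)) := by
      apply Nat.finite_of_card_ne_zero
      rw [t1]
      exact Nat.card_pos.ne'
    choose fr hfr1 hfr2 using hfr
    have e1 : ∀ g : Gal(L/ℚ), xp L g q =
        Nat.card {φ : 𝓞 L →+* AlgebraicClosure (ZMod q) // fr φ = g} := by
      intro g
      unfold xp
      rw [dif_pos hq]
      apply Nat.card_congr
      apply Equiv.subtypeEquivRight
      intro φ
      constructor
      · intro h
        exact (hfr2 φ g h).symm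
      · rintro rfl
        exact hfr1 φ
    have e2 : ∑ g ∈ S.toFinset, (xp L g q : ℝ) =
        (Nat.card {φ : 𝓞 L →+* AlgebraicClosure (ZMod q) // fr φ ∈ S} : ℝ) := by
      have := Fintype.ofFinite (𝓞 L →+* AlgebraicClosure (ZMod q))
      rw [← Nat.cast_sum]
      congr 1
      rw [Nat.card_eq_fintype_card, Fintype.card_subtype]
      rw [Finset.card_eq_sum_card_fiberwise (f := fr) (t := S.toFinset)]
      · refine Finset.sum_congr rfl fun g hg => ?_
        rw [e1, Nat.card_eq_fintype_card, Fintype.card_subtype]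
        congr 1
        ext φ
        simp only [Finset.mem_filter, Finset.mem_univ, true_and]
        constructor
        · intro h
          exact ⟨by rw [h]; exact Set.mem_toFinset.1 hg, h⟩
        · exact fun h => h.2
      · intro φ hφ
        simp only [Finset.coe_filter, Finset.mem_univ, true_and, Set.mem_setOf_eq] at hφ
        exact Set.mem_toFinset.2 hφ
    rw [e2]
    split_ifs with hPq
    · rw [mul_one, ← t1]
      congr 1
      apply Nat.card_congr
      exact (Equiv.subtypeUnivEquiv fun φ => (hP q hqD1 φ (fr φ) (hfr1 φ)).1 hPq).symm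
    · rw [mul_zero]
      have : IsEmpty {φ : 𝓞 L →+* AlgebraicClosure (ZMod q) // fr φ ∈ S} :=
        ⟨fun φ => hPq ((hP q hqD1 φ.1 (fr φ.1) (hfr1 φ.1)).2 φ.2)⟩
      rw [Nat.card_of_isEmpty, Nat.cast_zero]
  have h3 : ∀ N, M (fun q => (Nat.card Gal(L/ℚ) : ℝ) * (if P q then (1 : ℝ) else 0)) N =
      (Nat.card Gal(L/ℚ) : ℝ) * dn P N := by
    intro N
    rw [M_smul, dn_eq]
  have h4 := (h2.congr h3).div_const (Nat.card Gal(L/ℚ) : ℝ)
  refine h4.congr fun N => ?_
  rw [mul_div_cancel_left₀ _ hG0]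

end Pool.Agent.H515.KV
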