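import Pool.Agent.H515.KV.Law

/-! # The primes congruent to `1` modulo `p` in the field of the `p`-th roots of unity -/

set_option autoImplicit false
set_option linter.unusedSectionVars false
set_option linter.deprecated false

namespace Pool.Agent.H515.KV

open NumberField IsDedekindDomain Pool.Agent.W401.Cheb Pool.Agent.H515.CH Filter Topology
open Pool.Agent.Q92.AR Pool.Agent.Q5.BR Pool.Agent.Q106.AR

/-- the prime of `ℤ` -/
noncomputable def vQ (q : ℕ) [Fact q.Prime] : HeightOneSpectrum (𝓞 ℚ) where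
  asIdeal := RingHom.ker ((Int.castRingHom (ZMod q)).comp (Rat.ringOfIntegersEquiv : 𝓞 ℚ →+* ℤ))
  isPrime := RingHom.ker_isPrime _
  ne_bot := by
    intro h
    have h1 : (q : 𝓞 ℚ) ∈ RingHom.ker ((Int.castRingHom (ZMod q)).comp
        (Rat.ringOfIntegersEquiv : 𝓞 ℚ →+* ℤ)) := by
      rw [RingHom.mem_ker, map_natCast, CharP.cast_eq_zero]
    rw [h, Ideal.mem_bot] at h1
    exact (Fact.out : q.Prime).ne_zero (by exact_mod_cast h1)

theorem q_mem_vQ (q : ℕ) [Fact q.Prime] : (q : 𝓞 ℚ) ∈ (vQ q).asIdeal := by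
  change (q : 𝓞 ℚ) ∈ RingHom.ker _
  rw [RingHom.mem_ker, map_natCast, CharP.cast_eq_zero]

/-- a reduction -/
theorem exists_phi (L : Type) [Field L] [NumberField L] (q : ℕ) [Fact q.Prime] :
    Nonempty (𝓞 L →+* AlgebraicClosure (ZMod q)) := by
  obtain ⟨w, hw⟩ := Pool.Agent.Q182.AR.exists_above (F := ℚ) (E := L) (vQ q)
  have hqw : (q : 𝓞 L) ∈ w.asIdeal := by
    have h1 : (q : 𝓞 ℚ) ∈ (w.under (𝓞 ℚ)).asIdeal := by
      rw [hw]
      exact q_mem_vQ q
    exact mem_under.1 h1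
  have hmax := w.isMaximal
  let _ : Field (𝓞 L ⧸ w.asIdeal) := Ideal.Quotient.field w.asIdeal
  have hfin : Finite (𝓞 L ⧸ w.asIdeal) := Ideal.finiteQuotientOfFreeOfNeBot _ w.ne_bot
  have hch : CharP (𝓞 L ⧸ w.asIdeal) q := by
    have h1 : ((q : ℕ) : 𝓞 L ⧸ w.asIdeal) = 0 := by
      have h2 := Ideal.Quotient.eq_zero_iff_mem.2 hqw
      rwa [map_natCast] at h2
    obtain ⟨r, hr⟩ := CharP.exists (𝓞 L ⧸ w.asIdeal)
    have h2 : r ∣ q := (CharP.cast_eq_zero_iff _ r q).1 h1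
    have h3 : r ≠ 1 := CharP.char_ne_one (𝓞 L ⧸ w.asIdeal) r
    have h4 : r = q := ((Nat.dvd_prime Fact.out).1 h2).resolve_left h3
    rw [← h4]
    exact hr
  let _ : Algebra (ZMod q) (𝓞 L ⧸ w.asIdeal) := ZMod.algebra _ q
  have : Module.Finite (ZMod q) (𝓞 L ⧸ w.asIdeal) := Module.Finite.of_finite
  have : Algebra.IsAlgebraic (ZMod q) (𝓞 L ⧸ w.asIdeal) := inferInstance
  let f : (𝓞 L ⧸ w.asIdeal) →ₐ[ZMod q] AlgebraicClosure (ZMod q) := IsAlgClosed.lift
  exact ⟨(f : (𝓞 L ⧸ w.asIdeal) →+* AlgebraicClosure (ZMod q)).comp (Ideal.Quotient.mk w.asIdeal)⟩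

/-- the trivial Frobenius element -/
theorem hasFrob_one (L : Type) [Field L] [NumberField L] {p q : ℕ} [Fact p.Prime] [Fact q.Prime]
    [IsCyclotomicExtension {p} ℚ L] (hq1 : q ≡ 1 [MOD p]) (φ : 𝓞 L →+* AlgebraicClosure (ZMod q)) :
    HasFrob q φ (1 : L ≃ₐ[ℚ] L) := by
  intro x
  have hp : p.Prime := Fact.out
  have hq : q.Prime := Fact.out
  have : NeZero p := ⟨hp.ne_zero⟩
  have hI : IsCyclotomicExtension {p} ℤ (𝓞 L) := inferInstance
  have hx := hI.adjoin_roots x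
  have h1 : φ x ^ q = φ x := by
    induction hx using Algebra.adjoin_induction with
    | mem b hb =>
      obtain ⟨n, hn, -, hb⟩ := hb
      rw [Set.mem_singleton_iff] at hn
      rw [hn] at hb
      have h2 : φ b ^ p = 1 := by rw [← map_pow, hb, map_one]
      obtain ⟨c, hc⟩ : p ∣ q - 1 := (Nat.modEq_iff_dvd' hq.one_lt.le).1 hq1.symm
      have h3 : q = p * c + 1 := by have := hq.one_lt; omega
      have h4 : φ b ^ q = φ b ^ (p * c + 1) := congrArg (fun n => φ b ^ n) h3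
      rw [h4, pow_succ, pow_mul, h2, one_pow, one_mul]
    | algebraMap r =>
      have h2 : φ (algebraMap ℤ (𝓞 L) r) = algebraMap (ZMod q) (AlgebraicClosure (ZMod q)) (r : ZMod q) := by
        rw [eq_intCast, map_intCast, map_intCast]
      rw [h2, ← map_pow, ZMod.pow_card]
    | add a b _ _ ha hb => rw [map_add, add_pow_char, ha, hb]
    | mul a b _ _ ha hb => rw [map_mul, mul_pow, ha, hb]
  rw [h1, one_smul]

theorem cyc_top {N : ℕ} (hN : N ≠ 0) :
    IntermediateField.adjoin ℚ {x : cyc N | x ^ N = 1} = ⊤ := by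
  have h := cyc_ext hN
  apply IntermediateField.adjoin_eq_top_of_algebra
  rw [eq_top_iff]
  intro x _
  have h1 := h.adjoin_roots x
  refine Algebra.adjoin_mono ?_ h1
  rintro b ⟨n, hn, -, hb⟩
  rw [Set.mem_singleton_iff] at hn
  rw [hn] at hb
  exact hb

/-- the prime numbers different from `p` are unramified -/
theorem el_one {K : IntermediateField ℚ ℂ} [NumberField K] {p q : ℕ} (hp : p.Prime) [Fact q.Prime]
    (hqp : q ≠ p) (hK : K ≤ cyc p) (v : HeightOneSpectrum (𝓞 K)) (hv : (q : 𝓞 K) ∈ v.asIdeal) :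
    el q v = 1 := by
  have hq : q.Prime := Fact.out
  have hcf : NumberField (cyc p) := nf (cyc_fin hp.ne_zero)
  have hcg : IsGalois ℚ (cyc p) := (cyc_ab hp.ne_zero).toIsGalois
  have hv0 : (q : 𝓞 ℚ) ∈ (v.under (𝓞 ℚ)).asIdeal := mem_under.2 hv
  have h1 := el_tower (F := ℚ) hq.ne_zero v
  have h2 : el q (v.under (𝓞 ℚ)) = 1 := by
    unfold el
    rw [← rat_prime_span hq hv0, dvI_prime, Finsupp.single_eq_same]
  have hpv : (p : 𝓞 ℚ) ∉ (v.under (𝓞 ℚ)).asIdeal := by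
    intro h
    have h3 := absNorm_rat hq hv0
    rw [absNorm_rat hp h] at h3
    exact hqp h3.symm
  let i1 := inc hK
  have hU : Unramified K (v.under (𝓞 ℚ)) :=
    (unram_cyc (k := ℚ) (B := cyc p) hp.ne_zero (cyc_top hp.ne_zero) hpv).sub
  rw [h1, h2, ri_eq_one hU rfl]
  rfl

end Pool.Agent.H515.KV
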