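import Pool.Agent.H515.KV.Fld

/-! # Ideal classes fixed by a group of automorphisms -/

set_option autoImplicit false
set_option linter.unusedSectionVars false
set_option linter.deprecated false

namespace Pool.Agent.H515.CH

open NumberField IsDedekindDomain Pool.Agent.Q5.BR Pool.Agent.Q92.AR Pool.Agent.Q106.AR
open Pool.Agent.TeamU (act mem_act val_act)

section
variable {F E : Type} [Field F] [NumberField F] [Field E] [NumberField E] [Algebra F E]

/-- the map of the rings of integers -/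
noncomputable abbrev mr {E : Type} [Field E] (g : E →+* E) : 𝓞 E →+* 𝓞 E :=
  RingOfIntegers.mapRingHom g

theorem mr_inj (g : E →+* E) : Function.Injective (mr g) := by
  intro x y h
  apply RingOfIntegers.ext
  exact g.injective (congrArg (fun z : 𝓞 E => (z : E)) h)

theorem map_act (g : E ≃ₐ[F] E) (w : HeightOneSpectrum (𝓞 E)) :
    Ideal.map (mr (g : E →+* E)) w.asIdeal = (act g w).asIdeal :=
  (Pool.Agent.TeamU.actE_asIdeal g.toRingEquiv w).symm

theorem map_ne (g : E →+* E) {J : Ideal (𝓞 E)} (hJ : J ≠ ⊥) : Ideal.map (mr g) J ≠ ⊥ := by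
  intro h
  rw [Ideal.map_eq_bot_iff_of_injective (mr_inj g)] at h
  exact hJ h

theorem dvI_map (g : E ≃ₐ[F] E) (I : Ideal (𝓞 E)) :
    I ≠ ⊥ → dvI (Ideal.map (mr (g : E →+* E)) I) = sD g (dvI I) := by
  refine UniqueFactorizationMonoid.induction_on_prime
    (P := fun I : Ideal (𝓞 E) => I ≠ ⊥ →
      dvI (Ideal.map (mr (g : E →+* E)) I) = sD g (dvI I)) I ?_ ?_ ?_
  · intro h
    exact absurd rfl h
  · intro I hI _
    rw [Ideal.isUnit_iff.1 hI, Ideal.map_top, dvI_top, map_zero]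
  · intro I P hI hP ih h
    have hP0 : P ≠ ⊥ := hP.ne_zero
    obtain ⟨v, hv⟩ : ∃ v : HeightOneSpectrum (𝓞 E), v.asIdeal = P :=
      ⟨⟨P, Ideal.isPrime_of_prime hP, hP0⟩, rfl⟩
    rw [dvI_mul hP0 hI, map_add, ← ih hI, Ideal.map_mul, dvI_mul (map_ne _ hP0) (map_ne _ hI), ← hv,
      dvI_prime, sD_single, map_act, dvI_prime]

theorem cls_dvI (I : nonZeroDivisors (Ideal (𝓞 E))) : cls (dvI (I : Ideal (𝓞 E))) =
    ClassGroup.mk0 I := by
  unfold cls
  rw [clHom_apply, ← ClassGroup.mk_mk0 E]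
  change ClassGroup.mk E _ = _
  congr 1
  refine Pool.Agent.Q149.GK.eq_of_count _ _ fun v => ?_
  rw [Pool.Agent.Q149.GK.count_fi, dvI_apply]
  rfl

/-- the class `c` is fixed by `g` -/
def FixBy {E : Type} [Field E] [NumberField E] (g : E →+* E) (c : ClassGroup (𝓞 E)) : Prop :=
  ∀ I J : nonZeroDivisors (Ideal (𝓞 E)), (J : Ideal (𝓞 E)) = Ideal.map (mr g) I →
    ClassGroup.mk0 I = c → ClassGroup.mk0 J = c

theorem cls_congr (g : E ≃ₐ[F] E) {D D' : Dv E} (h : cls D' = cls D) :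
    cls (sD g D') = cls (sD g D) := by
  have h1 : cls (D' - D) = 1 := by
    have h2 : cls (D' - D) * cls D = cls D' := by
      rw [← cls_add, sub_add_cancel]
    rw [h] at h2
    exact mul_eq_right.1 h2
  have h2 : D' - D ∈ PP E := by
    rw [← ker_clHom]
    exact h1
  have h3 : sD g (D' - D) ∈ PP E := sb_le g h2
  have h4 : cls (sD g (D' - D)) = 1 := by
    rw [← ker_clHom] at h3
    exact h3
  have h5 : cls (sD g D') = cls (sD g (D' - D)) * cls (sD g D) := by
    rw [← cls_add, ← map_add, sub_add_cancel]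
  rw [h5, h4, one_mul]

theorem fixBy_iff (g : E ≃ₐ[F] E) (D : Dv E) :
    FixBy (g : E →+* E) (cls D) ↔ cls (sD g D) = cls D := by
  constructor
  · intro h
    obtain ⟨I, hI⟩ := ClassGroup.mk0_surjective (cls D)
    have hI0 : (I : Ideal (𝓞 E)) ≠ ⊥ := nonZeroDivisors.ne_zero I.2
    have h1 := h I ⟨_, mem_nonZeroDivisors_of_ne_zero (map_ne (g : E →+* E) hI0)⟩ rfl hI
    rw [← cls_dvI] at h1
    have h2 : cls (sD g (dvI (I : Ideal (𝓞 E)))) = cls D := by
      rw [← dvI_map g _ hI0]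
      exact h1
    rw [← cls_congr g (D' := dvI (I : Ideal (𝓞 E))) (by rw [cls_dvI, hI]), h2]
  · intro h I J hJ hI
    have hI0 : (I : Ideal (𝓞 E)) ≠ ⊥ := nonZeroDivisors.ne_zero I.2
    rw [← cls_dvI, hJ, dvI_map g _ hI0,
      cls_congr g (D := D) (D' := dvI (I : Ideal (𝓞 E))) (by rw [cls_dvI, hI]), h]

/-- the number of the classes fixed by all automorphisms over `F` -/
theorem card_fixed_classes {σ : E ≃ₐ[F] E} (hσ : ∀ g : E ≃ₐ[F] E, g ∈ Subgroup.zpowers σ) :
    Nat.card {c : ClassGroup (𝓞 E) // ∀ g : E ≃ₐ[F] E, FixBy (g : E →+* E) c} =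
      (PP E).relIndex (AA σ) := by
  classical
  rw [← card_fixed]
  have hall : ∀ D : Dv E, (∀ g : E ≃ₐ[F] E, cls (sD g D) = cls D) ↔ cls (sD σ D) = cls D := by
    intro D
    refine ⟨fun h => h σ, fun h g => ?_⟩
    obtain ⟨n, hn⟩ := (isOfFinOrder_of_finite σ).mem_powers_iff_mem_zpowers.2 (hσ g)
    have hn' : σ ^ n = g := hn
    rw [← hn']
    clear hn hn'
    induction n with
    | zero =>
      congr 1
      ext w
      conv_lhs => rw [pow_zero, ← Pool.Agent.TeamU.act_one (k := F) w]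
      rw [Pool.Agent.Q225.AR.sD_act]
    | succ n ih =>
      have e : sD (σ ^ (n + 1)) D = sD σ (sD (σ ^ n) D) := by
        ext w
        obtain ⟨w', rfl⟩ := Pool.Agent.Q225.AR.act_surj (σ ^ (n + 1)) w
        rw [Pool.Agent.Q225.AR.sD_act, pow_succ', Pool.Agent.TeamU.act_mul,
          Pool.Agent.Q225.AR.sD_act, Pool.Agent.Q225.AR.sD_act]
      rw [e, cls_congr σ ih, h]
  have hcls : ∀ D : Dv E, eqv E (QuotientAddGroup.mk D) = Additive.ofMul (cls D) := fun D => rfl
  apply Nat.card_congr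
  refine Equiv.symm (Equiv.subtypeEquiv ((eqv E).toEquiv.trans Additive.toMul) fun x => ?_)
  obtain ⟨D, rfl⟩ := QuotientAddGroup.mk_surjective x
  change sb σ (QuotientAddGroup.mk D) - QuotientAddGroup.mk D = 0 ↔
    ∀ g : E ≃ₐ[F] E, FixBy (g : E →+* E) (cls D)
  simp only [fixBy_iff]
  rw [hall, sub_eq_zero, sb_mk]
  constructor
  · intro h
    have h1 := congrArg (eqv E) h
    exact h1
  · intro h
    apply (eqv E).injective
    exact h

end
end Pool.Agent.H515.CH
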