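import Pool.Agent.H515.Trf

/-! # The ambiguous class number formula for cyclic extensions of prime degree -/

set_option autoImplicit false
set_option linter.unusedSectionVars false
set_option linter.deprecated false

namespace Pool.Agent.H515.CH

open NumberField IsDedekindDomain Pool.Agent.Q5.BR Pool.Agent.Q92.AR Pool.Agent.Q106.AR
open Pool.Agent.TeamU (act mem_act)

section
variable {F E : Type} [Field F] [NumberField F] [Field E] [NumberField E] [Algebra F E]

theorem act_eq_of_total {σ : E ≃ₐ[F] E} {w : HeightOneSpectrum (𝓞 E)}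
    (h : ri F w = Module.finrank F E) (w' : HeightOneSpectrum (𝓞 E))
    (hw : w'.under (𝓞 F) = w.under (𝓞 F)) : w' = w := by
  have h1 : ld F w = Module.finrank F E := by
    apply le_antisymm (ld_le w)
    unfold ld
    rw [h]
    exact Nat.le_mul_of_pos_left _ (rdeg_pos' w)
  exact (ld_eq_iff w).1 h1 w' hw

/-- the index of the extended divisors in the ambiguous divisors -/
theorem ai_eq [IsGalois F E] {σ : E ≃ₐ[F] E} (hσ : ∀ g : E ≃ₐ[F] E, g ∈ Subgroup.zpowers σ)
    {p : ℕ} [NeZero p] (hn : Module.finrank F E = p) (T : Finset (HeightOneSpectrum (𝓞 F)))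
    (h1 : ∀ w : HeightOneSpectrum (𝓞 E), w.under (𝓞 F) ∈ T → ri F w = p)
    (h2 : ∀ w : HeightOneSpectrum (𝓞 E), w.under (𝓞 F) ∉ T → ri F w = 1) :
    ai σ = p ^ T.card := by
  classical
  choose W hW using fun v : HeightOneSpectrum (𝓞 F) =>
    Pool.Agent.Q182.AR.exists_above (F := F) (E := E) v
  let Ψ : (df (sD σ)).ker →+ (T → ZMod p) := AddMonoidHom.mk'
    (fun D v => ((D : Dv E) (W v.1) : ZMod p)) fun D D' => by
      funext v
      change ((((D : Dv E) + (D' : Dv E)) (W v.1) : ℤ) : ZMod p) = _
      rw [Finsupp.add_apply, Int.cast_add]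
      rfl
  have hΨ : ∀ D v, Ψ D v = ((D : Dv E) (W v.1) : ZMod p) := fun _ _ => rfl
  have hker : Ψ.ker = ((cn F E).range).addSubgroupOf ((df (sD σ)).ker) := by
    ext D
    rw [AddMonoidHom.mem_ker, AddSubgroup.mem_addSubgroupOf]
    constructor
    · intro hD
      refine mem_range_cn hσ (by
        have := D.2
        rw [AddMonoidHom.mem_ker, df_apply] at this
        exact sub_eq_zero.1 this) fun w => ?_
      by_cases hw : w.under (𝓞 F) ∈ T
      · have h3 := congrFun hD ⟨w.under (𝓞 F), hw⟩
        rw [hΨ, Pi.zero_apply, ZMod.intCast_zmod_eq_zero_iff_dvd] at h3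
        rw [h1 w hw]
        have h4 : w = W (w.under (𝓞 F)) :=
          act_eq_of_total (σ := σ) (by rw [h1 _ (by rw [hW]; exact hw), hn]) w (hW _).symm
        rw [h4]
        rw [← h4]
        have h5 : ((D : Dv E) (W (w.under (𝓞 F)))) = (D : Dv E) w := by rw [← h4]
        rw [← h5]
        exact h3
      · rw [h2 w hw]
        exact one_dvd _
    · rintro ⟨D', hD'⟩
      funext v
      rw [hΨ, ← hD', cn_apply, h1 (W v.1) (by rw [hW]; exact v.2)]
      push_cast
      rw [CharP.cast_eq_zero, zero_mul]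
      rfl
  have hsurj : Function.Surjective Ψ := by
    intro c
    choose z hz using fun v => ZMod.intCast_surjective (c v)
    let D : Dv E := ∑ v : T, Finsupp.single (W v.1) (z v)
    have hfix : sD σ D = D := by
      change sD σ (∑ v : T, Finsupp.single (W v.1) (z v)) = _
      rw [map_sum]
      refine Finset.sum_congr rfl fun v _ => ?_
      rw [sD_single]
      congr 1
      exact act_eq_of_total (σ := σ) (by rw [h1 _ (by rw [hW]; exact v.2), hn]) _
        (Pool.Agent.Q225.AR.under_act _ _)
    refine ⟨⟨D, ?_⟩, ?_⟩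
    · rw [AddMonoidHom.mem_ker, df_apply, hfix, sub_self]
    · funext v
      rw [hΨ, ← hz v]
      congr 1
      change (∑ u : T, Finsupp.single (W u.1) (z u)) (W v.1) = z v
      rw [Finsupp.finset_sum_apply, Finset.sum_eq_single v]
      · exact Finsupp.single_eq_same
      · intro u _ huv
        apply Finsupp.single_eq_of_ne
        intro h
        apply huv
        apply Subtype.ext
        rw [← hW u.1, ← hW v.1, h]
      · intro h
        exact absurd (Finset.mem_univ _) h
  unfold ai
  change ((cn F E).range.addSubgroupOf ((df (sD σ)).ker)).index = _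
  rw [← hker, AddSubgroup.index_ker, AddMonoidHom.range_eq_top.2 hsurj,
    Nat.card_congr (AddSubgroup.topEquiv.toEquiv), Nat.card_fun, Nat.card_zmod,
    Nat.card_eq_fintype_card, Fintype.card_coe]

/-- the `p`-part of the ambiguous class number formula -/
theorem chev_val [IsGalois F E] {σ : E ≃ₐ[F] E} (hσ : ∀ g : E ≃ₐ[F] E, g ∈ Subgroup.zpowers σ)
    {p : ℕ} [Fact p.Prime] (hp2 : p ≠ 2) (hn : Module.finrank F E = p)
    (T : Finset (HeightOneSpectrum (𝓞 F)))
    (h1 : ∀ w : HeightOneSpectrum (𝓞 E), w.under (𝓞 F) ∈ T → ri F w = p)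
    (h2 : ∀ w : HeightOneSpectrum (𝓞 E), w.under (𝓞 F) ∉ T → ri F w = 1) :
    padicValNat p ((PP E).relIndex (AA σ)) + padicValNat p (ni F E) + 1 =
      padicValNat p (classNumber F) + T.card := by
  have hpp : p.Prime := Fact.out
  have C1 := chevalley σ hσ
  have hP1 : (PP E).relIndex (AA σ) ≠ 0 := by
    rw [← card_fixed]
    exact Nat.card_pos.ne'
  have hni0 := ni_ne σ hσ
  have hn0 : Module.finrank F E ≠ 0 := Module.finrank_pos.ne'
  have hL1 : (PP E).relIndex (AA σ) * ni F E * Module.finrank F E ≠ 0 :=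
    mul_ne_zero (mul_ne_zero hP1 hni0) hn0
  have hR1 := hL1
  rw [C1] at hR1
  have hai1 : ai σ ≠ 0 := right_ne_zero_of_mul (right_ne_zero_of_mul hR1)
  have V1 := congrArg (padicValNat p) C1
  rw [val_mul (mul_ne_zero hP1 hni0) hn0, val_mul hP1 hni0,
    val_mul (left_ne_zero_of_mul hR1) (right_ne_zero_of_mul hR1),
    val_mul index_PP_ne hai1, index_PP] at V1
  have h2' : padicValNat p (2 ^ Nat.card (RealRam F E)) = 0 := by
    apply padicValNat.eq_zero_of_not_dvd
    intro hd
    exact hp2 ((Nat.prime_dvd_prime_iff_eq hpp Nat.prime_two).1 (hpp.dvd_of_dvd_pow hd))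
  have hai := ai_eq hσ hn T h1 h2
  rw [hai, padicValNat.prime_pow, h2', hn, padicValNat_self] at V1
  omega

end
end Pool.Agent.H515.CH
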