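import Pool.Agent.H515.KV.Dvd

/-! # The binomial law -/

set_option autoImplicit false
set_option linter.unusedSectionVars false
set_option linter.deprecated false

namespace Pool.Agent.H515.KV

open NumberField IsDedekindDomain Pool.Agent.W401.Cheb Pool.Agent.H515.CH Filter Topology
open Pool.Agent.Q92.AR Pool.Agent.Q5.BR Pool.Agent.Q106.AR

/-- the units which are `p`-th powers modulo all primes above `q` -/
def Uq (K : Type) [Field K] [NumberField K] (p q : ℕ) : AddSubmonoid (Additive (𝓞 K)ˣ) where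
  carrier := {u | ∀ v : HeightOneSpectrum (𝓞 K), (q : 𝓞 K) ∈ v.asIdeal →
    ∃ c : 𝓞 K, ((u.toMul : (𝓞 K)ˣ) : 𝓞 K) - c ^ p ∈ v.asIdeal}
  zero_mem' := fun v _ => ⟨1, by
    have h : (((0 : Additive (𝓞 K)ˣ).toMul : (𝓞 K)ˣ) : 𝓞 K) - 1 ^ p = 0 := by
      rw [one_pow, toMul_zero, Units.val_one, sub_self]
    rw [h]
    exact v.asIdeal.zero_mem⟩
  add_mem' {a b} ha hb v hv := by
    obtain ⟨c, hc⟩ := ha v hv
    obtain ⟨d, hd⟩ := hb v hv
    refine ⟨c * d, ?_⟩
    have e : (((a + b).toMul : (𝓞 K)ˣ) : 𝓞 K) - (c * d) ^ p =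
        ((a.toMul : (𝓞 K)ˣ) : 𝓞 K) * (((b.toMul : (𝓞 K)ˣ) : 𝓞 K) - d ^ p) +
        d ^ p * (((a.toMul : (𝓞 K)ˣ) : 𝓞 K) - c ^ p) := by
      rw [toMul_add, Units.val_mul]
      ring
    rw [e]
    exact add_mem (Ideal.mul_mem_left _ _ hd) (Ideal.mul_mem_left _ _ hc)

/-- their image -/
def Wq {K : Type} [Field K] [NumberField K] {p : ℕ} [Fact p.Prime] (q : ℕ) {r : ℕ}
    (π : Additive (𝓞 K)ˣ →+ (Fin r → ZMod p)) : AddSubgroup (Fin r → ZMod p) where
  carrier := {x | ∃ u ∈ Uq K p q, π u = x}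
  zero_mem' := ⟨0, AddSubmonoid.zero_mem _, map_zero π⟩
  add_mem' := by
    rintro _ _ ⟨u, hu, rfl⟩ ⟨w, hw, rfl⟩
    exact ⟨u + w, AddSubmonoid.add_mem _ hu hw, map_add π u w⟩
  neg_mem' := by
    rintro _ ⟨u, hu, rfl⟩
    refine ⟨(p - 1) • u, AddSubmonoid.nsmul_mem _ hu _, ?_⟩
    have hp : p.Prime := Fact.out
    have h1 : p • π u = 0 := by
      funext i
      rw [Pi.smul_apply, Pi.zero_apply, nsmul_eq_mul, CharP.cast_eq_zero, zero_mul]
    have h2 : p • π u = (p - 1) • π u + π u := by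
      rw [← succ_nsmul]
      congr 1
      have := hp.pos
      omega
    rw [map_nsmul]
    rw [h1] at h2
    exact eq_neg_of_add_eq_zero_left h2.symm

theorem mem_Wq {K : Type} [Field K] [NumberField K] {p q r : ℕ} [Fact p.Prime]
    (π : Additive (𝓞 K)ˣ →+ (Fin r → ZMod p)) (hker : ∀ x, π x = 0 ↔ ∃ y, p • y = x)
    (u : (𝓞 K)ˣ) : π (Additive.ofMul u) ∈ Wq q π ↔ ∀ v : HeightOneSpectrum (𝓞 K),
      (q : 𝓞 K) ∈ v.asIdeal → ∃ c : 𝓞 K, (u : 𝓞 K) - c ^ p ∈ v.asIdeal := by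
  constructor
  · rintro ⟨u', hu', h⟩
    have h1 : π (Additive.ofMul u - u') = 0 := by rw [map_sub, h, sub_self]
    obtain ⟨y, hy⟩ := (hker _).1 h1
    have h2 : Additive.ofMul u = u' + p • y := sub_eq_iff_eq_add'.1 hy.symm
    have h3 : p • y ∈ Uq K p q := by
      intro v _
      refine ⟨((y.toMul : (𝓞 K)ˣ) : 𝓞 K), ?_⟩
      have e : (((p • y).toMul : (𝓞 K)ˣ) : 𝓞 K) - ((y.toMul : (𝓞 K)ˣ) : 𝓞 K) ^ p = 0 := by
        rw [toMul_nsmul, Units.val_pow_eq_pow_val, sub_self]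
      rw [e]
      exact v.asIdeal.zero_mem
    have h4 : Additive.ofMul u ∈ Uq K p q := by
      rw [h2]
      exact AddSubmonoid.add_mem _ hu' h3
    exact h4
  · intro h
    exact ⟨Additive.ofMul u, h, rfl⟩

/-- the Galois group is generated by one element -/
theorem exists_gen {p : ℕ} [Fact p.Prime] {K : IntermediateField ℚ ℂ} [NumberField K] [IsGalois ℚ K]
    (hK : K ≤ cyc p) : ∃ σ : K ≃ₐ[ℚ] K, ∀ g : K ≃ₐ[ℚ] K, g ∈ Subgroup.zpowers σ := by
  have hp : p.Prime := Fact.out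
  have hcf : NumberField (cyc p) := nf (cyc_fin hp.ne_zero)
  have hce : IsCyclotomicExtension {p} ℚ (cyc p) := cyc_ext hp.ne_zero
  have hcg : IsGalois ℚ (cyc p) := (cyc_ab hp.ne_zero).toIsGalois
  let i1 := inc hK
  have i2 : IsScalarTower ℚ K (cyc p) := IsScalarTower.of_algebraMap_eq fun x => rfl
  let e := IsCyclotomicExtension.Rat.galEquivZMod p (cyc p)
  have hcy : IsCyclic (cyc p ≃ₐ[ℚ] cyc p) := isCyclic_of_surjective e.symm e.symm.surjective
  have hcy2 : IsCyclic (K ≃ₐ[ℚ] K) := by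
    have : Normal ℚ K := inferInstance
    exact isCyclic_of_surjective (AlgEquiv.restrictNormalHom (F := ℚ) (K₁ := cyc p) K)
      (AlgEquiv.restrictNormalHom_surjective (cyc p))
  exact hcy2.exists_generator

/-- the primes above `q` -/
theorem card_above {p q : ℕ} [Fact p.Prime] [Fact q.Prime] {K : IntermediateField ℚ ℂ}
    [NumberField K] [IsGalois ℚ K] (hK : K ≤ cyc p) (hqp : q ≠ p) (hq1 : q ≡ 1 [MOD p]) :
    Nat.card {v : HeightOneSpectrum (𝓞 K) // (q : 𝓞 K) ∈ v.asIdeal} = Module.finrank ℚ K := by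
  have hp : p.Prime := Fact.out
  have hcf : NumberField (cyc p) := nf (cyc_fin hp.ne_zero)
  have hce : IsCyclotomicExtension {p} ℚ (cyc p) := cyc_ext hp.ne_zero
  let i1 := inc hK
  obtain ⟨φ⟩ := exists_phi (cyc p) q
  have hF := hasFrob_one (cyc p) hq1 φ
  exact card_primes (K := K) (ζ := (1 : cyc p)) hF (one_mem _) fun v hv => el_one hp hqp hK v hv

theorem coprime_of {p m : ℕ} (hp : p.Prime) (hm0 : 0 < m) (hm : m ∣ p - 1) : m.Coprime p := by
  rw [Nat.coprime_comm]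
  refine (Nat.Prime.coprime_iff_not_dvd hp).2 (Nat.not_dvd_of_pos_of_lt hm0 ?_)
  have h1 := Nat.le_of_dvd (by have := hp.one_lt; omega) hm
  have := hp.pos
  omega

theorem finrank_dvd' {p : ℕ} [Fact p.Prime] {K : IntermediateField ℚ ℂ} [NumberField K]
    (hK : K ≤ cyc p) : Module.finrank ℚ K ∣ p - 1 := by
  have hp : p.Prime := Fact.out
  have hcf : NumberField (cyc p) := nf (cyc_fin hp.ne_zero)
  have hce : IsCyclotomicExtension {p} ℚ (cyc p) := cyc_ext hp.ne_zero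
  let i1 := inc hK
  have h3 : Module.finrank ℚ K * Module.finrank K (cyc p) = Module.finrank ℚ (cyc p) :=
    Module.finrank_mul_finrank ℚ K (cyc p)
  rw [IsCyclotomicExtension.Rat.finrank p (cyc p), Nat.totient_prime hp] at h3
  exact ⟨_, h3.symm⟩

section
variable {p : ℕ} [Fact p.Prime] (hp2 : p ≠ 2) {K : IntermediateField ℚ ℂ} [NumberField K]
  (hK : K ≤ cyc p) (hR : ∀ x ∈ K, starRingEnd ℂ x = x)
include hp2 hK hR

/-- **every prime congruent to `1` modulo `p`** -/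
theorem law_all {q : ℕ} [Fact q.Prime] {M : IntermediateField ℚ ℂ} [NumberField M]
    (hM : Layer K p q M) : ∃ j ≤ Module.finrank ℚ K - 1,
      padicValNat p (Nat.card (Fixed K M)) = padicValNat p (classNumber K) + j := by
  have hp : p.Prime := Fact.out
  have hq : q.Prime := Fact.out
  have hG := sub_gal hp.ne_zero hK
  have hT := tot_real hR
  have hq1 := layer_dvd hq hM
  have hqp : q ≠ p := by
    rintro rfl
    have h1 : q ∣ q - 1 := (Nat.modEq_iff_dvd' hq.one_lt.le).1 hq1.symm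
    have h2 := Nat.le_of_dvd (by have := hq.one_lt; omega) h1
    have := hq.pos
    omega
  obtain ⟨σ, hσ⟩ := exists_gen hK
  have hm := finrank_dvd' hK
  obtain ⟨f, π, A, b, hπ, hker, hf, hA, hb⟩ := unit_mod hσ p hp2 hm
  have hcard : Nat.card (Wq q π) ∣ p ^ (Module.finrank ℚ K - 1) := by
    have h1 := (Wq q π).card_addSubgroup_dvd_card
    rw [Nat.card_fun, Nat.card_zmod, Nat.card_fin] at h1
    rw [← rank_eq]
    exact h1
  obtain ⟨j, hj, hjc⟩ := (Nat.dvd_prime_pow hp).1 hcard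
  exact ⟨j, hj, layer_val hp2 hm hM hqp (fun v hv => el_one hp hqp hK v hv)
    (card_above hK hqp hq1) π hπ (Wq q π) (mem_Wq π hker) hjc⟩

theorem dvd_all {q : ℕ} [Fact q.Prime] {M : IntermediateField ℚ ℂ} [NumberField M]
    (hM : Layer K p q M) : p ∣ classNumber M ↔ p ∣ Nat.card (Fixed K M) := by
  have hp : p.Prime := Fact.out
  have hq : q.Prime := Fact.out
  have hq1 := layer_dvd hq hM
  have hqp : q ≠ p := by
    rintro rfl
    have h1 : q ∣ q - 1 := (Nat.modEq_iff_dvd' hq.one_lt.le).1 hq1.symm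
    have h2 := Nat.le_of_dvd (by have := hq.one_lt; omega) h1
    have := hq.pos
    omega
  have hm := finrank_dvd' hK
  exact layer_dvd_iff (coprime_of hp Module.finrank_pos hm) hM fun v hv => el_one hp hqp hK v hv

omit hp2 hR in
theorem exists_layer {q : ℕ} [Fact q.Prime] (hq1 : q ≡ 1 [MOD p]) : ∃ M, Layer K p q M := by
  obtain ⟨k, hk, hd⟩ := exists_sub (p := p) hq1
  exact ⟨K ⊔ k, k, hk, hd, rfl⟩

/-- the property of `q` -/
def PP (K : IntermediateField ℚ ℂ) [NumberField K] (p j q : ℕ) : Prop :=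
  ∃ (M : IntermediateField ℚ ℂ) (_ : NumberField M), Layer K p q M ∧
    padicValNat p (Nat.card (Fixed K M)) = padicValNat p (classNumber K) + j

theorem binomial_law (j : ℕ) : Tendsto (dn (PP K p j)) atTop
    (𝓝 ((((Module.finrank ℚ K - 1).choose j * (p - 1) ^ (Module.finrank ℚ K - 1 - j) : ℕ) : ℝ) /
      ((p ^ (Module.finrank ℚ K - 1) * (p - 1) : ℕ) : ℝ))) := by
  classical
  have hp : p.Prime := Fact.out
  have hG := sub_gal hp.ne_zero hK
  have hT := tot_real hR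
  obtain ⟨σ, hσ⟩ := exists_gen hK
  have hm := finrank_dvd' hK
  obtain ⟨f, π, A, b, hπ, hker, hf, hA, hb⟩ := unit_mod hσ p hp2 hm
  obtain ⟨L, hKL, hCL, hLf, hLG, hLr⟩ := exists_L K hp π hker
  let i1 := inc hKL
  have hζ0 := Complex.isPrimitiveRoot_exp p hp.ne_zero
  have hζm : Complex.exp (2 * Real.pi * Complex.I / p) ∈ L :=
    hCL (IntermediateField.subset_adjoin ℚ _ hζ0.pow_eq_one)
  obtain ⟨ζ, hζd⟩ : ∃ ζ : L, (ζ : ℂ) = Complex.exp (2 * Real.pi * Complex.I / p) := ⟨⟨_, hζm⟩, rfl⟩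
  have hζ : IsPrimitiveRoot ζ p := by
    refine IsPrimitiveRoot.of_map_of_injective (f := algebraMap L ℂ) ?_ (algebraMap L ℂ).injective
    change IsPrimitiveRoot (ζ : ℂ) p
    rw [hζd]
    exact hζ0
  have hroot : ∀ u : (𝓞 K)ˣ, ∃ y : L, y ^ p = uL L u := by
    intro u
    obtain ⟨y, hy, hyp⟩ := hLr u
    exact ⟨⟨y, hy⟩, Subtype.ext hyp⟩
  -- the subgroup `HH`
  have hHH : ∀ g : L ≃ₐ[ℚ] L, g ∈ HH K ζ ↔ g ζ = ζ := by
    intro g
    refine ⟨fun h => h.2, fun h => ⟨?_, h⟩⟩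
    intro x
    have hx : ((x : K) : ℂ) ∈ cyc p := hK x.2
    have key : ∀ z ∈ cyc p, ∀ y : L, (y : ℂ) = z → g y = y := by
      intro z hz
      induction hz using IntermediateField.adjoin_induction with
      | mem z hz =>
        intro y hy
        have h1 : y ^ p = 1 := by
          apply Subtype.ext
          change (y : ℂ) ^ p = 1
          rw [hy]
          exact hz
        have : NeZero p := ⟨hp.ne_zero⟩
        obtain ⟨i, -, rfl⟩ := hζ.eq_pow_of_pow_eq_one h1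
        rw [map_pow, h]
      | algebraMap r =>
        intro y hy
        have h1 : y = algebraMap ℚ L r := Subtype.ext (by
          rw [hy]
          simp)
        rw [h1, AlgEquiv.commutes]
      | add a b ha hb iha ihb =>
        intro y hy
        have h1 : y = ⟨a, hCL ha⟩ + ⟨b, hCL hb⟩ := Subtype.ext hy
        rw [h1, map_add, iha _ rfl, ihb _ rfl]
      | inv a ha iha =>
        intro y hy
        have h1 : y = (⟨a, hCL ha⟩ : L)⁻¹ := Subtype.ext hy
        rw [h1, map_inv₀, iha _ rfl]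
      | mul a b ha hb iha ihb =>
        intro y hy
        have h1 : y = ⟨a, hCL ha⟩ * ⟨b, hCL hb⟩ := Subtype.ext hy
        rw [h1, map_mul, iha _ rfl, ihb _ rfl]
    exact key _ hx _ rfl
  let T : Set ((Fin (Units.rank K) → ZMod p) →ₗ[ZMod p] ZMod p) :=
    {φ | Nat.card (KK f φ) = Nat.card (ZMod p) ^ j}
  let S : Set (L ≃ₐ[ℚ] L) := {g | ∃ h : g ∈ HH K ζ, fo hζ hroot π hπ hker ⟨g, h⟩ ∈ T}
  have hmain := dens L S (PP K p j) p hp.pos (by
    intro q hfq hqd φ g hF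
    have hq : q.Prime := Fact.out
    have hqp : q ≠ p := fun h => hqd (by rw [h])
    have hun : ∀ v : HeightOneSpectrum (𝓞 K), (q : 𝓞 K) ∈ v.asIdeal → el q v = 1 :=
      fun v hv => el_one hp hqp hK v hv
    have hval : ∀ (h : g ∈ HH K ζ) (M : IntermediateField ℚ ℂ) (_ : NumberField M),
        Layer K p q M → ∀ i : ℕ, Nat.card (KK f (fo hζ hroot π hπ hker ⟨g, h⟩)) = p ^ i →
        padicValNat p (Nat.card (Fixed K M)) = padicValNat p (classNumber K) + i := by
      intro h M _ hM i hi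
      exact layer_val hp2 hm hM hqp hun (card_primes hF h hun) π hπ _
        (mem_W hζ hqp hF hroot π hπ hker hσ hf h) hi
    constructor
    · rintro ⟨M, hMf, hM, hv⟩
      have hq1 := layer_dvd hq hM
      have hg : g ∈ HH K ζ := (hHH g).2 ((frob_zeta hζ hqp hF).1 hq1)
      refine ⟨hg, ?_⟩
      change Nat.card (KK f _) = Nat.card (ZMod p) ^ j
      have h1 := Module.card_eq_pow_finrank (K := ZMod p)
        (V := KK f (fo hζ hroot π hπ hker ⟨g, hg⟩))
      rw [← Nat.card_eq_fintype_card, ZMod.card] at h1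
      have h2 := hval hg M hMf hM _ h1
      rw [hv] at h2
      have h3 := Nat.add_left_cancel h2
      rw [h1, Nat.card_zmod, ← h3]
    · rintro ⟨hg, hgT⟩
      have hq1 : q ≡ 1 [MOD p] := (frob_zeta hζ hqp hF).2 ((hHH g).1 hg)
      obtain ⟨M, hM⟩ := exists_layer (K := K) (p := p) hK hq1
      have hMf := layer_fin hq.ne_zero hM
      refine ⟨M, hMf, hM, hval hg M hMf hM j ?_⟩
      have h1 : Nat.card (KK f (fo hζ hroot π hπ hker ⟨g, hg⟩)) = Nat.card (ZMod p) ^ j := hgT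
      rwa [Nat.card_zmod] at h1)
  have h1 : Nat.card S = Nat.card {g : HH K ζ // fo hζ hroot π hπ hker g ∈ T} := by
    apply Nat.card_congr
    exact { toFun := fun g => ⟨⟨g.1, g.2.choose⟩, g.2.choose_spec⟩
            invFun := fun g => ⟨g.1.1, g.1.2, g.2⟩
            left_inv := fun g => rfl
            right_inv := fun g => rfl }
  have h2 := card_forms hζ hroot π hπ hker T
  have h3 : Nat.card T = A.card.choose j * (Nat.card (ZMod p) - 1) ^ (A.card - j) :=
    count_forms b hb j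
  have h4 : Nat.card ((Fin (Units.rank K) → ZMod p) →ₗ[ZMod p] ZMod p) =
      p ^ (Module.finrank ℚ K - 1) := by
    have e : ((Fin (Units.rank K) → ZMod p) →ₗ[ZMod p] ZMod p) ≃ (A → ZMod p) :=
      (b.constr (ZMod p) (M' := ZMod p)).symm.toEquiv
    rw [Nat.card_congr e, Nat.card_fun, Nat.card_zmod, ← hA, Nat.card_eq_fintype_card,
      Fintype.card_coe]
  have h5 : Nat.card (HH K ζ) * (p - 1) = Nat.card (L ≃ₐ[ℚ] L) := by
    rw [← card_fix hp hζ]
    congr 1
    exact Nat.card_congr (Equiv.subtypeEquivRight hHH)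
  rw [← h1, h4, h3, hA, Nat.card_zmod] at h2
  have hG0 : (Nat.card (L ≃ₐ[ℚ] L) : ℝ) ≠ 0 := Nat.cast_ne_zero.2 Nat.card_pos.ne'
  have hp0 : ((p ^ (Module.finrank ℚ K - 1) * (p - 1) : ℕ) : ℝ) ≠ 0 := by
    have := hp.one_lt
    exact Nat.cast_ne_zero.2 (Nat.mul_pos (pow_pos hp.pos _) (by omega)).ne'
  have h6 : (Nat.card S : ℝ) / (Nat.card (L ≃ₐ[ℚ] L) : ℝ) =
      (((Module.finrank ℚ K - 1).choose j * (p - 1) ^ (Module.finrank ℚ K - 1 - j) : ℕ) : ℝ) /
      ((p ^ (Module.finrank ℚ K - 1) * (p - 1) : ℕ) : ℝ) := by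
    rw [div_eq_div_iff hG0 hp0, ← Nat.cast_mul, ← Nat.cast_mul]
    congr 1
    rw [← mul_assoc, h2, ← h5]
    ring
  rw [← h6]
  exact hmain

end

end Pool.Agent.H515.KV
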