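import Pool.Agent.H515.KV.Split

/-! # Auxiliary fields -/

set_option autoImplicit false
set_option linter.unusedSectionVars false
set_option linter.deprecated false

namespace Pool.Agent.H515.KV

open NumberField IsDedekindDomain Pool.Agent.W401.Cheb Pool.Agent.H515.CH Filter Topology
open Pool.Agent.Q92.AR Pool.Agent.Q5.BR Pool.Agent.Q106.AR

/-- the automorphisms fixing a primitive `p`-th root of unity -/
theorem card_fix {L : Type} [Field L] [NumberField L] [IsGalois ℚ L] {p : ℕ} (hp : p.Prime) {ζ : L}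
    (hζ : IsPrimitiveRoot ζ p) :
    Nat.card {g : L ≃ₐ[ℚ] L // g ζ = ζ} * (p - 1) = Nat.card (L ≃ₐ[ℚ] L) := by
  classical
  let E : IntermediateField ℚ L := IntermediateField.adjoin ℚ {ζ}
  have h1 : Nat.card E.fixingSubgroup = Module.finrank E L :=
    IsGalois.card_fixingSubgroup_eq_finrank E
  have h2 : Nat.card {g : L ≃ₐ[ℚ] L // g ζ = ζ} = Nat.card E.fixingSubgroup := by
    apply Nat.card_congr
    apply Equiv.subtypeEquivRight
    intro g
    constructor
    · intro hg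
      rw [IntermediateField.mem_fixingSubgroup_iff]
      intro x hx
      have h3 : E ≤ IntermediateField.fixedField (Subgroup.zpowers g) := by
        rw [IntermediateField.adjoin_le_iff, Set.singleton_subset_iff]
        rintro ⟨_, n, rfl⟩
        have h4 : g ∈ MulAction.stabilizer (L ≃ₐ[ℚ] L) ζ := hg
        exact Subgroup.zpow_mem _ h4 n
      exact h3 hx ⟨g, Subgroup.mem_zpowers g⟩
    · intro hg
      exact (IntermediateField.mem_fixingSubgroup_iff _ _).1 hg ζ
        (IntermediateField.mem_adjoin_simple_self ℚ ζ)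
  have h3 : Module.finrank ℚ E = p - 1 := by
    rw [IntermediateField.adjoin.finrank (Algebra.IsIntegral.isIntegral ζ),
      ← Polynomial.cyclotomic_eq_minpoly_rat hζ hp.pos, Polynomial.natDegree_cyclotomic,
      Nat.totient_prime hp]
  rw [h2, h1, ← h3, mul_comm, Module.finrank_mul_finrank, IsGalois.card_aut_eq_finrank]

theorem exists_fixed {E : Type} [Field E] [NumberField E] [IsGalois ℚ E] (H : Subgroup (E ≃ₐ[ℚ] E))
    {n : ℕ} (hH : H.index = n) : ∃ F : IntermediateField ℚ E, Module.finrank ℚ F = n := by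
  refine ⟨IntermediateField.fixedField H, ?_⟩
  have h1 := IntermediateField.finrank_fixedField_eq_card H
  have h2 := H.card_mul_index
  have h3 := Module.finrank_mul_finrank ℚ (IntermediateField.fixedField H) E
  rw [h1, ← IsGalois.card_aut_eq_finrank ℚ E, ← h2, mul_comm (Nat.card H), hH] at h3
  exact Nat.eq_of_mul_eq_mul_right Nat.card_pos h3

/-- the subfield of degree `p` -/
theorem exists_sub {p q : ℕ} [Fact q.Prime] (hq1 : q ≡ 1 [MOD p]) :
    ∃ k : IntermediateField ℚ ℂ, k ≤ cyc q ∧ Module.finrank ℚ k = p := by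
  classical
  have hq : q.Prime := Fact.out
  have hcf : NumberField (cyc q) := nf (cyc_fin hq.ne_zero)
  have hce : IsCyclotomicExtension {q} ℚ (cyc q) := cyc_ext hq.ne_zero
  have hcg : IsGalois ℚ (cyc q) := (cyc_ab hq.ne_zero).toIsGalois
  let e := IsCyclotomicExtension.Rat.galEquivZMod q (cyc q)
  have hpq : p ∣ q - 1 := (Nat.modEq_iff_dvd' hq.one_lt.le).1 hq1.symm
  let H0 : Subgroup (ZMod q)ˣ := (powMonoidHom p : (ZMod q)ˣ →* (ZMod q)ˣ).range
  have hH0 : H0.index = p := by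
    have h1 : H0.index = (Nat.card (ZMod q)ˣ).gcd p := IsCyclic.index_powMonoidHom_range _ p
    have h2 : Nat.card (ZMod q)ˣ = q - 1 := by
      rw [Nat.card_eq_fintype_card, ZMod.card_units]
    rw [h1, h2]
    exact Nat.gcd_eq_right hpq
  obtain ⟨F, hF⟩ := exists_fixed (H0.comap (e : (cyc q ≃ₐ[ℚ] cyc q) →* (ZMod q)ˣ)) (n := p)
    ((Subgroup.index_comap_of_surjective H0 (f := (e : (cyc q ≃ₐ[ℚ] cyc q) →* (ZMod q)ˣ))
      e.surjective).trans hH0)
  let f : cyc q →ₐ[ℚ] ℂ := (algebraMap (cyc q) ℂ).toRatAlgHom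
  refine ⟨F.map f, ?_, ?_⟩
  · rintro _ ⟨x, -, rfl⟩
    exact x.2
  · rw [← hF]
    exact ((F.equivMap f).toLinearEquiv.finrank_eq).symm

/-- the field with the roots of the units -/
theorem exists_L (K : IntermediateField ℚ ℂ) [NumberField K] {p : ℕ} (hp : p.Prime) {V : Type}
    [AddCommGroup V] [Finite V] (π : Additive (𝓞 K)ˣ →+ V)
    (hker : ∀ x, π x = 0 ↔ ∃ y, p • y = x) :
    ∃ L : IntermediateField ℚ ℂ, K ≤ L ∧ cyc p ≤ L ∧ NumberField L ∧ IsGalois ℚ L ∧
      ∀ u : (𝓞 K)ˣ, ∃ y ∈ L, y ^ p = (((u : 𝓞 K) : K) : ℂ) := by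
  classical
  -- representatives
  let rep : V → Additive (𝓞 K)ˣ := fun v => if h : ∃ x, π x = v then h.choose else 0
  have hrep : ∀ x, π (rep (π x)) = π x := by
    intro x
    have h : ∃ x', π x' = π x := ⟨x, rfl⟩
    have h1 : rep (π x) = h.choose := dif_pos h
    rw [h1]
    exact h.choose_spec
  have hrt : ∀ v : V, ∃ y : ℂ, y ^ p = ((((rep v).toMul : (𝓞 K)ˣ) : 𝓞 K) : K) := by
    intro v
    exact IsAlgClosed.exists_pow_nat_eq _ hp.pos
  choose y hy using hrt
  let S : IntermediateField ℚ ℂ := IntermediateField.adjoin ℚ (Set.range y)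
  have hS : FiniteDimensional ℚ S := by
    apply IntermediateField.finiteDimensional_adjoin
    rintro _ ⟨v, rfl⟩
    apply IsIntegral.of_pow hp.pos
    rw [hy]
    exact (Algebra.IsIntegral.isIntegral (R := ℚ) ((((rep v).toMul : (𝓞 K)ˣ) : 𝓞 K) : K)).map
      ((algebraMap K ℂ).toRatAlgHom)
  have hKf : FiniteDimensional ℚ K := inferInstance
  have hF : NumberField ↥((K ⊔ cyc p) ⊔ S) :=
    nf (sup_fin (sup_fin hKf (cyc_fin hp.ne_zero)) hS)
  obtain ⟨L, hL, hLf, hLg⟩ := exists_closure ((K ⊔ cyc p) ⊔ S)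
  have hKL : K ≤ L := (le_sup_left.trans le_sup_left).trans hL
  refine ⟨L, hKL, (le_sup_right.trans le_sup_left).trans hL, hLf, hLg, fun u => ?_⟩
  have h1 : π (Additive.ofMul u - rep (π (Additive.ofMul u))) = 0 := by
    rw [map_sub, hrep, sub_self]
  obtain ⟨w, hw⟩ := (hker _).1 h1
  have h2 : u = (rep (π (Additive.ofMul u))).toMul * w.toMul ^ p := by
    have h3 := congrArg Additive.toMul (sub_eq_iff_eq_add'.1 hw.symm)
    exact h3
  have hw' : ((((w.toMul : (𝓞 K)ˣ) : 𝓞 K) : K) : ℂ) ∈ L := hKL (((w.toMul : (𝓞 K)ˣ) : 𝓞 K) : K).2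
  refine ⟨y (π (Additive.ofMul u)) * ((((w.toMul : (𝓞 K)ˣ) : 𝓞 K) : K) : ℂ), mul_mem ?_ hw', ?_⟩
  · apply hL
    apply (le_sup_right : S ≤ (K ⊔ cyc p) ⊔ S)
    exact IntermediateField.subset_adjoin ℚ _ ⟨_, rfl⟩
  · rw [mul_pow, hy]
    conv_rhs => rw [h2]
    let f : (𝓞 K)ˣ →* ℂ := ((algebraMap K ℂ : K →* ℂ).comp (algebraMap (𝓞 K) K : 𝓞 K →* K)).comp
      (Units.coeHom (𝓞 K))
    have h4 := map_mul f (rep (π (Additive.ofMul u))).toMul (w.toMul ^ p)
    rw [map_pow] at h4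
    exact h4.symm

end Pool.Agent.H515.KV
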