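import Pool.Agent.H515.KV.Clo

/-! # Divisibility of class numbers; the maximal real subfield -/

set_option autoImplicit false
set_option linter.unusedSectionVars false
set_option linter.deprecated false

namespace Pool.Agent.H515.KV

open NumberField IsDedekindDomain Pool.Agent.W401.Cheb Pool.Agent.H515.CH Filter Topology
open Pool.Agent.Q92.AR Pool.Agent.Q5.BR Pool.Agent.Q106.AR

theorem dvd_class {F E : Type} [Field F] [NumberField F] [Field E] [NumberField E] [Algebra F E]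
    [IsGalois F E] {σ : E ≃ₐ[F] E} (hσ : ∀ g : E ≃ₐ[F] E, g ∈ Subgroup.zpowers σ) {p : ℕ}
    [Fact p.Prime] (hn : Module.finrank F E = p) :
    p ∣ classNumber E ↔ p ∣ Nat.card {c : ClassGroup (𝓞 E) // ∀ g : E ≃ₐ[F] E, FixBy (g : E →+* E) c} := by
  rw [card_fixed_classes hσ, ← CH.card_fixed, ← card_DC]
  constructor
  · intro h
    have h1 := dvd_fixed (p := p) (sb σ) (s := 1) (fun x => by
      rw [pow_one]
      have h2 := sb_finrank σ x
      rwa [hn] at h2) ⊤ (fun _ _ => trivial) (by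
      rwa [Nat.card_congr (AddSubgroup.topEquiv (G := DC E)).toEquiv])
    rwa [top_inf_eq] at h1
  · intro h
    exact h.trans (AddSubgroup.card_addSubgroup_dvd_card _)

theorem layer_dvd_iff {K M : IntermediateField ℚ ℂ} [NumberField K] [NumberField M]
    {p q : ℕ} [Fact p.Prime] [Fact q.Prime] 
    (hc : (Module.finrank ℚ K).Coprime p) (hM : Layer K p q M)
    (hun : ∀ v : HeightOneSpectrum (𝓞 K), (q : 𝓞 K) ∈ v.asIdeal → el q v = 1) :
    p ∣ classNumber M ↔ p ∣ Nat.card (Fixed K M) := by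
  have hpp : p.Prime := Fact.out
  have hq : q.Prime := Fact.out
  obtain ⟨k, hk, hd, hMk⟩ := hM
  have hKM : K ≤ M := by rw [hMk]; exact le_sup_left
  have hkM : k ≤ M := by rw [hMk]; exact le_sup_right
  let i1 := inc hKM
  obtain ⟨g1, g2, g3, g4⟩ := fld_facts hq hpp hKM hkM hMk.le hk hd hc hun
  have hcy : IsCyclic (M ≃ₐ[K] M) := by
    apply isCyclic_of_prime_card (p := p)
    rw [IsGalois.card_aut_eq_finrank, g2]
  obtain ⟨σ, hσ⟩ := hcy.exists_generator
  rw [card_Fixed hKM]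
  exact dvd_class hσ g2

/-- complex conjugation on a Galois number field -/
theorem exists_conj {k : IntermediateField ℚ ℂ} [NumberField k] [IsGalois ℚ k] :
    ∃ e : k ≃ₐ[ℚ] k, ∀ x : k, ((e x : k) : ℂ) = starRingEnd ℂ (x : ℂ) := by
  let c : k →ₐ[ℚ] ℂ := ((starRingEnd ℂ).comp (algebraMap k ℂ)).toRatAlgHom
  have hc : ∀ x : k, starRingEnd ℂ (x : ℂ) ∈ k := by
    intro x
    have hs : ((minpoly ℚ x).map (algebraMap ℚ k)).Splits := Normal.splits inferInstance x
    have hm0 : minpoly ℚ x ≠ 0 := minpoly.ne_zero (Algebra.IsIntegral.isIntegral x)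
    let v : k →ₐ[ℚ] ℂ := (algebraMap k ℂ).toRatAlgHom
    have h3 : c x ∈ c '' (minpoly ℚ x).rootSet k :=
      ⟨x, (Polynomial.mem_rootSet.2 ⟨hm0, minpoly.aeval ℚ x⟩), rfl⟩
    rw [hs.image_rootSet c, ← hs.image_rootSet v] at h3
    obtain ⟨z, -, hz⟩ := h3
    have h4 : starRingEnd ℂ (x : ℂ) = (z : ℂ) := hz.symm
    rw [h4]
    exact z.2
  let g : k →ₐ[ℚ] k := RingHom.toRatAlgHom
    { toFun := fun x => ⟨starRingEnd ℂ (x : ℂ), hc x⟩
      map_one' := Subtype.ext (map_one _)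
      map_mul' := fun x y => Subtype.ext (map_mul _ _ _)
      map_zero' := Subtype.ext (map_zero _)
      map_add' := fun x y => Subtype.ext (map_add _ _ _) }
  exact ⟨AlgEquiv.ofBijective g (Algebra.IsAlgebraic.algHom_bijective g), fun x => rfl⟩

/-- a Galois number field which is real is totally real -/
theorem tot_real {k : IntermediateField ℚ ℂ} [NumberField k] [IsGalois ℚ k]
    (h : ∀ x ∈ k, starRingEnd ℂ x = x) : IsTotallyReal k := by
  refine ⟨fun w => ?_⟩
  rw [InfinitePlace.isReal_iff]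
  obtain ⟨c, hc⟩ : ∃ c : k →+* ℂ, c = w.embedding := ⟨_, rfl⟩
  rw [← hc]
  have key : ∀ x : k, starRingEnd ℂ (c x) = c x := by
    intro x
    let u : k →ₐ[ℚ] ℂ := c.toRatAlgHom
    have hs : ((minpoly ℚ x).map (algebraMap ℚ k)).Splits := Normal.splits inferInstance x
    have hm0 : minpoly ℚ x ≠ 0 := minpoly.ne_zero (Algebra.IsIntegral.isIntegral x)
    let v : k →ₐ[ℚ] ℂ := (algebraMap k ℂ).toRatAlgHom
    have h3 : u x ∈ u '' (minpoly ℚ x).rootSet k :=
      ⟨x, (Polynomial.mem_rootSet.2 ⟨hm0, minpoly.aeval ℚ x⟩), rfl⟩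
    rw [hs.image_rootSet u, ← hs.image_rootSet v] at h3
    obtain ⟨z, -, hz⟩ := h3
    have h4 : c x = (z : ℂ) := hz.symm
    rw [h4]
    exact h _ z.2
  rw [ComplexEmbedding.isReal_iff]
  ext x
  exact key x

/-- the subfield of index two is real -/
theorem real_sub {p : ℕ} [Fact p.Prime] (hp2 : p ≠ 2) {K : IntermediateField ℚ ℂ} (hK : K ≤ cyc p)
    (hd : 2 * Module.finrank ℚ K = p - 1) : ∀ x ∈ K, starRingEnd ℂ x = x := by
  classical
  have hp : p.Prime := Fact.out
  have hcf : NumberField (cyc p) := nf (cyc_fin hp.ne_zero)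
  have hce : IsCyclotomicExtension {p} ℚ (cyc p) := cyc_ext hp.ne_zero
  have hcg : IsGalois ℚ (cyc p) := (cyc_ab hp.ne_zero).toIsGalois
  have hKf : NumberField K := nf (sub_fin hp.ne_zero hK)
  let i1 := inc hK
  let e := IsCyclotomicExtension.Rat.galEquivZMod p (cyc p)
  have h3 : Module.finrank ℚ K * Module.finrank K (cyc p) = Module.finrank ℚ (cyc p) :=
    Module.finrank_mul_finrank ℚ K (cyc p)
  rw [IsCyclotomicExtension.Rat.finrank p (cyc p), Nat.totient_prime hp] at h3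
  have hK0 : 0 < Module.finrank ℚ K := Module.finrank_pos
  have h4 : Module.finrank K (cyc p) = 2 := by
    rw [← hd, mul_comm] at h3
    exact Nat.eq_of_mul_eq_mul_right hK0 h3
  have hKG : IsGalois K (cyc p) := IsGalois.tower_top_of_isGalois ℚ K (cyc p)
  have h5 : Nat.card (cyc p ≃ₐ[K] cyc p) = 2 := by rw [IsGalois.card_aut_eq_finrank, h4]
  obtain ⟨g, hg⟩ : ∃ g : cyc p ≃ₐ[K] cyc p, g ≠ 1 := by
    have : Nontrivial (cyc p ≃ₐ[K] cyc p) := by
      apply Finite.one_lt_card_iff_nontrivial.1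
      rw [h5]
      norm_num
    exact exists_ne 1
  have hg2 : g ^ 2 = 1 := by
    rw [← h5]
    exact pow_card_eq_one'
  let g' : cyc p ≃ₐ[ℚ] cyc p := g.restrictScalars ℚ
  have hg'2 : g' ^ 2 = 1 := by
    ext x
    exact congrArg (fun h : cyc p ≃ₐ[K] cyc p => ((h x : cyc p) : ℂ)) hg2
  have hg'1 : g' ≠ 1 := by
    intro h
    apply hg
    ext x
    exact congrArg (fun h : cyc p ≃ₐ[ℚ] cyc p => ((h x : cyc p) : ℂ)) h
  obtain ⟨c, hc⟩ := exists_conj (k := cyc p)
  have hc2 : c ^ 2 = 1 := by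
    ext x
    rw [pow_two, AlgEquiv.mul_apply, hc, hc, Complex.conj_conj]
    rfl
  have hc1 : c ≠ 1 := by
    intro h
    have hζ := Complex.isPrimitiveRoot_exp p hp.ne_zero
    have hζm : Complex.exp (2 * Real.pi * Complex.I / p) ∈ cyc p :=
      IntermediateField.subset_adjoin ℚ _ hζ.pow_eq_one
    have h1 := hc ⟨_, hζm⟩
    rw [h] at h1
    have h2 : starRingEnd ℂ (Complex.exp (2 * Real.pi * Complex.I / p)) =
        Complex.exp (2 * Real.pi * Complex.I / p) := h1.symm
    obtain ⟨r, hr⟩ := Complex.conj_eq_iff_real.1 h2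
    rw [hr] at hζ
    have h6 : IsPrimitiveRoot (r : ℂ) p := hζ
    have h7 : (r : ℝ) ^ p = 1 := by
      have := h6.pow_eq_one
      exact_mod_cast this
    have hodd := hp.odd_of_ne_two hp2
    have h8 : r = 1 := by
      have h9 := (hodd.strictMono_pow (R := ℝ)).injective (a₁ := r) (a₂ := 1) (by
        simpa using h7)
      exact h9
    rw [h8, Complex.ofReal_one] at h6
    exact hp.one_lt.ne (h6.unique (IsPrimitiveRoot.one)).symm
  -- the element of order two is unique
  have huniq : ∀ a : cyc p ≃ₐ[ℚ] cyc p, a ^ 2 = 1 → a ≠ 1 → ((e a : (ZMod p)ˣ) : ZMod p) = -1 := by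
    intro a ha1 ha2
    have h1 : (e a) ^ 2 = 1 := by rw [← map_pow, ha1, map_one]
    have h2 : ((e a : (ZMod p)ˣ) : ZMod p) ^ 2 = 1 := by
      rw [← Units.val_pow_eq_pow_val, h1, Units.val_one]
    rcases sq_eq_one_iff.1 h2 with h3 | h3
    · exfalso
      apply ha2
      apply e.injective
      rw [map_one]
      exact Units.ext h3
    · exact h3
  have hgc : g' = c := by
    apply e.injective
    apply Units.ext
    rw [huniq _ hg'2 hg'1, huniq _ hc2 hc1]
  intro x hx
  have h1 := hc ⟨x, hK hx⟩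
  rw [← hgc] at h1
  have h2 : g' ⟨x, hK hx⟩ = ⟨x, hK hx⟩ := g.commutes ⟨x, hx⟩
  rw [h2] at h1
  exact h1.symm

end Pool.Agent.H515.KV
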