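import Pool.Agent.H515.KV.Tame
import Pool.Agent.H515.Lay4

/-! # The field `K k`, `k` the subfield of degree `p` of the field of the `l`-th roots of unity -/

set_option autoImplicit false
set_option linter.unusedSectionVars false
set_option linter.deprecated false

namespace Pool.Agent.H515.CH

open NumberField IsDedekindDomain Pool.Agent.Q5.BR Pool.Agent.Q92.AR Pool.Agent.Q106.AR

section
variable {E : Type} [Field E] [NumberField E]

/-- the valuation of the prime number `l` at `w` -/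
noncomputable def el (l : ℕ) (w : HeightOneSpectrum (𝓞 E)) : ℤ := dvI (Ideal.span {(l : 𝓞 E)}) w

theorem el_eq {l : ℕ} (hl : l ≠ 0) (w : HeightOneSpectrum (𝓞 E)) :
    el l w = prin (Units.mk0 (l : E) (by exact_mod_cast hl)) w := by
  unfold el
  rw [dvI_span (l : 𝓞 E) (Units.mk0 (l : E) (by exact_mod_cast hl)) (by simp)]

theorem el_tower {F : Type} [Field F] [NumberField F] [Algebra F E] {l : ℕ} (hl : l ≠ 0)
    (w : HeightOneSpectrum (𝓞 E)) : el l w = ri F w * el l (w.under (𝓞 F)) := by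
  rw [el_eq hl, el_eq hl, ← cn_apply, cn_prin]
  congr 2
  apply Units.ext
  change (l : E) = algebraMap F E (l : F)
  rw [map_natCast]

theorem el_pos {l : ℕ} (hl : l ≠ 0) {w : HeightOneSpectrum (𝓞 E)} (hw : (l : 𝓞 E) ∈ w.asIdeal) :
    1 ≤ el l w := by
  have h0 : Ideal.span {(l : 𝓞 E)} ≠ ⊥ := by
    rw [Ne, Ideal.span_singleton_eq_bot]
    exact_mod_cast hl
  have h1 := (le_pow_iff h0 w 1).1 (by
    rw [pow_one, Ideal.span_singleton_le_iff_mem]
    exact hw)
  exact h1

theorem el_val {l : ℕ} (hl : l ≠ 0) {w : HeightOneSpectrum (𝓞 E)} :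
    w.valuation E (l : E) = WithZero.exp (-1 : ℤ) ↔ el l w = 1 := by
  rw [el_eq hl, Pool.Agent.Q182.AR.prin_log, Units.val_mk0]
  have h0 : w.valuation E (l : E) ≠ 0 := (Valuation.ne_zero_iff _).2 (by exact_mod_cast hl)
  constructor
  · intro h
    rw [h, WithZero.log_exp, neg_neg]
  · intro h
    rw [← WithZero.exp_log h0]
    congr 1
    omega

/-- in the field of the `l`-th roots of unity -/
theorem el_cyc {l : ℕ} [Fact l.Prime] [IsCyclotomicExtension {l} ℚ E]
    {w : HeightOneSpectrum (𝓞 E)} (hw : (l : 𝓞 E) ∈ w.asIdeal) :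
    ((l - 1 : ℕ) : ℤ) ≤ el l w := by
  have hl : l.Prime := Fact.out
  have h0 : Ideal.span {(l : 𝓞 E)} ≠ ⊥ := by
    rw [Ne, Ideal.span_singleton_eq_bot]
    exact_mod_cast hl.ne_zero
  have hE : IsCyclotomicExtension {l ^ (0 + 1)} ℚ E := by
    rw [zero_add, pow_one]
    infer_instance
  have hζ := IsCyclotomicExtension.zeta_spec (l ^ (0 + 1)) ℚ E
  have h1 := IsCyclotomicExtension.Rat.map_eq_span_zeta_sub_one_pow l 0 hζ
  have hfr : Module.finrank ℚ E = l - 1 := by
    rw [IsCyclotomicExtension.Rat.finrank l E, Nat.totient_prime hl]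
  rw [Ideal.map_span, Set.image_singleton, algebraMap_int_eq, eq_intCast, Int.cast_natCast, hfr] at h1
  apply (le_pow_iff h0 w (l - 1)).1
  rw [h1]
  apply Ideal.pow_right_mono
  have h2 : Ideal.span {(l : 𝓞 E)} ≤ w.asIdeal := by
    rw [Ideal.span_singleton_le_iff_mem]
    exact hw
  rw [h1] at h2
  exact w.isPrime.le_of_pow_le h2

end

/-- the primes above `l` in the subfield of degree `p` -/
theorem el_sub {l p : ℕ} (hl : l.Prime) (hp : 0 < p) {k : IntermediateField ℚ ℂ} [NumberField k]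
    (hk : k ≤ cyc l) (hd : Module.finrank ℚ k = p) {v : HeightOneSpectrum (𝓞 k)}
    (hv : (l : 𝓞 k) ∈ v.asIdeal) : (p : ℤ) ≤ el l v := by
  have hfl : Fact l.Prime := ⟨hl⟩
  have hcf : NumberField (cyc l) := nf (cyc_fin hl.ne_zero)
  have hce : IsCyclotomicExtension {l} ℚ (cyc l) := cyc_ext hl.ne_zero
  let i1 := inc hk
  obtain ⟨W, hW⟩ := Pool.Agent.Q182.AR.exists_above (F := k) (E := cyc l) v
  have hWl : (l : 𝓞 (cyc l)) ∈ W.asIdeal := by
    rw [← hW] at hv
    change algebraMap (𝓞 k) (𝓞 (cyc l)) (l : 𝓞 k) ∈ W.asIdeal at hv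
    rwa [map_natCast] at hv
  have h1 := el_cyc hWl
  rw [el_tower (F := k) hl.ne_zero, hW] at h1
  have h2 : ri k W ≤ Module.finrank k (cyc l) := by
    refine le_trans ?_ (ld_le (F := k) W)
    unfold ld
    exact Nat.le_mul_of_pos_left _ (rdeg_pos' W)
  have h3 : Module.finrank ℚ k * Module.finrank k (cyc l) = Module.finrank ℚ (cyc l) :=
    Module.finrank_mul_finrank ℚ k (cyc l)
  rw [hd, IsCyclotomicExtension.Rat.finrank l (cyc l), Nat.totient_prime hl] at h3
  have h4 : 0 < Module.finrank k (cyc l) := Module.finrank_pos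
  rw [← h3] at h1
  push_cast at h1
  have h5 : (0 : ℤ) < (Module.finrank k (cyc l) : ℤ) := by exact_mod_cast h4
  have h6 : ((ri k W : ℕ) : ℤ) ≤ (Module.finrank k (cyc l) : ℤ) := by exact_mod_cast h2
  have h7 := el_pos hl.ne_zero hv
  by_contra hlt
  push Not at hlt
  nlinarith

/-- a field of odd degree with abelian closure is real -/
theorem real_of_odd {l : ℕ} (hl : l ≠ 0) {k : IntermediateField ℚ ℂ} (hk : k ≤ cyc l)
    (hd : Odd (Module.finrank ℚ k)) : ∀ x ∈ k, starRingEnd ℂ x = x := by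
  have hG := sub_gal hl hk
  have hF := sub_fin hl hk
  let c : k →ₐ[ℚ] ℂ := ((starRingEnd ℂ).comp (algebraMap k ℂ)).toRatAlgHom
  have hc : ∀ x : k, starRingEnd ℂ (x : ℂ) ∈ k := by
    intro x
    have hs : ((minpoly ℚ x).map (algebraMap ℚ k)).Splits := Normal.splits inferInstance x
    have hm0 : minpoly ℚ x ≠ 0 := minpoly.ne_zero (Algebra.IsIntegral.isIntegral x)
    let v : k →ₐ[ℚ] ℂ := (algebraMap k ℂ).toRatAlgHom
    have h3 : c x ∈ c '' (minpoly ℚ x).rootSet k :=
      ⟨x, (Polynomial.mem_rootSet.2 ⟨hm0, minpoly.aeval ℚ x⟩), rfl⟩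
    rw [hs.image_rootSet c, ← hs.image_rootSet v] at h3
    obtain ⟨z, -, hz⟩ := h3
    have h4 : starRingEnd ℂ (x : ℂ) = (z : ℂ) := hz.symm
    rw [h4]
    exact z.2
  let g : k →ₐ[ℚ] k := RingHom.toRatAlgHom
    { toFun := fun x => ⟨starRingEnd ℂ (x : ℂ), hc x⟩
      map_one' := Subtype.ext (map_one _)
      map_mul' := fun x y => Subtype.ext (map_mul _ _ _)
      map_zero' := Subtype.ext (map_zero _)
      map_add' := fun x y => Subtype.ext (map_add _ _ _) }
  have hg : ∀ x : k, ((g x : k) : ℂ) = starRingEnd ℂ (x : ℂ) := fun x => rfl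
  let e : k ≃ₐ[ℚ] k := AlgEquiv.ofBijective g (Algebra.IsAlgebraic.algHom_bijective g)
  have he : ∀ x : k, ((e x : k) : ℂ) = starRingEnd ℂ (x : ℂ) := fun x => rfl
  have h2 : e ^ 2 = 1 := by
    ext x
    rw [pow_two, AlgEquiv.mul_apply, he, he, Complex.conj_conj]
    rfl
  have h3 : e ^ (Module.finrank ℚ k) = 1 := by
    rw [← IsGalois.card_aut_eq_finrank]
    exact pow_card_eq_one'
  have h4 : e = 1 := by
    have h5 := orderOf_dvd_of_pow_eq_one h2
    have h6 := orderOf_dvd_of_pow_eq_one h3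
    have h7 : orderOf e ∣ 1 := by
      have h8 : Nat.gcd 2 (Module.finrank ℚ k) = 1 := Nat.coprime_two_left.2 hd
      rw [← h8]
      exact Nat.dvd_gcd h5 h6
    exact orderOf_eq_one_iff.1 (Nat.dvd_one.1 h7)
  intro x hx
  have h5 := he ⟨x, hx⟩
  rw [h4] at h5
  exact h5.symm

/-- **The facts about the extension `K k / K`.** -/
theorem fld_facts {l p : ℕ} (hl : l.Prime) (hp : p.Prime) {K k M : IntermediateField ℚ ℂ}
    [NumberField K] [NumberField M] (hK : K ≤ M) (hkM : k ≤ M) (hM : M ≤ K ⊔ k)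
    (hk : k ≤ cyc l) (hd : Module.finrank ℚ k = p) (hc : (Module.finrank ℚ K).Coprime p)
    (hun : ∀ v : HeightOneSpectrum (𝓞 K), (l : 𝓞 K) ∈ v.asIdeal → el l v = 1) :
    letI := inc hK
    IsGalois K M ∧ Module.finrank K M = p ∧
      (∀ v : HeightOneSpectrum (𝓞 K), (l : 𝓞 K) ∉ v.asIdeal → Unramified M v) ∧
      ∀ w : HeightOneSpectrum (𝓞 M), (l : 𝓞 M) ∈ w.asIdeal → ri K w = p := by
  let i1 := inc hK
  let i2 := inc hkM
  have hkf : NumberField k := nf (sub_fin hl.ne_zero hk)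
  obtain ⟨g1, g2, g3⟩ := layer_facts hl.ne_zero hK hkM hM hk
  have hfr : Module.finrank K M = p := by
    rw [hd] at g2
    have h1 : Module.finrank ℚ K * Module.finrank K M = Module.finrank ℚ M :=
      Module.finrank_mul_finrank ℚ K M
    have h2 : Module.finrank ℚ k * Module.finrank k M = Module.finrank ℚ M :=
      Module.finrank_mul_finrank ℚ k M
    have h3 : p ∣ Module.finrank ℚ K * Module.finrank K M := by
      rw [h1, ← h2, hd]
      exact dvd_mul_right _ _
    exact Nat.dvd_antisymm g2 (hc.symm.dvd_of_dvd_mul_left h3)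
  refine ⟨g1, hfr, g3, fun w hw => ?_⟩
  have hwK : (l : 𝓞 K) ∈ (w.under (𝓞 K)).asIdeal := by
    change algebraMap (𝓞 K) (𝓞 M) (l : 𝓞 K) ∈ w.asIdeal
    rwa [map_natCast]
  have hwk : (l : 𝓞 k) ∈ (w.under (𝓞 k)).asIdeal := by
    change algebraMap (𝓞 k) (𝓞 M) (l : 𝓞 k) ∈ w.asIdeal
    rwa [map_natCast]
  have h1 := el_tower (F := K) hl.ne_zero w
  have h2 := el_tower (F := k) hl.ne_zero w
  rw [hun _ hwK, mul_one] at h1
  have h3 := el_sub hl hp.pos hk hd hwk
  have h4 : ri K w ≤ Module.finrank K M := by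
    refine le_trans ?_ (ld_le (F := K) w)
    unfold ld
    exact Nat.le_mul_of_pos_left _ (rdeg_pos' w)
  rw [hfr] at h4
  have h5 : 1 ≤ ri k w := ri_pos w
  apply le_antisymm h4
  have h6 : (p : ℤ) ≤ (ri K w : ℤ) := by
    rw [← h1, h2]
    have h7 : (1 : ℤ) ≤ (ri k w : ℤ) := by exact_mod_cast h5
    nlinarith
  exact_mod_cast h6

end Pool.Agent.H515.CH
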