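import Pool.Agent.H515.KV.Fix

/-! # The number of ambiguous classes in terms of the units modulo the ramified primes -/

set_option autoImplicit false
set_option linter.unusedSectionVars false
set_option linter.deprecated false

namespace Pool.Agent.H515.CH

open NumberField IsDedekindDomain Pool.Agent.Q5.BR Pool.Agent.Q92.AR Pool.Agent.Q106.AR
open Pool.Agent.Q182.AR (upA nuA)

section
variable {F E : Type} [Field F] [NumberField F] [Field E] [NumberField E] [Algebra F E]

/-- the units as elements of the field -/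
noncomputable def uH (F : Type) [Field F] [NumberField F] : Additive (𝓞 F)ˣ →+ Additive Fˣ :=
  MonoidHom.toAdditive (Units.map (algebraMap (𝓞 F) F : 𝓞 F →* F))

theorem uH_coe (u : (𝓞 F)ˣ) : (((uH F (Additive.ofMul u)).toMul : Fˣ) : F) = ((u : 𝓞 F) : F) := rfl

theorem val_unit (u : (𝓞 F)ˣ) (v : HeightOneSpectrum (𝓞 F)) :
    v.valuation F ((u : 𝓞 F) : F) = 1 := by
  have h := (HeightOneSpectrum.valuation_eq_one_iff_notMem (K := F) (v := v) (r := (u : 𝓞 F))).2
    fun h => v.isPrime.ne_top (Ideal.eq_top_of_isUnit_mem _ h u.isUnit)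
  exact h

theorem range_uH : (uH F).range = UU F := by
  ext x
  constructor
  · rintro ⟨u, rfl⟩
    rw [AddMonoidHom.mem_ker]
    ext v
    change prin _ v = 0
    rw [Pool.Agent.Q182.AR.prin_eq_zero_iff]
    exact val_unit u.toMul v
  · intro hx
    have h1 : ∀ v : HeightOneSpectrum (𝓞 F), v.valuation F ((x.toMul : Fˣ) : F) = 1 := by
      intro v
      rw [← Pool.Agent.Q182.AR.prin_eq_zero_iff]
      exact DFunLike.congr_fun hx v
    obtain ⟨a, ha⟩ := HeightOneSpectrum.mem_integers_of_valuation_le_one F ((x.toMul : Fˣ) : F)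
      fun v => (h1 v).le
    obtain ⟨b, hb⟩ := HeightOneSpectrum.mem_integers_of_valuation_le_one F
      (((x.toMul)⁻¹ : Fˣ) : F) fun v => by
        rw [Units.val_inv_eq_inv_val, map_inv₀, h1 v, inv_one]
    have hab : a * b = 1 := by
      apply FaithfulSMul.algebraMap_injective (𝓞 F) F
      rw [map_mul, ha, hb, map_one, Units.mul_inv]
    refine ⟨Additive.ofMul ⟨a, b, hab, by rw [mul_comm, hab]⟩, ?_⟩
    apply Additive.toMul.injective
    apply Units.ext
    exact ha

theorem mem_iff_val (v : HeightOneSpectrum (𝓞 F)) (u c : 𝓞 F) (n : ℕ) :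
    u - c ^ n ∈ v.asIdeal ↔ v.valuation F ((u : F) - (c : F) ^ n) < 1 := by
  have h := HeightOneSpectrum.valuation_lt_one_iff_mem (K := F) v (u - c ^ n)
  rw [← h]
  have e : algebraMap (𝓞 F) F (u - c ^ n) = (u : F) - (c : F) ^ n := by
    rw [map_sub, map_pow]
  change v.valuation F (algebraMap (𝓞 F) F (u - c ^ n)) < 1 ↔ _
  rw [e]

/-- **The number of the ambiguous classes.** -/
theorem local_law [IsGalois F E] {σ : E ≃ₐ[F] E} (hσ : ∀ g : E ≃ₐ[F] E, g ∈ Subgroup.zpowers σ)
    {p l r : ℕ} [Fact p.Prime] (hp2 : p ≠ 2) (hn : Module.finrank F E = p) (hl : l.Prime)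
    (hlp : l ≠ p) (hram : ∀ v : HeightOneSpectrum (𝓞 F), (l : 𝓞 F) ∉ v.asIdeal → Unramified E v)
    (htot : ∀ w : HeightOneSpectrum (𝓞 E), (l : 𝓞 E) ∈ w.asIdeal → ri F w = p)
    (hun : ∀ v : HeightOneSpectrum (𝓞 F), (l : 𝓞 F) ∈ v.asIdeal → el l v = 1)
    (hreal : ∀ φ : F →+* ℝ, ∃ χ : E →+* ℝ, χ.comp (algebraMap F E) = φ)
    (π : Additive (𝓞 F)ˣ →+ (Fin r → ZMod p)) (hπ : Function.Surjective π)
    (W : AddSubgroup (Fin r → ZMod p))
    (hW : ∀ u : (𝓞 F)ˣ, π (Additive.ofMul u) ∈ W ↔ ∀ v : HeightOneSpectrum (𝓞 F),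
      (l : 𝓞 F) ∈ v.asIdeal → ∃ c : 𝓞 F, (u : 𝓞 F) - c ^ p ∈ v.asIdeal)
    {j : ℕ} (hj : Nat.card W = p ^ j) :
    padicValNat p (Nat.card {c : ClassGroup (𝓞 E) // ∀ g : E ≃ₐ[F] E, FixBy (g : E →+* E) c}) +
      r + 1 = padicValNat p (classNumber F) +
      Nat.card {v : HeightOneSpectrum (𝓞 F) // (l : 𝓞 F) ∈ v.asIdeal} + j := by
  classical
  have hpp : p.Prime := Fact.out
  have hfin : {v : HeightOneSpectrum (𝓞 F) | (l : 𝓞 F) ∈ v.asIdeal}.Finite :=
    Pool.Agent.Q125.AR.finite_dvd hl.ne_zero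
  have hund : ∀ w : HeightOneSpectrum (𝓞 E), (l : 𝓞 F) ∈ (w.under (𝓞 F)).asIdeal ↔
      (l : 𝓞 E) ∈ w.asIdeal := by
    intro w
    change algebraMap (𝓞 F) (𝓞 E) (l : 𝓞 F) ∈ w.asIdeal ↔ _
    rw [map_natCast]
  have hC := chev_val hσ hp2 hn hfin.toFinset
    (fun w hw => htot w ((hund w).1 (hfin.mem_toFinset.1 hw)))
    (fun w hw => ri_eq_one (hram _ fun h => hw (hfin.mem_toFinset.2 h)) rfl)
  have hT : hfin.toFinset.card =
      Nat.card {v : HeightOneSpectrum (𝓞 F) // (l : 𝓞 F) ∈ v.asIdeal} := by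
    rw [← Nat.card_eq_finsetCard]
    exact Nat.card_congr (Equiv.subtypeEquivRight fun v => hfin.mem_toFinset)
  have hcop : (Module.finrank F E).Coprime l := by
    rw [hn]
    exact (Nat.coprime_primes hpp hl).2 (Ne.symm hlp)
  have hRam : Ram F E l := fun v hv => by
    by_contra h
    exact hv (hram v h)
  -- the norm index
  have hni : ni F E = W.index := by
    unfold ni
    rw [← range_uH, ← AddSubgroup.index_comap]
    have e : (nuA F E).range.comap (uH F) = W.comap π := by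
      ext u
      obtain ⟨u, rfl⟩ : ∃ u', Additive.ofMul u' = u := ⟨u.toMul, rfl⟩
      rw [AddSubgroup.mem_comap, AddSubgroup.mem_comap, hW]
      constructor
      · rintro ⟨y, hy⟩ v hv
        obtain ⟨w, rfl⟩ := Pool.Agent.Q182.AR.exists_above (F := F) (E := E) v
        have hy' : nu F E y.toMul = (uH F (Additive.ofMul u)).toMul :=
          congrArg Additive.toMul hy
        obtain ⟨c, hc⟩ := norm_res (w := w) (by rw [htot w ((hund w).1 hv), hn])
          (u := (uH F (Additive.ofMul u)).toMul) (val_unit u _) hy'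
        refine ⟨c, ?_⟩
        rw [hn] at hc
        exact (mem_iff_val _ _ _ _).2 hc
      · intro h
        obtain ⟨y, hy⟩ := res_norm hσ hl hcop hRam (fun v hv => (el_val hl.ne_zero).2 (hun v hv))
          hreal (u := (uH F (Additive.ofMul u)).toMul) (by
            ext v
            change prin _ v = 0
            rw [Pool.Agent.Q182.AR.prin_eq_zero_iff]
            exact val_unit u v) (fun v hv => by
            obtain ⟨c, hc⟩ := h v hv
            refine ⟨c, ?_⟩
            rw [hn]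
            exact (mem_iff_val _ _ _ _).1 hc)
        exact ⟨Additive.ofMul y, congrArg Additive.ofMul hy⟩
    rw [e, AddSubgroup.index_comap_of_surjective _ hπ]
  have hcard := W.card_mul_index
  rw [Nat.card_fun, Nat.card_zmod, Nat.card_fin, hj] at hcard
  have hjr : j ≤ r := by
    have h1 : p ^ j ∣ p ^ r := ⟨_, hcard.symm⟩
    exact (Nat.pow_dvd_pow_iff_le_right hpp.one_lt).1 h1
  have hidx : W.index = p ^ (r - j) := by
    have h1 : p ^ r = p ^ j * p ^ (r - j) := by rw [← pow_add, Nat.add_sub_cancel' hjr]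
    rw [h1] at hcard
    exact Nat.eq_of_mul_eq_mul_left (pow_pos hpp.pos j) hcard
  rw [hni, hidx, padicValNat.prime_pow, hT, ← card_fixed_classes hσ] at hC
  omega

end
end Pool.Agent.H515.CH
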