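import Pool.Agent.H515.KV.Kum
import Pool.Agent.H515.KV.Loc
import Pool.Agent.H515.KV.Cheb
import Pool.Agent.H515.Inf

/-! # Frobenius elements and `p`-th power residues -/

set_option autoImplicit false
set_option linter.unusedSectionVars false
set_option linter.deprecated false

namespace Pool.Agent.H515.KV

open NumberField IsDedekindDomain Pool.Agent.W401.Cheb Pool.Agent.H515.CH
open Pool.Agent.TeamU (act mem_act)

variable {K L : Type} [Field K] [NumberField K] [Field L] [NumberField L] [Algebra K L]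
  {p q : ℕ} [Fact p.Prime] [Fact q.Prime] {ζ : L} (hζ : IsPrimitiveRoot ζ p) (hqp : q ≠ p)
  {φ : 𝓞 L →+* AlgebraicClosure (ZMod q)} {g : L ≃ₐ[ℚ] L} (hF : HasFrob q φ g)

theorem prim_mod {k : Type} [Field k] {z : k} {p : ℕ} (hp : 0 < p) (hz : IsPrimitiveRoot z p)
    (a b : ℕ) : z ^ a = z ^ b ↔ a ≡ b [MOD p] := by
  have h : ∀ n : ℕ, z ^ n = z ^ (n % p) := by
    intro n
    conv_lhs => rw [← Nat.div_add_mod n p, pow_add, pow_mul, hz.pow_eq_one, one_pow, one_mul]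
  constructor
  · intro h1
    rw [h a, h b] at h1
    exact hz.pow_inj (Nat.mod_lt _ hp) (Nat.mod_lt _ hp) h1
  · intro h1
    rw [h a, h b, show a % p = b % p from h1]

/-- an integer of `L` -/
noncomputable def oi {x : L} {n : ℕ} (hn : 0 < n) (h : IsIntegral ℤ (x ^ n)) : 𝓞 L :=
  ⟨x, IsIntegral.of_pow hn h⟩

include hζ hqp in
theorem phi_root (ζ' : 𝓞 L) (h : (ζ' : L) = ζ) : IsPrimitiveRoot (φ ζ') p := by
  have hp : p.Prime := Fact.out
  have hq : q.Prime := Fact.out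
  have h1 : ζ' ^ p = 1 := by
    apply RingOfIntegers.ext
    have h2 : ((ζ' ^ p : 𝓞 L) : L) = (ζ' : L) ^ p := by
      exact map_pow (algebraMap (𝓞 L) L) ζ' p
    rw [h2, h, hζ.pow_eq_one]
    rfl
  have h2 : φ ζ' ^ p = 1 := by rw [← map_pow, h1, map_one]
  have h3 : ∑ i ∈ Finset.range p, ζ' ^ i = 0 := by
    apply RingOfIntegers.ext
    have h4 : ((∑ i ∈ Finset.range p, ζ' ^ i : 𝓞 L) : L) = ∑ i ∈ Finset.range p, ζ ^ i := by
      have h5 := map_sum (algebraMap (𝓞 L) L) (fun i => ζ' ^ i) (Finset.range p)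
      refine h5.trans (Finset.sum_congr rfl fun i _ => ?_)
      rw [map_pow]
      congr 1
    rw [h4, hζ.geom_sum_eq_zero hp.one_lt]
    rfl
  have h4 : φ ζ' ≠ 1 := by
    intro h5
    have h6 := congrArg φ h3
    rw [map_sum, map_zero] at h6
    have h7 : ∑ i ∈ Finset.range p, φ (ζ' ^ i) = (p : AlgebraicClosure (ZMod q)) := by
      rw [Finset.sum_congr rfl (g := fun _ => (1 : AlgebraicClosure (ZMod q)))]
      · rw [Finset.sum_const, Finset.card_range, nsmul_one]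
      · intro i _
        rw [map_pow, h5, one_pow]
    rw [h7, CharP.cast_eq_zero_iff (AlgebraicClosure (ZMod q)) q] at h6
    exact hqp ((Nat.prime_dvd_prime_iff_eq hq hp).1 h6)
  have h5 : orderOf (φ ζ') = p := orderOf_eq_prime h2 h4
  rw [← h5]
  exact IsPrimitiveRoot.orderOf _

theorem hasFrob_coe (hF : HasFrob q φ g) {x y : 𝓞 L} (h : (y : L) = g (x : L)) : φ y = φ x ^ q := by
  rw [← hF x]
  congr 1
  apply RingOfIntegers.ext
  exact h

include hζ hqp hF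

/-- `q` is `1` modulo `p` if and only if the Frobenius element fixes `ζ` -/
theorem frob_zeta : q ≡ 1 [MOD p] ↔ g ζ = ζ := by
  have hp : p.Prime := Fact.out
  have : NeZero p := ⟨hp.ne_zero⟩
  let ζ' : 𝓞 L := oi (x := ζ) hp.pos (by rw [hζ.pow_eq_one]; exact isIntegral_one)
  have hr := phi_root (φ := φ) hζ hqp ζ' rfl
  obtain ⟨i, hi, hgi⟩ := hζ.eq_pow_of_pow_eq_one (ξ := g ζ) (by
    rw [← map_pow, hζ.pow_eq_one, map_one])
  have h1 : φ ζ' ^ q = φ ζ' ^ i := by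
    rw [← hasFrob_coe hF (x := ζ') (y := ζ' ^ i), map_pow]
    have h2 : ((ζ' ^ i : 𝓞 L) : L) = ζ ^ i := map_pow (algebraMap (𝓞 L) L) ζ' i
    rw [h2, hgi]
    rfl
  have h2 : q ≡ i [MOD p] := by
    exact (prim_mod hp.pos hr _ _).1 h1
  constructor
  · intro h
    have h3 : i ≡ 1 [MOD p] := h2.symm.trans h
    have h4 : i = 1 := by
      have h5 : i % p = 1 % p := h3
      rwa [Nat.mod_eq_of_lt hi, Nat.mod_eq_of_lt hp.one_lt] at h5
    rw [← hgi, h4, pow_one]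
  · intro h
    have h3 : ζ ^ i = ζ ^ 1 := by rw [hgi, h, pow_one]
    have h4 := hζ.pow_inj hi hp.one_lt h3
    rw [h4] at h2
    exact h2

variable (hroot : ∀ u : (𝓞 K)ˣ, ∃ y : L, y ^ p = uL L u)

/-- the reduction of `K` -/
noncomputable def psi (K : Type) [Field K] [NumberField K] [Algebra K L]
    (φ : 𝓞 L →+* AlgebraicClosure (ZMod q)) : 𝓞 K →+* AlgebraicClosure (ZMod q) :=
  φ.comp (algebraMap (𝓞 K) (𝓞 L))

/-- the residue symbol -/
theorem residue_iff (hg : g ∈ HH K ζ) (u : (𝓞 K)ˣ) :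
    (∃ c : 𝓞 K, psi K φ ((u : 𝓞 K) - c ^ p) = 0) ↔ kc hζ hroot ⟨g, hg⟩ u = 0 := by
  have hp : p.Prime := Fact.out
  have : NeZero p := ⟨hp.ne_zero⟩
  have hq1 : q ≡ 1 [MOD p] := (frob_zeta hζ hqp hF).2 hg.2
  let ζ' : 𝓞 L := oi (x := ζ) hp.pos (by rw [hζ.pow_eq_one]; exact isIntegral_one)
  have hr := phi_root (φ := φ) hζ hqp ζ' rfl
  obtain ⟨y, hy⟩ := hroot u
  have hyi : IsIntegral ℤ (y ^ p) := by
    rw [hy]
    exact (algebraMap (𝓞 K) (𝓞 L) (u : 𝓞 K)).2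
  let y' : 𝓞 L := oi (x := y) hp.pos hyi
  have hy' : y' ^ p = algebraMap (𝓞 K) (𝓞 L) (u : 𝓞 K) := by
    apply RingOfIntegers.ext
    have h1 : ((y' ^ p : 𝓞 L) : L) = y ^ p := map_pow (algebraMap (𝓞 L) L) y' p
    rw [h1, hy]
    rfl
  have hψu : psi K φ (u : 𝓞 K) = φ y' ^ p := by
    rw [← map_pow, hy']
    rfl
  have hψ0 : psi K φ (u : 𝓞 K) ≠ 0 := (u.isUnit.map (psi K φ)).ne_zero
  have hy0 : φ y' ≠ 0 := by
    intro h
    rw [h, zero_pow hp.ne_zero] at hψu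
    exact hψ0 hψu
  -- the action of the Frobenius element
  have hgy : φ y' ^ q = φ ζ' ^ (kc hζ hroot ⟨g, hg⟩ u).val * φ y' := by
    rw [← hasFrob_coe hF (x := y') (y := ζ' ^ (kc hζ hroot ⟨g, hg⟩ u).val * y'), map_mul, map_pow]
    have h1 : ((ζ' ^ (kc hζ hroot ⟨g, hg⟩ u).val * y' : 𝓞 L) : L) =
        ζ ^ (kc hζ hroot ⟨g, hg⟩ u).val * y := by
      have h2 := map_mul (algebraMap (𝓞 L) L) (ζ' ^ (kc hζ hroot ⟨g, hg⟩ u).val) y'
      rw [map_pow] at h2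
      exact h2
    rw [h1]
    exact (kc_spec hζ hroot ⟨g, hg⟩ u y hy).symm
  constructor
  · rintro ⟨c, hc⟩
    rw [map_sub, map_pow, sub_eq_zero, hψu] at hc
    have hc0 : psi K φ c ≠ 0 := by
      intro h
      rw [h, zero_pow hp.ne_zero] at hc
      exact hy0 (pow_eq_zero_iff hp.ne_zero |>.1 hc)
    have h1 : (φ y' / psi K φ c) ^ p = 1 := by
      rw [div_pow, hc, div_self (pow_ne_zero _ hc0)]
    obtain ⟨i, hi, h2⟩ := hr.eq_pow_of_pow_eq_one h1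
    have h3 : φ y' = φ ζ' ^ i * psi K φ c := by rw [h2, div_mul_cancel₀ _ hc0]
    have h4 : psi K φ c ^ q = psi K φ c := by
      have h5 := hasFrob_coe hF (x := algebraMap (𝓞 K) (𝓞 L) c) (y := algebraMap (𝓞 K) (𝓞 L) c)
        (hg.1 (c : K)).symm
      exact h5.symm
    have h5 : φ ζ' ^ q = φ ζ' := by
      have h6 : φ ζ' ^ q = φ ζ' ^ 1 := (prim_mod hp.pos hr _ _).2 hq1
      rw [h6, pow_one]
    have h6 : φ y' ^ q = φ y' := by
      rw [h3, mul_pow, h4, ← pow_mul, mul_comm i q, pow_mul, h5]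
    rw [h6] at hgy
    have h7 : φ ζ' ^ (kc hζ hroot ⟨g, hg⟩ u).val = φ ζ' ^ 0 := by
      rw [pow_zero]
      exact (mul_eq_right₀ hy0).1 hgy.symm
    have h8 := hr.pow_inj (ZMod.val_lt _) hp.pos h7
    exact (ZMod.val_eq_zero _).1 h8
  · intro h
    rw [h, ZMod.val_zero, pow_zero, one_mul] at hgy
    obtain ⟨z, hz⟩ := W54.ChTor.frob_fixed q (φ y') hgy
    refine ⟨((z.val : ℕ) : 𝓞 K), ?_⟩
    rw [map_sub, map_pow, map_natCast, hψu, ← hz, sub_eq_zero]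
    congr 1
    rw [← map_natCast (algebraMap (ZMod q) (AlgebraicClosure (ZMod q))), ZMod.natCast_zmod_val]

/-! ### all primes above `q` -/

omit hζ hqp hF in
/-- the kernel of the reduction -/
noncomputable def vk (K : Type) [Field K] [NumberField K] [Algebra K L]
    (φ : 𝓞 L →+* AlgebraicClosure (ZMod q)) : HeightOneSpectrum (𝓞 K) where
  asIdeal := RingHom.ker (psi K φ)
  isPrime := RingHom.ker_isPrime _
  ne_bot := by
    intro h
    have h1 : (q : 𝓞 K) ∈ RingHom.ker (psi K φ) := by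
      rw [RingHom.mem_ker, map_natCast, CharP.cast_eq_zero]
    rw [h, Ideal.mem_bot] at h1
    exact (Fact.out : q.Prime).ne_zero (by exact_mod_cast h1)

omit hζ hqp hF in
theorem q_mem_vk : (q : 𝓞 K) ∈ (vk K φ).asIdeal := by
  change (q : 𝓞 K) ∈ RingHom.ker (psi K φ)
  rw [RingHom.mem_ker, map_natCast, CharP.cast_eq_zero]

omit hζ hqp hF in
theorem prime_psi [IsGalois ℚ K] {v : HeightOneSpectrum (𝓞 K)} (hv : (q : 𝓞 K) ∈ v.asIdeal) :
    ∃ τ : K ≃ₐ[ℚ] K, ∀ x : 𝓞 K, x ∈ v.asIdeal ↔ psi K φ (mr (τ : K →+* K) x) = 0 := by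
  have hq : q.Prime := Fact.out
  have h1 : v.under (𝓞 ℚ) = (vk K φ).under (𝓞 ℚ) :=
    rat_prime_unique hq (mem_under.2 hv) (mem_under.2 q_mem_vk)
  obtain ⟨τ, hτ⟩ := Pool.Agent.Q149.AR.trans_act (F := ℚ) h1
  refine ⟨τ, fun x => ?_⟩
  have h2 : mr (τ : K →+* K) x ∈ (act τ v).asIdeal ↔ x ∈ v.asIdeal := by
    rw [mem_act]
    have h3 : (RingOfIntegers.mapRingEquiv τ.toRingEquiv).symm (mr (τ : K →+* K) x) = x :=
      (RingOfIntegers.mapRingEquiv τ.toRingEquiv).symm_apply_apply x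
    rw [h3]
  rw [← h2, hτ]
  exact Iff.rfl

omit hζ hqp hF in
theorem exists_pow {σ : K ≃ₐ[ℚ] K} (hσ : ∀ g, g ∈ Subgroup.zpowers σ) (τ : K ≃ₐ[ℚ] K) :
    ∃ n : ℕ, σ ^ n = τ := by
  obtain ⟨n, hn⟩ := (isOfFinOrder_of_finite σ).mem_powers_iff_mem_zpowers.2 (hσ τ)
  exact ⟨n, hn⟩

/-- `p`-th powers modulo all the primes above `q` -/
theorem res_all [IsGalois ℚ K] {σ : K ≃ₐ[ℚ] K} (hσ : ∀ g, g ∈ Subgroup.zpowers σ)
    (hg : g ∈ HH K ζ) (u : (𝓞 K)ˣ) :
    (∀ v : HeightOneSpectrum (𝓞 K), (q : 𝓞 K) ∈ v.asIdeal → ∃ c : 𝓞 K, (u : 𝓞 K) - c ^ p ∈ v.asIdeal) ↔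
      ∀ n : ℕ, kc hζ hroot ⟨g, hg⟩ (uA (σ ^ n) u) = 0 := by
  have huA : ∀ n : ℕ, ((uA (σ ^ n) u : (𝓞 K)ˣ) : 𝓞 K) = mr ((σ ^ n : K ≃ₐ[ℚ] K) : K →+* K) u :=
    fun n => rfl
  constructor
  · intro h n
    rw [← residue_iff hζ hqp hF hroot hg, huA]
    -- the prime
    have h1 : (q : 𝓞 K) ∈ (act (σ ^ n)⁻¹ (vk K φ)).asIdeal := by
      rw [mem_act, map_natCast]
      exact q_mem_vk
    obtain ⟨c, hc⟩ := h _ h1
    refine ⟨mr ((σ ^ n : K ≃ₐ[ℚ] K) : K →+* K) c, ?_⟩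
    rw [mem_act] at hc
    have h2 : (RingOfIntegers.mapRingEquiv ((σ ^ n)⁻¹ : K ≃ₐ[ℚ] K).toRingEquiv).symm
        ((u : 𝓞 K) - c ^ p) = mr ((σ ^ n : K ≃ₐ[ℚ] K) : K →+* K) ((u : 𝓞 K) - c ^ p) := rfl
    rw [h2, map_sub, map_pow] at hc
    exact hc
  · intro h v hv
    obtain ⟨τ, hτ⟩ := prime_psi (φ := φ) hv
    obtain ⟨n, rfl⟩ := exists_pow hσ τ
    obtain ⟨c, hc⟩ := (residue_iff hζ hqp hF hroot hg _).2 (h n)
    rw [huA] at hc
    refine ⟨mr (((σ ^ n)⁻¹ : K ≃ₐ[ℚ] K) : K →+* K) c, ?_⟩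
    rw [hτ, map_sub, map_pow]
    have h2 : mr ((σ ^ n : K ≃ₐ[ℚ] K) : K →+* K) (mr (((σ ^ n)⁻¹ : K ≃ₐ[ℚ] K) : K →+* K) c) = c := by
      apply RingOfIntegers.ext
      exact (σ ^ n).apply_symm_apply (c : K)
    rw [h2]
    exact hc

omit hζ hqp in
/-- the number of the primes above `q` -/
theorem card_primes [IsGalois ℚ K] (hg : g ∈ HH K ζ)
    (hun : ∀ v : HeightOneSpectrum (𝓞 K), (q : 𝓞 K) ∈ v.asIdeal → el q v = 1) :
    Nat.card {v : HeightOneSpectrum (𝓞 K) // (q : 𝓞 K) ∈ v.asIdeal} = Module.finrank ℚ K := by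
  classical
  have hq : q.Prime := Fact.out
  have hld : ∀ v : HeightOneSpectrum (𝓞 K), (q : 𝓞 K) ∈ v.asIdeal → ld ℚ v = 1 := by
    intro v hv
    have h1 := el_tower (F := ℚ) hq.ne_zero v
    rw [hun v hv] at h1
    have h2 : ri ℚ v = 1 := by
      have h3 : ((ri ℚ v : ℕ) : ℤ) ∣ 1 := ⟨_, h1⟩
      have h4 : ri ℚ v ∣ 1 := by exact_mod_cast h3
      exact Nat.dvd_one.1 h4
    have h3 := Pool.Agent.Q5.BR.absNorm_rdeg (K := ℚ) v
    rw [absNorm_rat hq (mem_under.2 hv)] at h3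
    -- the residue field
    obtain ⟨τ, hτ⟩ := prime_psi (φ := φ) hv
    have h4 : Ideal.absNorm v.asIdeal ≤ q := by
      let f : 𝓞 K →+* AlgebraicClosure (ZMod q) := (psi K φ).comp (mr (τ : K →+* K))
      have hker : RingHom.ker f = v.asIdeal := by
        ext x
        exact (hτ x).symm
      have hfix : ∀ x, ∃ z : ZMod q, algebraMap (ZMod q) (AlgebraicClosure (ZMod q)) z = f x := by
        intro x
        apply W54.ChTor.frob_fixed
        have h5 := hasFrob_coe hF (x := algebraMap (𝓞 K) (𝓞 L) (mr (τ : K →+* K) x))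
          (y := algebraMap (𝓞 K) (𝓞 L) (mr (τ : K →+* K) x)) (hg.1 _).symm
        exact h5.symm
      choose z hz using hfix
      have hinj : ∀ x y, z x = z y → x - y ∈ v.asIdeal := by
        intro x y hxy
        rw [← hker, RingHom.mem_ker, map_sub, ← hz, ← hz, hxy, sub_self]
      rw [Ideal.absNorm_apply, Submodule.cardQuot_apply]
      have : Finite (𝓞 K ⧸ v.asIdeal) := Ideal.finiteQuotientOfFreeOfNeBot _ v.ne_bot
      have h6 : Function.Injective fun x : 𝓞 K ⧸ v.asIdeal => z (Quotient.out x) := by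
        intro x y hxy
        have h7 := hinj _ _ hxy
        rw [← Ideal.Quotient.eq] at h7
        have h8 : ∀ x : 𝓞 K ⧸ v.asIdeal, Ideal.Quotient.mk v.asIdeal (Quotient.out x) = x :=
          fun x => Quotient.out_eq' x
        rw [h8, h8] at h7
        exact h7
      have h7 := Nat.card_le_card_of_injective _ h6
      rwa [Nat.card_zmod] at h7
    have h5 : Pool.Agent.Q5.BR.rdeg ℚ v ≤ 1 := by
      rw [h3] at h4
      by_contra h6
      push Not at h6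
      have h7 : q ^ 1 < q ^ (Pool.Agent.Q5.BR.rdeg ℚ v) := Nat.pow_lt_pow_right hq.one_lt h6
      rw [pow_one] at h7
      omega
    have h6 := rdeg_pos' (F := ℚ) v
    unfold ld
    rw [h2, mul_one]
    omega
  obtain ⟨v0, hv0⟩ : ∃ v0, v0 = (vk K φ).under (𝓞 ℚ) := ⟨_, rfl⟩
  have hv0q : (q : 𝓞 ℚ) ∈ v0.asIdeal := by
    rw [hv0]
    exact mem_under.2 q_mem_vk
  have hs := sum_ld (E := K) v0
  have hiff : ∀ w : HeightOneSpectrum (𝓞 K), w ∈ Pool.Agent.Q5.BR.above K v0 ↔ (q : 𝓞 K) ∈ w.asIdeal := by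
    intro w
    rw [Pool.Agent.Q5.BR.mem_above]
    constructor
    · intro h
      rw [← h] at hv0q
      exact mem_under.1 hv0q
    · intro h
      exact rat_prime_unique hq (mem_under.2 h) hv0q
  rw [Finset.sum_congr rfl (g := fun _ => 1) fun w hw => hld w ((hiff w).1 hw), Finset.sum_const,
    smul_eq_mul, mul_one] at hs
  rw [← hs, ← Nat.card_eq_finsetCard]
  exact Nat.card_congr (Equiv.subtypeEquivRight fun w => (hiff w).symm)

end Pool.Agent.H515.KV
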