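import Pool.Agent.H515.KV.Unit

/-! # Kummer characters of the units -/

set_option autoImplicit false
set_option linter.unusedSectionVars false

namespace Pool.Agent.H515.KV

open NumberField Module

/-- the fibres of a surjective homomorphism -/
theorem card_preimage {G H : Type} [Group G] [Group H] (f : G →* H)
    (hf : Function.Surjective f) (S : Set H) :
    Nat.card {g : G // f g ∈ S} * Nat.card H = Nat.card G * Nat.card S := by
  classical
  choose t ht using hf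
  have key : ∀ T : Set H, Nat.card {g : G // f g ∈ T} = Nat.card T * Nat.card f.ker := by
    intro T
    rw [← Nat.card_prod]
    refine Nat.card_congr
      { toFun := fun g => (⟨f g.1, g.2⟩, ⟨g.1 * (t (f g.1))⁻¹, by
          rw [MonoidHom.mem_ker, map_mul, map_inv, ht, mul_inv_cancel]⟩)
        invFun := fun x => ⟨x.2.1 * t x.1.1, by
          rw [map_mul, ht, (MonoidHom.mem_ker).1 x.2.2, one_mul]
          exact x.1.2⟩
        left_inv := fun g => Subtype.ext (inv_mul_cancel_right _ _)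
        right_inv := ?_ }
    rintro ⟨⟨s, hs⟩, ⟨k, hk⟩⟩
    have h1 : f (k * t s) = s := by rw [map_mul, ht, (MonoidHom.mem_ker).1 hk, one_mul]
    refine Prod.ext (Subtype.ext h1) (Subtype.ext ?_)
    change k * t s * (t (f (k * t s)))⁻¹ = k
    rw [h1, mul_inv_cancel_right]
  have h1 := key Set.univ
  have h2 : Nat.card {g : G // f g ∈ (Set.univ : Set H)} = Nat.card G :=
    Nat.card_congr (Equiv.subtypeUnivEquiv fun _ => trivial)
  rw [h2, Nat.card_congr (Equiv.Set.univ H)] at h1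
  rw [key, h1]
  ring

section
variable {L : Type} [Field L] {p : ℕ} [Fact p.Prime] {ζ : L} (hζ : IsPrimitiveRoot ζ p)
include hζ

/-- powers of `ζ` with exponents modulo `p` -/
def zp (ζ : L) (c : ZMod p) : L := ζ ^ c.val

theorem zp_add (c d : ZMod p) : zp ζ (c + d) = zp ζ c * zp ζ d := by
  unfold zp
  rw [← pow_add, ZMod.val_add]
  conv_rhs => rw [← Nat.div_add_mod (c.val + d.val) p, pow_add, pow_mul, hζ.pow_eq_one, one_pow, one_mul]

theorem zp_inj {c d : ZMod p} (h : zp ζ c = zp ζ d) : c = d := by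
  have hp : p.Prime := Fact.out
  have := hζ.pow_inj (ZMod.val_lt c) (ZMod.val_lt d) h
  exact ZMod.val_injective p this

omit hζ in
theorem zp_zero : zp ζ (0 : ZMod p) = 1 := by
  unfold zp
  rw [ZMod.val_zero, pow_zero]

theorem zp_ne (c : ZMod p) : zp ζ c ≠ 0 := by
  have hp : p.Prime := Fact.out
  exact pow_ne_zero _ (hζ.ne_zero hp.ne_zero)

theorem exists_zp {x y : L} (hy : y ≠ 0) (h : x ^ p = y ^ p) : ∃ c : ZMod p, x = zp ζ c * y := by
  have hp : p.Prime := Fact.out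
  have : NeZero p := ⟨hp.ne_zero⟩
  have h1 : (x / y) ^ p = 1 := by
    rw [div_pow, h, div_self (pow_ne_zero _ hy)]
  obtain ⟨i, hi, h2⟩ := hζ.eq_pow_of_pow_eq_one h1
  refine ⟨(i : ZMod p), ?_⟩
  unfold zp
  rw [ZMod.val_natCast, Nat.mod_eq_of_lt hi, h2, div_mul_cancel₀ _ hy]

end

section
variable {K L : Type} [Field K] [NumberField K] [Field L] [NumberField L] [Algebra K L]
  {p : ℕ} [Fact p.Prime] {ζ : L} (hζ : IsPrimitiveRoot ζ p)

/-- the automorphisms which are trivial on `K` and `ζ` -/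
def HH (K : Type) {L : Type} [Field K] [NumberField K] [Field L] [NumberField L] [Algebra K L]
    (ζ : L) : Subgroup (L ≃ₐ[ℚ] L) where
  carrier := {g | (∀ x : K, g (algebraMap K L x) = algebraMap K L x) ∧ g ζ = ζ}
  mul_mem' {a b} ha hb := ⟨fun x => by rw [AlgEquiv.mul_apply, hb.1, ha.1],
    by rw [AlgEquiv.mul_apply, hb.2, ha.2]⟩
  one_mem' := ⟨fun _ => rfl, rfl⟩
  inv_mem' {a} ha := ⟨fun x => by
    change a.symm _ = _
    rw [AlgEquiv.symm_apply_eq, ha.1], by
    change a.symm _ = _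
    rw [AlgEquiv.symm_apply_eq, ha.2]⟩

/-- the unit `u` in `L` -/
def uL (L : Type) [Field L] [NumberField L] [Algebra K L] (u : (𝓞 K)ˣ) : L :=
  algebraMap K L ((u : 𝓞 K) : K)

theorem uL_mul (u v : (𝓞 K)ˣ) : uL L (u * v) = uL L u * uL L v := by
  unfold uL
  rw [← map_mul]
  rfl

theorem uL_ne (u : (𝓞 K)ˣ) : uL L u ≠ 0 := by
  unfold uL
  rw [Ne, map_eq_zero]
  intro h
  exact u.ne_zero (RingOfIntegers.ext h)

variable (hroot : ∀ u : (𝓞 K)ˣ, ∃ y : L, y ^ p = uL L u)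

theorem y_ne {u : (𝓞 K)ˣ} {y : L} (hy : y ^ p = uL L u) : y ≠ 0 := by
  rintro rfl
  rw [zero_pow (Fact.out : p.Prime).ne_zero] at hy
  exact uL_ne u hy.symm

include hζ hroot

theorem exists_kc {g : L ≃ₐ[ℚ] L} (hg : g ∈ HH K ζ) (u : (𝓞 K)ˣ) :
    ∃ c : ZMod p, ∀ y : L, y ^ p = uL L u → g y = zp ζ c * y := by
  obtain ⟨y0, hy0⟩ := hroot u
  have hy00 := y_ne hy0
  have h1 : (g y0) ^ p = y0 ^ p := by
    rw [← map_pow, hy0]
    exact hg.1 _
  obtain ⟨c, hc⟩ := exists_zp hζ hy00 h1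
  refine ⟨c, fun y hy => ?_⟩
  obtain ⟨d, hd⟩ := exists_zp hζ hy00 (show y ^ p = y0 ^ p by rw [hy, hy0])
  have hgz : g (zp ζ d) = zp ζ d := by
    unfold zp
    rw [map_pow, hg.2]
  rw [hd, map_mul, hgz, hc]
  ring

open scoped Classical in
/-- the Kummer character -/
noncomputable def kc (g : HH K ζ) (u : (𝓞 K)ˣ) : ZMod p := (exists_kc hζ hroot g.2 u).choose

theorem kc_spec (g : HH K ζ) (u : (𝓞 K)ˣ) (y : L) (hy : y ^ p = uL L u) :
    (g : L ≃ₐ[ℚ] L) y = zp ζ (kc hζ hroot g u) * y :=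
  (exists_kc hζ hroot g.2 u).choose_spec y hy

theorem kc_unique {g : HH K ζ} {u : (𝓞 K)ˣ} {y : L} (hy : y ^ p = uL L u) {c : ZMod p}
    (h : (g : L ≃ₐ[ℚ] L) y = zp ζ c * y) : kc hζ hroot g u = c := by
  have h1 := kc_spec hζ hroot g u y hy
  rw [h] at h1
  exact (zp_inj hζ (mul_right_cancel₀ (y_ne hy) h1)).symm

theorem kc_mul (g : HH K ζ) (u v : (𝓞 K)ˣ) :
    kc hζ hroot g (u * v) = kc hζ hroot g u + kc hζ hroot g v := by
  obtain ⟨y, hy⟩ := hroot u
  obtain ⟨z, hz⟩ := hroot v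
  refine kc_unique hζ hroot (y := y * z) (by rw [mul_pow, hy, hz, uL_mul]) ?_
  rw [map_mul, kc_spec hζ hroot g u y hy, kc_spec hζ hroot g v z hz, zp_add hζ]
  ring

theorem kc_gmul (g h : HH K ζ) (u : (𝓞 K)ˣ) :
    kc hζ hroot (g * h) u = kc hζ hroot g u + kc hζ hroot h u := by
  obtain ⟨y, hy⟩ := hroot u
  refine kc_unique hζ hroot hy ?_
  have h1 : ((g * h : HH K ζ) : L ≃ₐ[ℚ] L) y = (g : L ≃ₐ[ℚ] L) ((h : L ≃ₐ[ℚ] L) y) := rfl
  have hgz : (g : L ≃ₐ[ℚ] L) (zp ζ (kc hζ hroot h u)) = zp ζ (kc hζ hroot h u) := by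
    unfold zp
    rw [map_pow, g.2.2]
  rw [h1, kc_spec hζ hroot h u y hy, map_mul, hgz, kc_spec hζ hroot g u y hy, zp_add hζ]
  ring

theorem kc_pow (g : HH K ζ) (w : (𝓞 K)ˣ) : kc hζ hroot g (w ^ p) = 0 := by
  refine kc_unique hζ hroot (y := uL L w) ?_ ?_
  · unfold uL
    rw [← map_pow]
    rfl
  · rw [zp_zero, one_mul]
    exact g.2.1 _

/-- the Kummer character as a homomorphism -/
noncomputable def kcH (g : HH K ζ) : Additive (𝓞 K)ˣ →+ ZMod p :=
  AddMonoidHom.mk' (fun u => kc hζ hroot g u.toMul) fun u v => kc_mul hζ hroot g _ _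

variable {V : Type} [AddCommGroup V] [Module (ZMod p) V] (π : Additive (𝓞 K)ˣ →+ V)
  (hπ : Function.Surjective π) (hker : ∀ x, π x = 0 ↔ ∃ y, p • y = x)

include hπ hker

omit hπ in
theorem ker_le (g : HH K ζ) : π.ker ≤ (kcH hζ hroot g).ker := by
  intro x hx
  obtain ⟨y, rfl⟩ := (hker x).1 hx
  exact kc_pow hζ hroot g y.toMul

/-- the linear form belonging to `g` -/
noncomputable def fo (g : HH K ζ) : V →ₗ[ZMod p] ZMod p :=
  AddMonoidHom.toZModLinearMap p (AddMonoidHom.liftOfSurjective π hπ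
    ⟨kcH hζ hroot g, ker_le hζ hroot π hker g⟩)

theorem fo_π (g : HH K ζ) (u : (𝓞 K)ˣ) :
    fo hζ hroot π hπ hker g (π (Additive.ofMul u)) = kc hζ hroot g u :=
  AddMonoidHom.liftOfRightInverse_comp_apply π _ (Function.rightInverse_surjInv hπ)
    ⟨kcH hζ hroot g, ker_le hζ hroot π hker g⟩ (Additive.ofMul u)

theorem fo_mul (g h : HH K ζ) : fo hζ hroot π hπ hker (g * h) =
    fo hζ hroot π hπ hker g + fo hζ hroot π hπ hker h := by
  apply LinearMap.ext
  intro v
  obtain ⟨u, rfl⟩ := hπ v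
  obtain ⟨u, rfl⟩ : ∃ u', Additive.ofMul u' = u := ⟨u.toMul, rfl⟩
  rw [LinearMap.add_apply, fo_π, fo_π, fo_π, kc_gmul]

/-- the homomorphism to the dual space -/
noncomputable def foH : HH K ζ →* Multiplicative (V →ₗ[ZMod p] ZMod p) :=
  MonoidHom.mk' (fun g => Multiplicative.ofAdd (fo hζ hroot π hπ hker g)) fun g h => by
    rw [fo_mul]
    rfl

omit hπ hker in
/-- a unit whose root is fixed is a `p`-th power -/
theorem pow_of_fixed [IsGalois ℚ L] (u : (𝓞 K)ˣ) (hu : ∀ g : HH K ζ, kc hζ hroot g u = 0) :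
    ∃ w : (𝓞 K)ˣ, w ^ p = u := by
  classical
  have hp : p.Prime := Fact.out
  have hKL : IsGalois K L := IsGalois.tower_top_of_isGalois ℚ K L
  obtain ⟨y, hy⟩ := hroot u
  let M : IntermediateField K L := IntermediateField.adjoin K {ζ}
  have hyM : y ∈ M := by
    rw [← IsGalois.fixedField_fixingSubgroup M]
    rintro ⟨g, hg⟩
    have hg' : g.restrictScalars ℚ ∈ HH K ζ := by
      refine ⟨fun x => g.commutes x, ?_⟩
      exact hg ⟨ζ, IntermediateField.mem_adjoin_simple_self K ζ⟩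
    have h1 := kc_spec hζ hroot ⟨_, hg'⟩ u y hy
    rw [hu, zp_zero, one_mul] at h1
    exact h1
  have hζint : IsIntegral K ζ := Algebra.IsIntegral.isIntegral ζ
  -- the degree is prime to `p`
  have hd : (Module.finrank K M) < p := by
    have h1 : Module.finrank K M = (minpoly K ζ).natDegree := IntermediateField.adjoin.finrank hζint
    have h2 : minpoly K ζ ∣ Polynomial.cyclotomic p K := by
      apply minpoly.dvd
      rw [Polynomial.aeval_def, Polynomial.eval₂_eq_eval_map, Polynomial.map_cyclotomic]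
      exact hζ.isRoot_cyclotomic hp.pos
    have h3 := Polynomial.natDegree_le_of_dvd h2 (Polynomial.cyclotomic_ne_zero p K)
    rw [Polynomial.natDegree_cyclotomic, Nat.totient_prime hp] at h3
    have h4 := hp.pos
    omega
  have hd0 : 0 < Module.finrank K M := Module.finrank_pos
  have hcop : IsCoprime ((Module.finrank K M : ℕ) : ℤ) (p : ℤ) := by
    rw [Nat.isCoprime_iff_coprime, Nat.coprime_comm]
    exact (Nat.Prime.coprime_iff_not_dvd hp).2 (Nat.not_dvd_of_pos_of_lt hd0 hd)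
  obtain ⟨a, b, hab⟩ := hcop
  let uK : Kˣ := Units.map (algebraMap (𝓞 K) K : 𝓞 K →* K) u
  have huK : (uK : K) = ((u : 𝓞 K) : K) := rfl
  have hyp : (⟨y, hyM⟩ : M) ^ p = algebraMap K M (uK : K) := by
    apply Subtype.ext
    exact hy
  have hy0 : (⟨y, hyM⟩ : M) ≠ 0 := fun h => y_ne hy (congrArg Subtype.val h)
  have hN : (Algebra.norm K (⟨y, hyM⟩ : M)) ^ p = (uK : K) ^ (Module.finrank K M) := by
    rw [← map_pow, hyp, Algebra.norm_algebraMap]
  have hN0 : Algebra.norm K (⟨y, hyM⟩ : M) ≠ 0 := Algebra.norm_ne_zero_iff.2 hy0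
  let n : Kˣ := Units.mk0 _ hN0
  have hn : n ^ p = uK ^ (Module.finrank K M) := Units.ext hN
  let z : Kˣ := n ^ a * uK ^ b
  have hz : z ^ p = uK := by
    change (n ^ a * uK ^ b) ^ p = uK
    rw [mul_pow, ← zpow_natCast (n ^ a), ← zpow_mul, mul_comm a, zpow_mul, zpow_natCast, hn,
      ← zpow_natCast (uK ^ b), ← zpow_mul, ← zpow_natCast uK, ← zpow_mul, ← zpow_add,
      mul_comm _ a, hab, zpow_one]
  have hint : ∀ x : K, (∃ v : 𝓞 K, x ^ p = v) → IsIntegral ℤ x := by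
    rintro x ⟨v, hv⟩
    apply IsIntegral.of_pow hp.pos
    rw [hv]
    exact v.2
  have h1 : IsIntegral ℤ (z : K) := hint _ ⟨u, by
    rw [← Units.val_pow_eq_pow_val, hz]
    rfl⟩
  have h2 : IsIntegral ℤ ((z⁻¹ : Kˣ) : K) := hint _ ⟨(u⁻¹ : (𝓞 K)ˣ), by
    rw [← Units.val_pow_eq_pow_val, inv_pow, hz]
    rfl⟩
  refine ⟨⟨⟨(z : K), h1⟩, ⟨((z⁻¹ : Kˣ) : K), h2⟩, ?_, ?_⟩, ?_⟩
  · apply RingOfIntegers.ext
    exact Units.mul_inv z
  · apply RingOfIntegers.ext
    exact Units.inv_mul z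
  · apply Units.ext
    apply RingOfIntegers.ext
    have h3 := congrArg (fun t : Kˣ => (t : K)) hz
    exact h3

/-- **Kummer theory**: all linear forms occur -/
theorem foH_surjective [IsGalois ℚ L] [FiniteDimensional (ZMod p) V] :
    Function.Surjective (foH hζ hroot π hπ hker) := by
  classical
  let R : Submodule (ZMod p) (Module.Dual (ZMod p) V) :=
    AddSubgroup.toZModSubmodule p (Subgroup.toAddSubgroup' (foH hζ hroot π hπ hker).range)
  have hR : ∀ φ : Module.Dual (ZMod p) V, φ ∈ R ↔ ∃ g, fo hζ hroot π hπ hker g = φ := fun φ => Iff.rfl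
  have h0 : R.dualCoannihilator = ⊥ := by
    rw [eq_bot_iff]
    intro v hv
    rw [Submodule.mem_dualCoannihilator] at hv
    obtain ⟨u, rfl⟩ := hπ v
    obtain ⟨u, rfl⟩ : ∃ u', Additive.ofMul u' = u := ⟨u.toMul, rfl⟩
    have h1 : ∀ g : HH K ζ, kc hζ hroot g u = 0 := by
      intro g
      rw [← fo_π hζ hroot π hπ hker]
      exact hv _ ((hR _).2 ⟨g, rfl⟩)
    obtain ⟨w, hw⟩ := pow_of_fixed hζ hroot u h1
    rw [Submodule.mem_bot, hker]
    exact ⟨Additive.ofMul w, congrArg Additive.ofMul hw⟩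
  have h1 := Subspace.finrank_add_finrank_dualCoannihilator_eq R
  rw [h0, finrank_bot, add_zero] at h1
  have h2 : R = ⊤ := by
    apply Submodule.eq_top_of_finrank_eq
    rw [h1, Subspace.dual_finrank_eq]
  intro φ
  obtain ⟨g, hg⟩ := (hR φ.toAdd).1 (by rw [h2]; trivial)
  exact ⟨g, congrArg Multiplicative.ofAdd hg⟩

/-- the number of the automorphisms with given properties of the linear form -/
theorem card_forms [IsGalois ℚ L] [FiniteDimensional (ZMod p) V]
    (S : Set (V →ₗ[ZMod p] ZMod p)) :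
    Nat.card {g : HH K ζ // fo hζ hroot π hπ hker g ∈ S} * Nat.card (V →ₗ[ZMod p] ZMod p) =
      Nat.card (HH K ζ) * Nat.card S :=
  card_preimage (foH hζ hroot π hπ hker) (foH_surjective hζ hroot π hπ hker)
    (Multiplicative.toAdd ⁻¹' S)

end
end Pool.Agent.H515.KV
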