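import Pool.Agent.H515.KV.Frb
import Pool.Agent.H515.PD

/-! # The ambiguous classes of `K k_l` in terms of the Frobenius element -/

set_option autoImplicit false
set_option linter.unusedSectionVars false
set_option linter.deprecated false

namespace Pool.Agent.H515.KV

open NumberField IsDedekindDomain Pool.Agent.W401.Cheb Pool.Agent.H515.CH Filter Topology
open Pool.Agent.Q92.AR

/-- `M` is the compositum of `K` and the subfield of degree `p` of the field of the `l`-th roots of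
unity -/
def Layer (K : IntermediateField ℚ ℂ) (p l : ℕ) (M : IntermediateField ℚ ℂ) : Prop :=
  ∃ k : IntermediateField ℚ ℂ, k ≤ IntermediateField.adjoin ℚ {z : ℂ | z ^ l = 1} ∧
    Module.finrank ℚ k = p ∧ M = K ⊔ k

/-- the ideal classes of `M` which are fixed by all automorphisms of `M` over `K` -/
def Fixed (K M : IntermediateField ℚ ℂ) [NumberField M] : Set (ClassGroup (𝓞 M)) :=
  {c | ∀ g : M →+* M, (∀ x : M, (x : ℂ) ∈ K → g x = x) →
    ∀ I J : nonZeroDivisors (Ideal (𝓞 M)), (J : Ideal (𝓞 M)) = Ideal.map (RingOfIntegers.mapRingHom g) I →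
      ClassGroup.mk0 I = c → ClassGroup.mk0 J = c}

theorem card_Fixed {K M : IntermediateField ℚ ℂ} [NumberField K] [NumberField M] (h : K ≤ M) :
    letI := inc h
    Nat.card (Fixed K M) = Nat.card {c : ClassGroup (𝓞 M) // ∀ g : M ≃ₐ[K] M, FixBy (g : M →+* M) c} := by
  let i1 := inc h
  apply Nat.card_congr
  apply Equiv.subtypeEquivRight
  intro c
  constructor
  · intro hc g
    refine hc (g : M →+* M) fun x hx => ?_
    exact g.commutes ⟨x, hx⟩
  · intro hc g hg
    have h1 : ∀ x : K, g (algebraMap K M x) = algebraMap K M x := fun x => hg _ x.2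
    let g0 : M →ₐ[K] M := { g with commutes' := h1 }
    have : FiniteDimensional K M := inferInstance
    let e : M ≃ₐ[K] M := AlgEquiv.ofBijective g0 (Algebra.IsAlgebraic.algHom_bijective g0)
    exact hc e

theorem layer_fin {K M : IntermediateField ℚ ℂ} [NumberField K] {p l : ℕ} (hl : l ≠ 0)
    (h : Layer K p l M) : NumberField M := by
  obtain ⟨k, hk, -, rfl⟩ := h
  have hK : FiniteDimensional ℚ K := inferInstance
  exact nf (sup_fin hK (sub_fin hl hk))

theorem layer_dvd {K M : IntermediateField ℚ ℂ} {p l : ℕ} (hl : l.Prime)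
    (h : Layer K p l M) : l ≡ 1 [MOD p] := by
  obtain ⟨k, hk, hd, -⟩ := h
  have hcf : FiniteDimensional ℚ (cyc l) := cyc_fin hl.ne_zero
  have hce : IsCyclotomicExtension {l} ℚ (cyc l) := cyc_ext hl.ne_zero
  have hcn : NumberField (cyc l) := nf hcf
  have hkf : NumberField k := nf (sub_fin hl.ne_zero hk)
  have : Fact l.Prime := ⟨hl⟩
  let i1 := inc hk
  have h3 : Module.finrank ℚ k * Module.finrank k (cyc l) = Module.finrank ℚ (cyc l) :=
    Module.finrank_mul_finrank ℚ k (cyc l)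
  rw [hd, IsCyclotomicExtension.Rat.finrank l (cyc l), Nat.totient_prime hl] at h3
  have h4 : p ∣ l - 1 := ⟨_, h3.symm⟩
  exact ((Nat.modEq_iff_dvd' hl.one_lt.le).2 h4).symm

section
variable {K M : IntermediateField ℚ ℂ} [NumberField K] [NumberField M]
  {p q : ℕ} [Fact p.Prime] [Fact q.Prime]

/-- the field `M` -/
theorem layer_val [IsTotallyReal K] [IsGalois ℚ K] (hp2 : p ≠ 2)
    (hm : Module.finrank ℚ K ∣ p - 1) (hM : Layer K p q M) (hqp : q ≠ p)
    (hun : ∀ v : HeightOneSpectrum (𝓞 K), (q : 𝓞 K) ∈ v.asIdeal → el q v = 1)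
    (hcard : Nat.card {v : HeightOneSpectrum (𝓞 K) // (q : 𝓞 K) ∈ v.asIdeal} = Module.finrank ℚ K)
    (π : Additive (𝓞 K)ˣ →+ (Fin (Units.rank K) → ZMod p)) (hπ : Function.Surjective π)
    (W : AddSubgroup (Fin (Units.rank K) → ZMod p))
    (hW : ∀ u : (𝓞 K)ˣ, π (Additive.ofMul u) ∈ W ↔ ∀ v : HeightOneSpectrum (𝓞 K),
      (q : 𝓞 K) ∈ v.asIdeal → ∃ c : 𝓞 K, (u : 𝓞 K) - c ^ p ∈ v.asIdeal)
    {j : ℕ} (hj : Nat.card W = p ^ j) :
    padicValNat p (Nat.card (Fixed K M)) = padicValNat p (classNumber K) + j := by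
  have hpp : p.Prime := Fact.out
  have hq : q.Prime := Fact.out
  obtain ⟨k, hk, hd, hMk⟩ := hM
  have hKM : K ≤ M := by rw [hMk]; exact le_sup_left
  have hkM : k ≤ M := by rw [hMk]; exact le_sup_right
  have hodd : Odd (Module.finrank ℚ k) := by rw [hd]; exact hpp.odd_of_ne_two hp2
  have hreal := real_of_odd hq.ne_zero hk hodd
  have hK0 : 0 < Module.finrank ℚ K := Module.finrank_pos
  have hc : (Module.finrank ℚ K).Coprime p := by
    rw [Nat.coprime_comm]
    refine (Nat.Prime.coprime_iff_not_dvd hpp).2 (Nat.not_dvd_of_pos_of_lt hK0 ?_)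
    have h1 := Nat.le_of_dvd (by have := hpp.one_lt; omega) hm
    have := hpp.pos
    omega
  let i1 := inc hKM
  obtain ⟨g1, g2, g3, g4⟩ := fld_facts hq hpp hKM hkM hMk.le hk hd hc hun
  have hR := realRam_layer hq.ne_zero hKM hkM hMk.le hk hreal
  have hcy : IsCyclic (M ≃ₐ[K] M) := by
    apply isCyclic_of_prime_card (p := p)
    rw [IsGalois.card_aut_eq_finrank, g2]
  obtain ⟨σ, hσ⟩ := hcy.exists_generator
  have h1 := local_law hσ hp2 g2 hq hqp g3 g4 hun (fun φ => by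
    by_contra hcon
    exact hR.false ⟨φ, hcon⟩) π hπ W hW hj
  rw [card_Fixed hKM]
  rw [hcard, rank_eq] at h1
  omega

end

section
variable {K L : Type} [Field K] [NumberField K] [IsTotallyReal K] [IsGalois ℚ K]
  [Field L] [NumberField L] [Algebra K L]
  {p q : ℕ} [Fact p.Prime] [Fact q.Prime] {ζ : L} (hζ : IsPrimitiveRoot ζ p) (hqp : q ≠ p)
  {φ : 𝓞 L →+* AlgebraicClosure (ZMod q)} {g : L ≃ₐ[ℚ] L} (hF : HasFrob q φ g)
  (hroot : ∀ u : (𝓞 K)ˣ, ∃ y : L, y ^ p = uL L u)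
  {V : Type} [AddCommGroup V] [Module (ZMod p) V] (π : Additive (𝓞 K)ˣ →+ V)
  (hπ : Function.Surjective π) (hker : ∀ x, π x = 0 ↔ ∃ y, p • y = x)
  {σ : K ≃ₐ[ℚ] K} (hσ : ∀ g : K ≃ₐ[ℚ] K, g ∈ Subgroup.zpowers σ)
  {f : V →ₗ[ZMod p] V} (hf : ∀ u : (𝓞 K)ˣ, π (Additive.ofMul (uA σ u)) = f (π (Additive.ofMul u)))

include hf in
theorem pi_pow (n : ℕ) (u : (𝓞 K)ˣ) :
    π (Additive.ofMul (uA (σ ^ n) u)) = (f ^ n) (π (Additive.ofMul u)) := by
  induction n with
  | zero => rw [pow_zero, uA_one, pow_zero, Module.End.one_apply]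
  | succ n ih => rw [pow_succ', uA_mul, hf, ih, pow_succ', Module.End.mul_apply]

include hqp hF hσ hf in
/-- the subspace of the units which are `p`-th powers modulo all primes above `q` -/
theorem mem_W (hg : g ∈ HH K ζ) (u : (𝓞 K)ˣ) :
    π (Additive.ofMul u) ∈ (KK f (fo hζ hroot π hπ hker ⟨g, hg⟩)).toAddSubgroup ↔
      ∀ v : HeightOneSpectrum (𝓞 K), (q : 𝓞 K) ∈ v.asIdeal → ∃ c : 𝓞 K, (u : 𝓞 K) - c ^ p ∈ v.asIdeal := by
  rw [res_all hζ hqp hF hroot hσ hg, Submodule.mem_toAddSubgroup, mem_KK]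
  refine forall_congr' fun n => ?_
  rw [← pi_pow π hf, fo_π]

end

end Pool.Agent.H515.KV
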