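import Mathlib

/-! # Linear forms and an endomorphism with different eigenvalues in the field -/

set_option autoImplicit false
set_option linter.unusedSectionVars false

namespace Pool.Agent.H515.KV

open Polynomial Module

section
variable {k V : Type} [Field k] [AddCommGroup V] [Module k V]

/-- the vectors killed by `φ` together with all their images under the powers of `f` -/
def KK (f : V →ₗ[k] V) (φ : V →ₗ[k] k) : Submodule k V where
  carrier := {v | ∀ i : ℕ, φ ((f ^ i) v) = 0}
  add_mem' {a b} ha hb i := by rw [map_add, map_add, ha i, hb i, add_zero]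
  zero_mem' i := by rw [map_zero, map_zero]
  smul_mem' c a ha i := by rw [map_smul, map_smul, ha i, smul_zero]

theorem mem_KK {f : V →ₗ[k] V} {φ : V →ₗ[k] k} {v : V} :
    v ∈ KK f φ ↔ ∀ i : ℕ, φ ((f ^ i) v) = 0 := Iff.rfl

theorem aeval_KK {f : V →ₗ[k] V} {φ : V →ₗ[k] k} {v : V} (h : v ∈ KK f φ) (P : k[X]) :
    φ (aeval f P v) = 0 := by
  induction P using Polynomial.induction_on' with
  | add P Q hP hQ => rw [map_add, LinearMap.add_apply, map_add, hP, hQ, add_zero]
  | monomial n a =>
    rw [aeval_monomial, ← Algebra.smul_def, LinearMap.smul_apply, map_smul, h n, smul_zero]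

theorem aeval_eig {f : V →ₗ[k] V} {a : k} {v : V} (h : f v = a • v) (P : k[X]) :
    aeval f P v = P.eval a • v := by
  have hn : ∀ n : ℕ, (f ^ n) v = a ^ n • v := by
    intro n
    induction n with
    | zero => simp
    | succ n ih =>
      rw [pow_succ', Module.End.mul_apply, ih, map_smul, h, smul_smul, pow_succ]
  induction P using Polynomial.induction_on' with
  | add P Q hP hQ => rw [map_add, LinearMap.add_apply, hP, hQ, eval_add, add_smul]
  | monomial n c =>
    rw [aeval_monomial, ← Algebra.smul_def, LinearMap.smul_apply, hn, eval_monomial, smul_smul]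

/-- an eigenbasis -/
theorem eig_basis [FiniteDimensional k V] (f : V →ₗ[k] V) (A : Finset k)
    (hA : A.card = finrank k V) (hr : ∀ a ∈ A, f.charpoly.IsRoot a) :
    ∃ b : Basis A k V, ∀ a, f (b a) = (a : k) • b a := by
  classical
  have h1 : ∀ a : A, ∃ v : V, Module.End.HasEigenvector f (a : k) v := by
    intro a
    have h2 : Module.End.HasEigenvalue f (a : k) :=
      (Module.End.hasEigenvalue_iff_isRoot_charpoly f (a : k)).2 (hr a a.2)
    exact h2.exists_hasEigenvector
  choose v hv using h1
  have hli : LinearIndependent k v :=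
    Module.End.eigenvectors_linearIndependent' f (fun a : A => (a : k)) Subtype.val_injective v hv
  have hc : Fintype.card A = finrank k V := by rw [Fintype.card_coe, hA]
  by_cases h0 : Nonempty A
  · refine ⟨basisOfLinearIndependentOfCardEqFinrank hli hc, fun a => ?_⟩
    rw [coe_basisOfLinearIndependentOfCardEqFinrank]
    exact (hv a).apply_eq_smul
  · have hE : IsEmpty A := not_nonempty_iff.1 h0
    have hs : Subsingleton V := by
      rw [← finrank_zero_iff (R := k), ← hc]
      exact Fintype.card_eq_zero
    exact ⟨Basis.empty V, fun a => (hE.false a).elim⟩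

variable {f : V →ₗ[k] V} {A : Finset k} (b : Basis A k V) (hb : ∀ a, f (b a) = (a : k) • b a)
include hb

theorem mem_KK_iff (φ : V →ₗ[k] k) (v : V) :
    v ∈ KK f φ ↔ ∀ a, φ (b a) ≠ 0 → b.repr v a = 0 := by
  classical
  have hP : ∀ (P : k[X]) (v : V), φ (aeval f P v) =
      ∑ a, b.repr v a * (P.eval (a : k) * φ (b a)) := by
    intro P v
    conv_lhs => rw [← b.sum_repr v]
    rw [map_sum, map_sum]
    refine Finset.sum_congr rfl fun a _ => ?_
    rw [map_smul, aeval_eig (hb a), map_smul, map_smul, smul_eq_mul, smul_eq_mul]
  constructor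
  · intro hv a ha
    have h1 := aeval_KK hv (∏ x ∈ A.erase a, (X - C x))
    rw [hP, Finset.sum_eq_single a] at h1
    · have h2 : eval (a : k) (∏ x ∈ A.erase a, (X - C x)) ≠ 0 := by
        rw [eval_prod, Finset.prod_ne_zero_iff]
        intro x hx
        rw [eval_sub, eval_X, eval_C]
        exact sub_ne_zero.2 (Finset.ne_of_mem_erase hx).symm
      exact (mul_eq_zero.1 h1).resolve_right (mul_ne_zero h2 ha)
    · intro c _ hca
      have h2 : eval (c : k) (∏ x ∈ A.erase a, (X - C x)) = 0 := by
        rw [eval_prod]
        apply Finset.prod_eq_zero (Finset.mem_erase.2 ⟨fun h => hca (Subtype.ext h), c.2⟩)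
        rw [eval_sub, eval_X, eval_C, sub_self]
      rw [h2, zero_mul, mul_zero]
    · intro h
      exact absurd (Finset.mem_univ _) h
  · intro h i
    have h1 := hP (X ^ i) v
    rw [map_pow, aeval_X] at h1
    rw [h1]
    apply Finset.sum_eq_zero
    intro a _
    by_cases ha : φ (b a) = 0
    · rw [ha, mul_zero, mul_zero]
    · rw [h a ha, zero_mul]

variable [Finite k]

/-- the order of `KK f φ` -/
theorem card_KK (φ : V →ₗ[k] k) :
    Nat.card (KK f φ) = Nat.card k ^ Nat.card {a : A // φ (b a) = 0} := by
  classical
  have e : KK f φ ≃ ({a : A // φ (b a) = 0} → k) :=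
    { toFun := fun v a => b.repr v.1 a.1
      invFun := fun c => ⟨b.equivFun.symm fun a => if h : φ (b a) = 0 then c ⟨a, h⟩ else 0, by
        rw [mem_KK_iff b hb]
        intro a ha
        rw [← Basis.equivFun_apply, LinearEquiv.apply_symm_apply, dif_neg ha]⟩
      left_inv := by
        intro v
        apply Subtype.ext
        rw [LinearEquiv.symm_apply_eq]
        ext a
        rw [Basis.equivFun_apply]
        split_ifs with h
        · rfl
        · exact ((mem_KK_iff b hb φ v.1).1 v.2 a h).symm
      right_inv := by
        intro c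
        ext a
        change b.repr (b.equivFun.symm _) a.1 = c a
        rw [← Basis.equivFun_apply, LinearEquiv.apply_symm_apply, dif_pos a.2] }
  rw [Nat.card_congr e, Nat.card_fun]

omit hb in
/-- functions with a given number of zeros -/
theorem card_zeros (ι : Type) [Fintype ι] [DecidableEq ι] (j : ℕ) :
    Nat.card {g : ι → k // Nat.card {i : ι // g i = 0} = j} =
      (Fintype.card ι).choose j * (Nat.card k - 1) ^ (Fintype.card ι - j) := by
  classical
  have := Fintype.ofFinite k
  let Z : (ι → k) → Finset ι := fun g => Finset.univ.filter fun i => g i = 0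
  have hZ : ∀ g : ι → k, Nat.card {i : ι // g i = 0} = (Z g).card := by
    intro g
    rw [Nat.card_eq_fintype_card, Fintype.card_subtype]
  have e1 : Nat.card {g : ι → k // Nat.card {i : ι // g i = 0} = j} =
      (Finset.univ.filter fun g : ι → k => (Z g).card = j).card := by
    rw [Nat.card_eq_fintype_card, Fintype.card_subtype]
    congr 1
    ext g
    rw [Finset.mem_filter, Finset.mem_filter, hZ]
  have e2 : ∀ s : Finset ι, (Finset.univ.filter fun g : ι → k => Z g = s).card =
      (Nat.card k - 1) ^ (Fintype.card ι - s.card) := by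
    intro s
    have e3 : {g : ι → k // Z g = s} ≃ ({i : ι // i ∉ s} → {x : k // x ≠ 0}) :=
      { toFun := fun g i => ⟨g.1 i.1, fun h => i.2 (g.2.le (Finset.mem_filter.2 ⟨Finset.mem_univ _, h⟩))⟩
        invFun := fun c => ⟨fun i => if h : i ∉ s then (c ⟨i, h⟩ : k) else 0, by
          ext i
          rw [Finset.mem_filter]
          constructor
          · rintro ⟨-, h⟩
            by_contra hi
            change (if h : i ∉ s then (c ⟨i, h⟩ : k) else 0) = 0 at h
            rw [dif_pos hi] at h
            exact (c ⟨i, hi⟩).2 h
          · intro hi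
            refine ⟨Finset.mem_univ _, ?_⟩
            change (if h : i ∉ s then (c ⟨i, h⟩ : k) else 0) = 0
            rw [dif_neg (not_not.2 hi)]⟩
        left_inv := by
          rintro ⟨g, rfl⟩
          apply Subtype.ext
          funext i
          change (if h : i ∉ Z g then g i else 0) = g i
          by_cases h : i ∉ Z g
          · rw [dif_pos h]
          · rw [dif_neg h]
            exact ((Finset.mem_filter.1 (not_not.1 h)).2).symm
        right_inv := by
          intro c
          funext i
          apply Subtype.ext
          change (if h : i.1 ∉ s then (c ⟨i.1, h⟩ : k) else 0) = c i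
          rw [dif_pos i.2] }
    rw [← Fintype.card_subtype, Fintype.card_congr e3, Fintype.card_fun]
    congr 1
    · rw [Fintype.card_subtype_compl (fun x : k => x = 0), Fintype.card_subtype_eq,
        Nat.card_eq_fintype_card]
    · rw [Fintype.card_subtype_compl (fun i => i ∈ s), Fintype.card_coe]
  rw [e1, Finset.card_eq_sum_card_fiberwise (f := Z) (t := Finset.powersetCard j Finset.univ)]
  · rw [Finset.sum_congr rfl (g := fun _ => (Nat.card k - 1) ^ (Fintype.card ι - j))]
    · rw [Finset.sum_const, Finset.card_powersetCard, Finset.card_univ, smul_eq_mul]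
    · intro s hs
      have hsj := (Finset.mem_powersetCard.1 hs).2
      rw [← hsj, ← e2 s, Finset.filter_filter]
      congr 1
      ext g
      simp only [Finset.mem_filter, Finset.mem_univ, true_and]
      constructor
      · exact fun h => h.2
      · intro h
        exact ⟨by rw [h], h⟩
  · intro g hg
    rw [Finset.coe_filter] at hg
    exact Finset.mem_coe.2 (Finset.mem_powersetCard.2 ⟨Finset.subset_univ _, hg.2⟩)

/-- **the number of the linear forms with a given order of `KK f φ`** -/
theorem count_forms [Nontrivial k] (j : ℕ) :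
    Nat.card {φ : V →ₗ[k] k // Nat.card (KK f φ) = Nat.card k ^ j} =
      A.card.choose j * (Nat.card k - 1) ^ (A.card - j) := by
  classical
  have hq : 1 < Nat.card k := Finite.one_lt_card
  have e : {φ : V →ₗ[k] k // Nat.card (KK f φ) = Nat.card k ^ j} ≃
      {g : A → k // Nat.card {i : A // g i = 0} = j} :=
    Equiv.subtypeEquiv (b.constr k (M' := k)).symm.toEquiv (by
      intro φ
      rw [card_KK b hb, (Nat.pow_right_injective hq).eq_iff]
      rfl)
  rw [Nat.card_congr e, card_zeros, Fintype.card_coe]

end

end Pool.Agent.H515.KV
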