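import Mathlib

/-! # Minkowski units of totally real cyclic fields -/

set_option autoImplicit false
set_option linter.unusedSectionVars false

namespace Pool.Agent.H515.KV

open NumberField Module Polynomial NumberField.InfinitePlace NumberField.Units

variable {K : Type} [Field K] [NumberField K]

/-- the action of an automorphism on the units -/
noncomputable def uA (σ : K ≃ₐ[ℚ] K) : (𝓞 K)ˣ →* (𝓞 K)ˣ :=
  Units.map (RingOfIntegers.mapRingHom σ : 𝓞 K →+* 𝓞 K)

theorem coe_uA (σ : K ≃ₐ[ℚ] K) (u : (𝓞 K)ˣ) : ((uA σ u : 𝓞 K) : K) = σ ((u : 𝓞 K) : K) := rfl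

theorem uA_mul (σ τ : K ≃ₐ[ℚ] K) (u : (𝓞 K)ˣ) : uA (σ * τ) u = uA σ (uA τ u) := by
  apply Units.ext
  apply RingOfIntegers.ext
  rfl

theorem uA_one (u : (𝓞 K)ˣ) : uA (1 : K ≃ₐ[ℚ] K) u = u := by
  apply Units.ext
  apply RingOfIntegers.ext
  rfl

theorem uA_pow (σ : K ≃ₐ[ℚ] K) (n : ℕ) (u : (𝓞 K)ˣ) : uA (σ ^ n) u = (uA σ)^[n] u := by
  induction n with
  | zero => rw [pow_zero, uA_one]; rfl
  | succ n ih => rw [pow_succ', uA_mul, ih, Function.iterate_succ_apply']

/-- the logarithms of the absolute values -/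
noncomputable def lg (u : (𝓞 K)ˣ) (w : InfinitePlace K) : ℝ := Real.log (w ((u : 𝓞 K) : K))

theorem lg_uA (σ : K ≃ₐ[ℚ] K) (u : (𝓞 K)ˣ) (w : InfinitePlace K) :
    lg (uA σ u) (σ • w) = lg u w := by
  unfold lg
  rw [coe_uA, NumberField.InfinitePlace.smul_apply]
  congr 2
  exact σ.symm_apply_apply _

theorem place_ne (u : (𝓞 K)ˣ) (w : InfinitePlace K) : w ((u : 𝓞 K) : K) ≠ 0 := by
  intro h
  rw [map_eq_zero] at h
  exact u.ne_zero (RingOfIntegers.ext h)

theorem lg_mul (u v : (𝓞 K)ˣ) (w : InfinitePlace K) : lg (u * v) w = lg u w + lg v w := by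
  unfold lg
  rw [← Real.log_mul (place_ne u w) (place_ne v w), ← map_mul]
  rfl

theorem lg_one (w : InfinitePlace K) : lg (1 : (𝓞 K)ˣ) w = 0 := by
  unfold lg
  have h : (((1 : (𝓞 K)ˣ) : 𝓞 K) : K) = 1 := rfl
  rw [h, map_one, Real.log_one]

/-- the logarithms as a homomorphism -/
noncomputable def lgH : Additive (𝓞 K)ˣ →+ (InfinitePlace K → ℝ) where
  toFun x w := lg x.toMul w
  map_zero' := by funext w; exact lg_one w
  map_add' x y := by funext w; exact lg_mul _ _ w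

theorem lgH_torsion (u : (𝓞 K)ˣ) (hu : u ∈ torsion K) : lgH (Additive.ofMul u) = 0 := by
  obtain ⟨n, hn, hun⟩ := (isOfFinOrder_iff_pow_eq_one.1 ((CommGroup.mem_torsion u).1 hu))
  have h1 : n • lgH (Additive.ofMul u) = 0 := by
    rw [← map_nsmul, ← ofMul_pow, hun, ofMul_one, map_zero]
  exact (smul_eq_zero.1 h1).resolve_left hn.ne'

variable [IsTotallyReal K] [IsGalois ℚ K] {σ : K ≃ₐ[ℚ] K} (hσ : ∀ g, g ∈ Subgroup.zpowers σ)

theorem card_place : Fintype.card (InfinitePlace K) = Module.finrank ℚ K := by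
  rw [IsTotallyReal.finrank, InfinitePlace.card_eq_nrRealPlaces_add_nrComplexPlaces,
    IsTotallyReal.nrComplexPlaces_eq_zero, add_zero]

include hσ

theorem orderOf_gen : orderOf σ = Module.finrank ℚ K := by
  rw [orderOf_eq_card_of_forall_mem_zpowers hσ, IsGalois.card_aut_eq_finrank]

theorem place_bij (w1 : InfinitePlace K) :
    Function.Bijective fun i : Fin (Module.finrank ℚ K) => (σ ^ (i : ℕ)) • w1 := by
  rw [Fintype.bijective_iff_surjective_and_card]
  refine ⟨fun w => ?_, by rw [Fintype.card_fin, card_place]⟩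
  obtain ⟨g, hg⟩ : ∃ g : K ≃ₐ[ℚ] K, g • w1 = w :=
    exists_smul_eq_of_comap_eq (Subsingleton.elim _ _)
  obtain ⟨n, hn⟩ := (isOfFinOrder_of_finite σ).mem_powers_iff_mem_zpowers.2 (hσ g)
  refine ⟨⟨n % Module.finrank ℚ K, Nat.mod_lt _ Module.finrank_pos⟩, ?_⟩
  change σ ^ (n % Module.finrank ℚ K) • w1 = w
  rw [← orderOf_gen hσ, pow_mod_orderOf]
  have hn' : σ ^ n = g := hn
  rw [hn', hg]

/-- a Minkowski unit -/
theorem exists_mink : ∃ u : (𝓞 K)ˣ, LinearIndependent ℝ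
    (fun i : Fin (Module.finrank ℚ K - 1) => (lg (uA (σ ^ (i : ℕ)) u) : InfinitePlace K → ℝ)) := by
  classical
  obtain ⟨r, hr⟩ : ∃ r, Module.finrank ℚ K = r + 1 :=
    ⟨Module.finrank ℚ K - 1, (Nat.succ_pred_eq_of_pos Module.finrank_pos).symm⟩
  obtain ⟨w1⟩ : Nonempty (InfinitePlace K) := inferInstance
  obtain ⟨u, hu⟩ := dirichletUnitTheorem.exists_unit K w1
  refine ⟨u, ?_⟩
  have hb := place_bij hσ w1
  rw [hr] at hb
  let e : Fin (r + 1) → InfinitePlace K := fun i => (σ ^ (i : ℕ)) • w1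
  have he : Function.Bijective e := hb
  have hsum : ∀ i : Fin (r + 1), ∑ j : Fin (r + 1), lg (uA (σ ^ (i : ℕ)) u) (e j) = 0 := by
    intro i
    have h1 := sum_mult_mul_log (uA (σ ^ (i : ℕ)) u)
    have h2 : ∑ w : InfinitePlace K, lg (uA (σ ^ (i : ℕ)) u) w = 0 := by
      rw [← h1]
      refine Finset.sum_congr rfl fun w _ => ?_
      rw [IsTotallyReal.mult_eq, Nat.cast_one, one_mul]
      rfl
    rw [← h2]
    exact he.sum_comp fun w => lg (uA (σ ^ (i : ℕ)) u) w
  have hneg : ∀ i j : Fin (r + 1), i ≠ j → lg (uA (σ ^ (i : ℕ)) u) (e j) < 0 := by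
    intro i j hij
    have h1 : e j = (σ ^ (i : ℕ)) • ((σ ^ (i : ℕ))⁻¹ • e j) := by rw [smul_inv_smul]
    rw [h1, lg_uA]
    apply hu
    intro h2
    apply hij
    apply he.1
    change (σ ^ (i : ℕ)) • w1 = e j
    rw [← h2, smul_inv_smul]
  have hA : (Matrix.of fun i j : Fin r => lg (uA (σ ^ (i : ℕ)) u) (e j.castSucc)).det ≠ 0 := by
    apply det_ne_zero_of_sum_row_lt_diag
    intro i
    have hs := hsum i.castSucc
    rw [Fin.sum_univ_castSucc] at hs
    have hlast : lg (uA (σ ^ (i.castSucc : ℕ)) u) (e (Fin.last r)) < 0 :=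
      hneg _ _ (Fin.castSucc_lt_last i).ne
    have h3 : ∑ j ∈ Finset.univ.erase i, ‖(Matrix.of fun i j : Fin r =>
        lg (uA (σ ^ (i : ℕ)) u) (e j.castSucc)) i j‖ =
        - ∑ j ∈ Finset.univ.erase i, lg (uA (σ ^ (i.castSucc : ℕ)) u) (e j.castSucc) := by
      rw [← Finset.sum_neg_distrib]
      refine Finset.sum_congr rfl fun j hj => ?_
      rw [Matrix.of_apply, Real.norm_eq_abs, abs_of_neg]
      · rfl
      · exact hneg i.castSucc j.castSucc fun h =>
          (Finset.ne_of_mem_erase hj) (Fin.castSucc_injective r h).symm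
    rw [h3]
    have h4 := Finset.add_sum_erase Finset.univ
      (fun j : Fin r => lg (uA (σ ^ (i.castSucc : ℕ)) u) (e j.castSucc)) (Finset.mem_univ i)
    have h5 : lg (uA (σ ^ (i.castSucc : ℕ)) u) (e i.castSucc) ≤
        ‖(Matrix.of fun i j : Fin r => lg (uA (σ ^ (i : ℕ)) u) (e j.castSucc)) i i‖ := by
      rw [Matrix.of_apply, Real.norm_eq_abs]
      exact le_abs_self _
    refine lt_of_lt_of_le ?_ h5
    beta_reduce at h4
    linarith
  have hli := Matrix.linearIndependent_rows_of_det_ne_zero hA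
  have h6 : LinearIndependent ℝ
      (fun i : Fin r => (lg (uA (σ ^ (i : ℕ)) u) : InfinitePlace K → ℝ)) := by
    let T : (InfinitePlace K → ℝ) →ₗ[ℝ] (Fin r → ℝ) :=
      LinearMap.pi fun j => LinearMap.proj (e j.castSucc)
    exact LinearIndependent.of_comp T hli
  rw [hr]
  exact h6

end Pool.Agent.H515.KV
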