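import Pool.Agent.H515.KV.Ai
import Pool.Graph.R_pool_sql_team_seeded_3997aac3.Q68.MZ.LA

/-! # Norms of a tame cyclic extension: the units -/

set_option autoImplicit false
set_option linter.unusedSectionVars false
set_option linter.deprecated false

namespace Pool.Agent.H515.CH

open NumberField IsDedekindDomain Pool.Agent.Q5.BR Pool.Agent.Q92.AR Pool.Agent.Q106.AR
open Pool.Agent.TeamU (act mem_act val_act)
open Pool.Agent.Q182.AR (cong_mul cong_inv cong_one)
open Pool.Agent.Q5.MZ (PosRam VAData)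

section
variable {F E : Type} [Field F] [NumberField F] [Field E] [NumberField E] [Algebra F E]

/-- the elements congruent to `1` -/
def CA (E : Type) [Field E] [NumberField E] (N : ℕ) : Subgroup Eˣ where
  carrier := {x | Cong N (x : E)}
  mul_mem' {a b} ha hb := by
    change Cong N ((a * b : Eˣ) : E)
    rw [Units.val_mul]
    exact cong_mul ha hb
  one_mem' := by
    change Cong N ((1 : Eˣ) : E)
    rw [Units.val_one]
    exact cong_one N
  inv_mem' {a} ha := by
    change Cong N ((a⁻¹ : Eˣ) : E)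
    rw [Units.val_inv_eq_inv_val]
    exact cong_inv ha

theorem cong_act {N : ℕ} (σ : E ≃ₐ[F] E) {x : E} (hx : Cong N x) : Cong N (σ x) := by
  intro w hw
  obtain ⟨w', rfl⟩ := Pool.Agent.Q225.AR.act_surj σ w
  have h1 : (N : 𝓞 E) ∈ w'.asIdeal := by
    rw [mem_act, map_natCast] at hw
    exact hw
  have e1 : σ x - 1 = σ (x - 1) := by rw [map_sub, map_one]
  have e2 : (N : E) = σ (N : E) := by rw [map_natCast]
  rw [e1, e2, val_act, val_act]
  exact hx w' h1

/-- there is a prime above `l` -/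
theorem exists_w (E : Type) [Field E] [NumberField E] {l : ℕ} (hl : l.Prime) :
    ∃ w : HeightOneSpectrum (𝓞 E), (l : 𝓞 E) ∈ w.asIdeal := by
  have h2 : ¬ IsUnit (l : 𝓞 E) := by
    intro h3
    have h4 : IsUnit (algebraMap ℤ (𝓞 E) (l : ℤ)) := by rwa [map_natCast]
    have h5 := h4.map (Algebra.norm ℤ)
    rw [Algebra.norm_algebraMap] at h5
    exact (Nat.prime_iff_prime_int.1 hl).not_unit
      ((isUnit_pow_iff (by rw [RingOfIntegers.rank]; exact Module.finrank_pos.ne')).1 h5)
  obtain ⟨P, hP, hle⟩ := Ideal.exists_le_maximal (Ideal.span {(l : 𝓞 E)}) (by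
    rwa [Ne, Ideal.span_singleton_eq_top])
  have hlP : (l : 𝓞 E) ∈ P := hle (Ideal.mem_span_singleton_self _)
  have hP0 : P ≠ ⊥ := by
    rintro rfl
    rw [Ideal.mem_bot] at hlP
    exact hl.ne_zero (by exact_mod_cast hlP)
  exact ⟨⟨P, hP.isPrime, hP0⟩, hlP⟩

/-- at a modulus prime to the degree the congruence subgroups are cohomologically trivial -/
theorem vadata [IsGalois F E] {σ : E ≃ₐ[F] E} (hσ : ∀ g : E ≃ₐ[F] E, g ∈ Subgroup.zpowers σ)
    {l : ℕ} (hl : l.Prime) (hc : (Module.finrank F E).Coprime l) (hram : Ram F E l) :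
    VAData F E σ l l (CA E l) where
  gen := hσ
  n1 := hl.ne_zero
  n2 := hl.ne_zero
  ram := hram
  dvd := dvd_refl l
  pow := ⟨1, by rw [pow_one]⟩
  stable x hx := cong_act σ hx
  sub x hx := hx
  sup x hx := hx
  h1 x hx := by
    classical
    obtain ⟨n, hn⟩ : ∃ n, n = Module.finrank F E := ⟨_, rfl⟩
    rw [← hn] at hc
    have hn0 : (n : E) ≠ 0 := by
      rw [hn]
      exact_mod_cast Module.finrank_pos.ne'
    -- the quotients of the conjugates
    have hq : ∀ g : E ≃ₐ[F] E, Cong l (g (x : E) / (x : E)) := by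
      let H : Subgroup (E ≃ₐ[F] E) :=
        { carrier := {g | Cong l (g (x : E) / (x : E))}
          mul_mem' := by
            intro a b ha hb
            have e : (a * b) (x : E) / (x : E) = a (b (x : E) / (x : E)) * (a (x : E) / (x : E)) := by
              rw [map_div₀, AlgEquiv.mul_apply]
              rw [div_mul_div_cancel₀]
              exact (map_ne_zero a).2 x.ne_zero
            change Cong l ((a * b) (x : E) / (x : E))
            rw [e]
            exact cong_mul (cong_act a hb) ha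
          one_mem' := by
            change Cong l ((x : E) / (x : E))
            rw [div_self x.ne_zero]
            exact cong_one l
          inv_mem' := by
            intro a ha
            have e : a⁻¹ (x : E) / (x : E) = (a⁻¹ (a (x : E) / (x : E)))⁻¹ := by
              rw [map_div₀]
              have : a⁻¹ (a (x : E)) = x := a.symm_apply_apply _
              rw [this, inv_div]
            change Cong l (a⁻¹ (x : E) / (x : E))
            rw [e]
            exact cong_inv (cong_act a⁻¹ ha) }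
      have hs : σ ∈ H := by
        have h2 : Cong l ((Units.map (σ : E →* E) x / x : Eˣ) : E) := hx
        rw [Units.val_div_eq_div_val] at h2
        exact h2
      intro g
      exact (Subgroup.zpowers_le.2 hs) (hσ g)
    have htr : algebraMap F E (Algebra.trace F E (x : E)) = ∑ g : E ≃ₐ[F] E, g (x : E) :=
      trace_eq_sum_automorphisms _
    have hcard : (Finset.univ : Finset (E ≃ₐ[F] E)).card = n := by
      rw [Finset.card_univ, ← Nat.card_eq_fintype_card, IsGalois.card_aut_eq_finrank, hn]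
    have key : Cong l (algebraMap F E (Algebra.trace F E (x : E)) / n / (x : E)) := by
      intro w hw
      have e : algebraMap F E (Algebra.trace F E (x : E)) / n / (x : E) - 1 =
          (∑ g : E ≃ₐ[F] E, (g (x : E) / (x : E) - 1)) * (n : E)⁻¹ := by
        rw [Finset.sum_sub_distrib, Finset.sum_const, hcard, ← Finset.sum_div, ← htr, nsmul_one]
        field_simp
      have hnw : w.valuation E (n : E) = 1 := by
        have h2 : (n : 𝓞 E) ∉ w.asIdeal := by
          intro h3
          have h4 : IsCoprime (n : ℤ) (l : ℤ) := Nat.isCoprime_iff_coprime.2 hc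
          obtain ⟨r, s, hrs⟩ := h4
          apply w.isPrime.ne_top
          rw [Ideal.eq_top_iff_one]
          have h5 : ((r * n + s * l : ℤ) : 𝓞 E) ∈ w.asIdeal := by
            push_cast
            exact add_mem (Ideal.mul_mem_left _ _ h3) (Ideal.mul_mem_left _ _ hw)
          rw [hrs, Int.cast_one] at h5
          exact h5
        have := (HeightOneSpectrum.valuation_eq_one_iff_notMem (K := E) (v := w)).2 h2
        simpa using this
      rw [e, map_mul, map_inv₀, hnw, inv_one, mul_one]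
      exact Valuation.map_sum_le _ fun g _ => hq g w hw
    -- the trace is not zero
    have hc0 : Algebra.trace F E (x : E) ≠ 0 := by
      intro h0
      obtain ⟨w, hw⟩ := exists_w E hl
      have h2 := val_eq_one hw (key w hw)
      rw [h0, map_zero, zero_div, zero_div, map_zero] at h2
      exact zero_ne_one h2
    have hc1 : (Algebra.trace F E (x : E)) / n ≠ 0 := by
      apply div_ne_zero hc0
      rw [hn]
      exact_mod_cast Module.finrank_pos.ne'
    refine ⟨Units.mk0 _ hc1, ?_⟩
    have h3 : (up F E (Units.mk0 _ hc1) / x)  ∈ CA E l := by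
      change Cong l ((up F E (Units.mk0 _ hc1) / x : Eˣ) : E)
      rw [Units.val_div_eq_div_val]
      have h4 : ((up F E (Units.mk0 _ hc1) : Eˣ) : E) =
          algebraMap F E (Algebra.trace F E (x : E)) / n := by
        change algebraMap F E ((Algebra.trace F E (x : E)) / n) = _
        rw [map_div₀, map_natCast]
      rw [h4]
      exact key
    have h4 := (CA E l).inv_mem h3
    rwa [inv_div] at h4

theorem exists_res {w : HeightOneSpectrum (𝓞 E)} {y : E} (hy : w.valuation E y ≤ 1)
    (hf : rdeg F w = 1) : ∃ c : 𝓞 F, w.valuation E (y - algebraMap F E c) < 1 := by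
  obtain ⟨n, d, hnd⟩ := w.exists_primeCompl_mul_eq_of_integer y hy
  have hd : (d : 𝓞 E) ∉ w.asIdeal := d.2
  -- the residue field does not grow
  obtain ⟨v, hv⟩ : ∃ v, v = w.under (𝓞 F) := ⟨_, rfl⟩
  have hcard := absNorm_rdeg (K := F) w
  rw [hf, pow_one] at hcard
  let f : 𝓞 F ⧸ (w.under (𝓞 F)).asIdeal →+* 𝓞 E ⧸ w.asIdeal :=
    Ideal.quotientMap w.asIdeal (algebraMap (𝓞 F) (𝓞 E)) le_rfl
  have hfi : Function.Injective f := Ideal.quotientMap_injective
  have hfin : Finite (𝓞 E ⧸ w.asIdeal) := Ideal.finiteQuotientOfFreeOfNeBot _ w.ne_bot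
  have hfin' : Finite (𝓞 F ⧸ (w.under (𝓞 F)).asIdeal) :=
    Ideal.finiteQuotientOfFreeOfNeBot _ (w.under (𝓞 F)).ne_bot
  have hfs : Function.Surjective f := by
    have h1 : Nat.card (𝓞 E ⧸ w.asIdeal) = Nat.card (𝓞 F ⧸ (w.under (𝓞 F)).asIdeal) := by
      rw [← Submodule.cardQuot_apply, ← Submodule.cardQuot_apply, ← Ideal.absNorm_apply,
        ← Ideal.absNorm_apply, hcard]
    exact ((Nat.bijective_iff_injective_and_card f).2 ⟨hfi, h1.symm⟩).2
  have hmax := w.isMaximal
  let _ := Ideal.Quotient.field w.asIdeal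
  obtain ⟨c', hc'⟩ := hfs ((Ideal.Quotient.mk w.asIdeal n) / (Ideal.Quotient.mk w.asIdeal d))
  obtain ⟨c, rfl⟩ := Ideal.Quotient.mk_surjective c'
  have hd0 : (Ideal.Quotient.mk w.asIdeal (d : 𝓞 E)) ≠ 0 := by
    rw [Ne, Ideal.Quotient.eq_zero_iff_mem]
    exact hd
  have h2 : n - algebraMap (𝓞 F) (𝓞 E) c * d ∈ w.asIdeal := by
    rw [← Ideal.Quotient.eq_zero_iff_mem, map_sub, map_mul]
    have h3 : Ideal.Quotient.mk w.asIdeal (algebraMap (𝓞 F) (𝓞 E) c) =
        (Ideal.Quotient.mk w.asIdeal n) / (Ideal.Quotient.mk w.asIdeal d) := hc'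
    rw [h3, div_mul_cancel₀ _ hd0, sub_self]
  refine ⟨c, ?_⟩
  have h3 : w.valuation E (algebraMap (𝓞 E) E (n - algebraMap (𝓞 F) (𝓞 E) c * d)) < 1 :=
    (HeightOneSpectrum.valuation_lt_one_iff_mem (K := E) w _).2 h2
  have h4 : w.valuation E (algebraMap (𝓞 E) E (d : 𝓞 E)) = 1 :=
    (HeightOneSpectrum.valuation_eq_one_iff_notMem (K := E) (v := w)).2 hd
  have h5 : algebraMap (𝓞 E) E (n - algebraMap (𝓞 F) (𝓞 E) c * d) =
      (y - algebraMap F E c) * algebraMap (𝓞 E) E (d : 𝓞 E) := by
    rw [map_sub, map_mul, sub_mul, hnd]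
    rfl
  rw [h5, map_mul, h4, mul_one] at h3
  exact h3

/-- **Norms are `p`-th powers modulo the totally ramified primes.** -/
theorem norm_res [IsGalois F E] {w : HeightOneSpectrum (𝓞 E)}
    (hw : ri F w = Module.finrank F E) {u : Fˣ} (hu : (w.under (𝓞 F)).valuation F (u : F) = 1)
    {y : Eˣ} (hy : nu F E y = u) :
    ∃ c : 𝓞 F, (w.under (𝓞 F)).valuation F ((u : F) - (c : F) ^ (Module.finrank F E)) < 1 := by
  classical
  have hld : ld F w = Module.finrank F E := by
    apply le_antisymm (ld_le w)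
    unfold ld
    rw [hw]
    exact Nat.le_mul_of_pos_left _ (rdeg_pos' w)
  have hf : rdeg F w = 1 := by
    unfold ld at hld
    rw [hw] at hld
    exact Nat.eq_of_mul_eq_mul_right Module.finrank_pos (by rw [hld, one_mul])
  have hact : ∀ g : E ≃ₐ[F] E, act g w = w := fun g =>
    act_eq_of_total (σ := g) hw _ (Pool.Agent.Q225.AR.under_act _ _)
  have hprod : algebraMap F E (u : F) = ∏ g : E ≃ₐ[F] E, g (y : E) := by
    rw [← Algebra.norm_eq_prod_automorphisms, ← hy]
    rfl
  -- `y` is a unit at `w`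
  have hval : ∀ g : E ≃ₐ[F] E, w.valuation E (g (y : E)) = w.valuation E (y : E) := by
    intro g
    conv_lhs => rw [← hact g]
    exact val_act g w _
  have hcard : (Finset.univ : Finset (E ≃ₐ[F] E)).card = Module.finrank F E := by
    rw [Finset.card_univ, ← Nat.card_eq_fintype_card, IsGalois.card_aut_eq_finrank]
  have hLO : w.asIdeal.LiesOver (w.under (𝓞 F)).asIdeal := ⟨rfl⟩
  have h0 := Ideal.IsDedekindDomain.ramificationIdx'_ne_zero_of_liesOver w.asIdeal
    (w.under (𝓞 F)).ne_bot
  have hup : ∀ x : F, w.valuation E (algebraMap F E x) < 1 → (w.under (𝓞 F)).valuation F x < 1 := by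
    intro x hx
    have h := HeightOneSpectrum.valuation_liesOver (A := 𝓞 F) (K := F) E (w.under (𝓞 F)) w x
    rw [← h] at hx
    exact (pow_lt_one_iff h0).1 hx
  have hy1 : w.valuation E (y : E) = 1 := by
    have h1 : w.valuation E (algebraMap F E (u : F)) = 1 := (Pool.Agent.Q182.AR.val_up w _).1 hu
    rw [hprod, map_prod, Finset.prod_congr rfl fun g _ => hval g, Finset.prod_const, hcard] at h1
    exact (pow_eq_one_iff.1 h1).resolve_right Module.finrank_pos.ne'
  obtain ⟨c, hc⟩ := exists_res hy1.le hf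
  have hc1 : w.valuation E (algebraMap F E (c : F)) ≤ 1 := by
    exact w.valuation_le_one (algebraMap (𝓞 F) (𝓞 E) c)
  have hgc : ∀ g : E ≃ₐ[F] E, w.valuation E (g (y : E) - algebraMap F E (c : F)) < 1 := by
    intro g
    have e : g (y : E) - algebraMap F E (c : F) = g ((y : E) - algebraMap F E (c : F)) := by
      rw [map_sub, g.commutes]
    rw [e]
    conv_lhs => rw [← hact g]
    rw [val_act]
    exact hc
  have hind : ∀ s : Finset (E ≃ₐ[F] E),
      w.valuation E (∏ g ∈ s, g (y : E) - algebraMap F E (c : F) ^ s.card) < 1 := by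
    intro s
    induction s using Finset.induction_on with
    | empty =>
      rw [Finset.prod_empty, Finset.card_empty, pow_zero, sub_self, map_zero]
      exact zero_lt_one
    | insert g s hg ih =>
      rw [Finset.prod_insert hg, Finset.card_insert_of_notMem hg]
      have e : g (y : E) * ∏ g ∈ s, g (y : E) - algebraMap F E (c : F) ^ (s.card + 1) =
          g (y : E) * (∏ g ∈ s, g (y : E) - algebraMap F E (c : F) ^ s.card) +
          (g (y : E) - algebraMap F E (c : F)) * algebraMap F E (c : F) ^ s.card := by ring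
      rw [e]
      refine lt_of_le_of_lt (Valuation.map_add _ _ _) (max_lt ?_ ?_)
      · rw [map_mul, hval, hy1, one_mul]
        exact ih
      · rw [map_mul, map_pow]
        exact mul_lt_one_of_lt_of_le (hgc g) (pow_le_one₀ zero_le hc1)
  refine ⟨c, ?_⟩
  apply hup
  rw [map_sub, map_pow, hprod, ← hcard]
  exact hind Finset.univ

theorem le_exp_of_lt_one {x : WithZero (Multiplicative ℤ)} (h : x < 1) :
    x ≤ WithZero.exp (-1 : ℤ) := by
  by_cases h0 : x = 0
  · rw [h0]
    exact zero_le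
  · have h1 := WithZero.exp_log h0
    rw [← h1, ← WithZero.exp_zero, WithZero.exp_lt_exp] at h
    rw [← h1, WithZero.exp_le_exp]
    omega

/-- **Units which are `p`-th powers modulo the ramified primes are norms.** -/
theorem res_norm [IsGalois F E] {σ : E ≃ₐ[F] E} (hσ : ∀ g : E ≃ₐ[F] E, g ∈ Subgroup.zpowers σ)
    {l : ℕ} (hl : l.Prime) (hc : (Module.finrank F E).Coprime l) (hram : Ram F E l)
    (hun : ∀ v : HeightOneSpectrum (𝓞 F), (l : 𝓞 F) ∈ v.asIdeal →
      v.valuation F (l : F) = WithZero.exp (-1 : ℤ))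
    (hreal : ∀ φ : F →+* ℝ, ∃ χ : E →+* ℝ, χ.comp (algebraMap F E) = φ)
    {u : Fˣ} (hu : prin u = 0)
    (hr : ∀ v : HeightOneSpectrum (𝓞 F), (l : 𝓞 F) ∈ v.asIdeal →
      ∃ c : 𝓞 F, v.valuation F ((u : F) - (c : F) ^ (Module.finrank F E)) < 1) :
    ∃ y : Eˣ, nu F E y = u := by
  classical
  have hfin : {v : HeightOneSpectrum (𝓞 F) | (l : 𝓞 F) ∈ v.asIdeal}.Finite :=
    Pool.Agent.Q125.AR.finite_dvd hl.ne_zero
  choose! c hcv using hr
  obtain ⟨c1, hc1⟩ := IsDedekindDomain.exists_forall_sub_mem_ideal (s := hfin.toFinset)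
    (fun v : HeightOneSpectrum (𝓞 F) => v.asIdeal) (fun _ => 1) (fun v _ => v.prime)
    (fun v _ w _ hvw h => hvw (HeightOneSpectrum.ext h)) (fun v => c v.1)
  have hu1 : ∀ v : HeightOneSpectrum (𝓞 F), v.valuation F (u : F) = 1 := fun v =>
    (Pool.Agent.Q182.AR.prin_eq_zero_iff u v).1 (by rw [hu]; rfl)
  obtain ⟨n, hn⟩ : ∃ n, n = Module.finrank F E := ⟨_, rfl⟩
  have hn0 : n ≠ 0 := by rw [hn]; exact Module.finrank_pos.ne'
  have key : ∀ v : HeightOneSpectrum (𝓞 F), (l : 𝓞 F) ∈ v.asIdeal →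
      v.valuation F ((u : F) - (c1 : F) ^ n) < 1 := by
    intro v hv
    have h1 := hcv v hv
    rw [← hn] at h1
    have h2 := hc1 v (hfin.mem_toFinset.2 hv)
    rw [pow_one] at h2
    have h3 : c1 ^ n - c v ^ n ∈ v.asIdeal := by
      obtain ⟨d, hd⟩ := sub_dvd_pow_sub_pow c1 (c v) n
      rw [hd]
      exact Ideal.mul_mem_right _ _ h2
    have h4 : v.valuation F (algebraMap (𝓞 F) F (c1 ^ n - c v ^ n)) < 1 :=
      (HeightOneSpectrum.valuation_lt_one_iff_mem (K := F) v _).2 h3
    have e : (u : F) - (c1 : F) ^ n = ((u : F) - (c v : F) ^ n) -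
        algebraMap (𝓞 F) F (c1 ^ n - c v ^ n) := by
      rw [map_sub, map_pow, map_pow]
      ring
    rw [e]
    exact lt_of_le_of_lt (Valuation.map_sub _ _ _) (max_lt h1 h4)
  have hcv1 : ∀ v : HeightOneSpectrum (𝓞 F), (l : 𝓞 F) ∈ v.asIdeal →
      v.valuation F (c1 : F) = 1 := by
    intro v hv
    have h1 := key v hv
    have h2 : v.valuation F ((c1 : F) ^ n) = 1 := by
      have e : (c1 : F) ^ n = (u : F) - ((u : F) - (c1 : F) ^ n) := by ring
      rw [e, Valuation.map_sub_eq_of_lt_left]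
      · exact hu1 v
      · rw [hu1 v]
        exact h1
    rw [map_pow] at h2
    exact (pow_eq_one_iff.1 h2).resolve_right hn0
  obtain ⟨v0, hv0⟩ := exists_w F hl
  have hc0 : (c1 : F) ≠ 0 := by
    intro h0
    have := hcv1 v0 hv0
    rw [h0, map_zero] at this
    exact zero_ne_one this
  let c0 : Fˣ := Units.mk0 (c1 : F) hc0
  let x : Fˣ := u / c0 ^ n
  have hxc : Cong l (x : F) := by
    intro v hv
    have e : (x : F) - 1 = ((u : F) - (c1 : F) ^ n) * ((c1 : F) ^ n)⁻¹ := by
      change ((u / c0 ^ n : Fˣ) : F) - 1 = _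
      rw [Units.val_div_eq_div_val, Units.val_pow_eq_pow_val]
      change (u : F) / (c1 : F) ^ n - 1 = _
      field_simp
    have h1 := key v hv
    have hl1 : v.valuation F (l : F) = WithZero.exp (-1 : ℤ) := hun v hv
    rw [e, map_mul, map_inv₀, map_pow, hcv1 v hv, one_pow, inv_one, mul_one, hl1]
    exact le_exp_of_lt_one h1
  have hnuup : ∀ z : Fˣ, nu F E (up F E z) = z ^ n := by
    intro z
    apply Units.ext
    rw [hn]
    exact Algebra.norm_algebraMap (z : F)
  obtain ⟨m1, m2, m3, m4, m5, m6⟩ := Pool.Agent.Q106.AR.nm F E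
  have hup : up F E x ∈ CA E l := m6 l x hl.ne_zero hxc
  have hpos : PosRam E x := by
    intro φ hφ
    exact absurd (hreal φ) hφ
  have hD : ∃ D ∈ Pr E l, nmD F E D = prin x := by
    refine ⟨prin (up F E c0⁻¹), ?_, ?_⟩
    · rw [mem_Pr]
      intro w hw
      rw [Pool.Agent.Q182.AR.prin_eq_zero_iff]
      have h1 : (l : 𝓞 F) ∈ (w.under (𝓞 F)).asIdeal := by
        change algebraMap (𝓞 F) (𝓞 E) (l : 𝓞 F) ∈ w.asIdeal
        rwa [map_natCast]
      have h2 : (w.under (𝓞 F)).valuation F (((c0⁻¹ : Fˣ)) : F) = 1 := by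
        rw [Units.val_inv_eq_inv_val, map_inv₀]
        change ((w.under (𝓞 F)).valuation F (c1 : F))⁻¹ = 1
        rw [hcv1 _ h1, inv_one]
      exact (Pool.Agent.Q182.AR.val_up w _).1 h2
    · rw [m1, hnuup]
      change prin ((c0⁻¹) ^ n) = prin (u / c0 ^ n)
      rw [prin_div, hu, zero_sub, inv_pow, prin_inv]
  obtain ⟨y, -, hy⟩ := Pool.Agent.Q68.MZ.la F E σ l l (CA E l) (vadata hσ hl hc hram) x hup hpos hD
  refine ⟨y * up F E c0, ?_⟩
  rw [map_mul, hy, hnuup]
  exact div_mul_cancel u (c0 ^ n)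

end
end Pool.Agent.H515.CH
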