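import Pool.Agent.H515.KV.Mink
import Pool.Agent.H515.KV.Lin

/-! # The units of a totally real cyclic field modulo `p`-th powers -/

set_option autoImplicit false
set_option linter.unusedSectionVars false

namespace Pool.Agent.H515.KV

open NumberField Module Polynomial NumberField.InfinitePlace NumberField.Units

variable {K : Type} [Field K] [NumberField K]

/-- the units modulo torsion -/
def LL (K : Type) [Field K] [NumberField K] : Type := Additive ((𝓞 K)ˣ ⧸ torsion K)

noncomputable instance : AddCommGroup (LL K) :=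
  inferInstanceAs (AddCommGroup (Additive ((𝓞 K)ˣ ⧸ torsion K)))

/-- a basis -/
noncomputable def bas (K : Type) [Field K] [NumberField K] : Basis (Fin (rank K)) ℤ (LL K) :=
  basisModTorsion K

instance : Module.Free ℤ (LL K) := Module.Free.of_basis (bas K)

instance : Module.Finite ℤ (LL K) := Module.Finite.of_basis (bas K)

/-- the class of a unit modulo torsion -/
noncomputable def mkL : Additive (𝓞 K)ˣ →+ LL K :=
  AddMonoidHom.mk' (fun x => (Additive.ofMul (QuotientGroup.mk x.toMul : (𝓞 K)ˣ ⧸ torsion K) :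
    Additive ((𝓞 K)ˣ ⧸ torsion K))) fun _ _ => rfl

theorem mkL_surj : Function.Surjective (mkL (K := K)) := fun x => by
  obtain ⟨y, hy⟩ := QuotientGroup.mk_surjective (s := torsion K)
    (Additive.toMul (show Additive ((𝓞 K)ˣ ⧸ torsion K) from x))
  exact ⟨Additive.ofMul y, hy⟩

theorem mkL_eq_zero (x : Additive (𝓞 K)ˣ) : mkL x = 0 ↔ x.toMul ∈ torsion K :=
  QuotientGroup.eq_one_iff x.toMul

theorem tors_le (σ : K ≃ₐ[ℚ] K) : torsion K ≤ (torsion K).comap (uA σ) := by
  intro u hu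
  rw [Subgroup.mem_comap]
  exact (CommGroup.mem_torsion _).2 ((uA σ).isOfFinOrder ((CommGroup.mem_torsion u).1 hu))

/-- the action on the units modulo torsion -/
noncomputable def sL0 (σ : K ≃ₐ[ℚ] K) : LL K →+ LL K :=
  AddMonoidHom.mk' (fun x => (Additive.ofMul (QuotientGroup.map (torsion K) (torsion K) (uA σ)
    (tors_le σ) (Additive.toMul (show Additive ((𝓞 K)ˣ ⧸ torsion K) from x))) :
    Additive ((𝓞 K)ˣ ⧸ torsion K))) fun x y => by
      exact congrArg Additive.ofMul (map_mul (QuotientGroup.map (torsion K) (torsion K) (uA σ)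
        (tors_le σ)) _ _)

/-- the action on the units modulo torsion -/
noncomputable def sL (σ : K ≃ₐ[ℚ] K) : LL K →ₗ[ℤ] LL K := (sL0 σ).toIntLinearMap

theorem sL_mk (σ : K ≃ₐ[ℚ] K) (u : (𝓞 K)ˣ) :
    sL σ (mkL (Additive.ofMul u)) = mkL (Additive.ofMul (uA σ u)) := rfl

theorem sL_pow (σ : K ≃ₐ[ℚ] K) (n : ℕ) (u : (𝓞 K)ˣ) :
    (sL σ ^ n) (mkL (Additive.ofMul u)) = mkL (Additive.ofMul (uA (σ ^ n) u)) := by
  induction n with
  | zero => rw [pow_zero, pow_zero, uA_one]; rfl
  | succ n ih => rw [pow_succ', Module.End.mul_apply, ih, sL_mk, pow_succ', uA_mul]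

/-- the logarithms on the units modulo torsion -/
noncomputable def lgL : LL K →+ (InfinitePlace K → ℝ) :=
  AddMonoidHom.mk' (fun x => Multiplicative.toAdd (QuotientGroup.lift (torsion K)
    (AddMonoidHom.toMultiplicativeRight lgH) (fun u hu => lgH_torsion u hu)
    (Additive.toMul (show Additive ((𝓞 K)ˣ ⧸ torsion K) from x)))) fun x y => by
      exact congrArg Multiplicative.toAdd (map_mul (QuotientGroup.lift (torsion K)
    (AddMonoidHom.toMultiplicativeRight lgH) (fun u hu => lgH_torsion u hu)) _ _)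

theorem lgL_mk (u : (𝓞 K)ˣ) : lgL (mkL (Additive.ofMul u)) = lg u := rfl

variable [IsTotallyReal K] [IsGalois ℚ K] {σ : K ≃ₐ[ℚ] K} (hσ : ∀ g, g ∈ Subgroup.zpowers σ)

theorem rank_eq : rank K = Module.finrank ℚ K - 1 := by
  unfold rank
  rw [card_place]

theorem finrank_LL : Module.finrank ℤ (LL K) = Module.finrank ℚ K - 1 := by
  rw [Module.finrank_eq_card_basis (bas K), Fintype.card_fin, rank_eq]

include hσ

/-- the norm of a unit is a root of unity -/
theorem sum_sL (x : LL K) : ∑ i ∈ Finset.range (Module.finrank ℚ K), (sL σ ^ i) x = 0 := by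
  obtain ⟨y, rfl⟩ := mkL_surj x
  obtain ⟨u, rfl⟩ : ∃ u, Additive.ofMul u = y := ⟨y.toMul, rfl⟩
  simp only [sL_pow]
  rw [← map_sum, ← ofMul_prod, mkL_eq_zero]
  have h1 : ((((∏ i ∈ Finset.range (Module.finrank ℚ K), uA (σ ^ i) u : (𝓞 K)ˣ) : 𝓞 K)) : K) =
      algebraMap ℚ K (Algebra.norm ℚ (((u : 𝓞 K)) : K)) := by
    rw [Algebra.norm_eq_prod_automorphisms]
    have h2 : ((((∏ i ∈ Finset.range (Module.finrank ℚ K), uA (σ ^ i) u : (𝓞 K)ˣ) : 𝓞 K)) : K) =
        ∏ i ∈ Finset.range (Module.finrank ℚ K), (σ ^ i) ((u : 𝓞 K) : K) := by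
      rw [Units.coe_prod]
      exact map_prod (algebraMap (𝓞 K) K) _ _
    rw [h2]
    refine Finset.prod_bij (fun i _ => σ ^ i) (fun _ _ => Finset.mem_univ _) ?_ ?_ fun _ _ => rfl
    · intro i hi j hj hij
      rw [Finset.mem_range] at hi hj
      rw [← orderOf_gen hσ] at hi hj
      exact pow_injOn_Iio_orderOf hi hj hij
    · intro g _
      obtain ⟨n, hn⟩ := (isOfFinOrder_of_finite σ).mem_powers_iff_mem_zpowers.2 (hσ g)
      refine ⟨n % Module.finrank ℚ K,
        Finset.mem_range.2 (Nat.mod_lt _ Module.finrank_pos), ?_⟩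
      rw [← orderOf_gen hσ, pow_mod_orderOf]
      exact hn
  have h2 : (Algebra.norm ℚ (((u : 𝓞 K)) : K)) = 1 ∨ (Algebra.norm ℚ (((u : 𝓞 K)) : K)) = -1 := by
    have h3 := (NumberField.isUnit_iff_norm (K := K) (x := (u : 𝓞 K))).1 u.isUnit
    rw [RingOfIntegers.coe_norm] at h3
    rcases abs_eq (zero_le_one) |>.1 h3 with h | h
    · exact Or.inl h
    · exact Or.inr h
  apply (CommGroup.mem_torsion _).2
  rw [isOfFinOrder_iff_pow_eq_one]
  refine ⟨2, two_pos, ?_⟩
  apply Units.ext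
  apply RingOfIntegers.ext
  have h3 : ((((∏ i ∈ Finset.range (Module.finrank ℚ K), uA (σ ^ i) u : (𝓞 K)ˣ) : 𝓞 K)) : K) ^ 2 =
      1 := by
    rw [h1]
    rcases h2 with h | h
    · rw [h, map_one, one_pow]
    · rw [h, map_neg, map_one, neg_one_sq]
  exact h3

theorem aeval_geom : aeval (sL σ) (∑ i ∈ Finset.range (Module.finrank ℚ K), (X : ℤ[X]) ^ i) = 0 := by
  apply LinearMap.ext
  intro x
  rw [map_sum, LinearMap.sum_apply, LinearMap.zero_apply, ← sum_sL hσ x]
  refine Finset.sum_congr rfl fun i _ => ?_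
  rw [map_pow, aeval_X]

/-- the characteristic polynomial on the units -/
theorem charpoly_sL : (sL σ).charpoly =
    ∑ i ∈ Finset.range (Module.finrank ℚ K), (X : ℤ[X]) ^ i := by
  classical
  obtain ⟨r, hr⟩ : ∃ r, Module.finrank ℚ K = r + 1 :=
    ⟨Module.finrank ℚ K - 1, (Nat.succ_pred_eq_of_pos Module.finrank_pos).symm⟩
  obtain ⟨u, hu⟩ := exists_mink hσ
  rw [hr, Nat.add_sub_cancel] at hu
  have hG := aeval_geom hσ
  have hr' : Module.finrank ℤ (LL K) = r := by rw [finrank_LL, hr, Nat.add_sub_cancel]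
  rw [hr] at hG ⊢
  have hm : (∑ i ∈ Finset.range (r + 1), (X : ℤ[X]) ^ i).Monic := 
    Polynomial.monic_geom_sum_X r.succ_ne_zero
  have hd : (∑ i ∈ Finset.range (r + 1), (X : ℤ[X]) ^ i).degree = r := by
    rw [Polynomial.degree_eq_natDegree hm.ne_zero]
    have h1 := geom_sum_mul (X : ℤ[X]) (r + 1)
    rw [← Polynomial.C_1] at h1
    have h2 := congrArg Polynomial.natDegree h1
    rw [hm.natDegree_mul (Polynomial.monic_X_sub_C (1 : ℤ)), Polynomial.natDegree_X_sub_C,
      Polynomial.natDegree_X_pow_sub_C] at h2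
    have h3 : (∑ i ∈ Finset.range (r + 1), (X : ℤ[X]) ^ i).natDegree = r := by omega
    rw [h3]
  rw [← sub_eq_zero]
  by_contra hne
  have hdeg : ((sL σ).charpoly - ∑ i ∈ Finset.range (r + 1), (X : ℤ[X]) ^ i).degree < r := by
    have hc := LinearMap.charpoly_monic (sL σ)
    have h1 : ((sL σ).charpoly).degree = r := by
      rw [Polynomial.degree_eq_natDegree hc.ne_zero, LinearMap.charpoly_natDegree, hr']
    rw [← h1]
    apply Polynomial.degree_sub_lt_left (by rw [h1, hd]) hc.ne_zero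
    rw [hc.leadingCoeff, hm.leadingCoeff]
  set P := (sL σ).charpoly - ∑ i ∈ Finset.range (r + 1), (X : ℤ[X]) ^ i with hP
  have hP0 : aeval (sL σ) P = 0 := by
    rw [hP, map_sub, hG, sub_zero]
    exact LinearMap.aeval_self_charpoly _
  have hPr : ∀ i, r ≤ i → P.coeff i = 0 := fun i hi =>
    Polynomial.coeff_eq_zero_of_degree_lt (hdeg.trans_le (by exact_mod_cast hi))
  have h2 : ∑ i : Fin r, (P.coeff i : ℝ) • (lg (uA (σ ^ (i : ℕ)) u) : InfinitePlace K → ℝ) = 0 := by
    have h3 := congrArg lgL (LinearMap.congr_fun hP0 (mkL (Additive.ofMul u)))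
    rw [LinearMap.zero_apply, map_zero, Polynomial.aeval_eq_sum_range' (n := r)
      ((Polynomial.natDegree_lt_iff_degree_lt hne).2 hdeg), LinearMap.sum_apply, map_sum] at h3
    rw [Finset.sum_range] at h3
    rw [← h3]
    refine Finset.sum_congr rfl fun i _ => ?_
    rw [LinearMap.smul_apply, sL_pow, map_zsmul, lgL_mk, Int.cast_smul_eq_zsmul]
  have h3 := Fintype.linearIndependent_iff.1 hu _ h2
  apply hne
  ext i
  rw [coeff_zero]
  by_cases hi : i < r
  · have := h3 ⟨i, hi⟩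
    exact_mod_cast this
  · exact hPr i (not_lt.1 hi)

omit hσ in
/-- the roots of unity of a totally real field -/
theorem torsion_real {u : (𝓞 K)ˣ} (hu : u ∈ torsion K) : u ^ 2 = 1 := by
  obtain ⟨n, hn, hun⟩ := isOfFinOrder_iff_pow_eq_one.1 ((CommGroup.mem_torsion u).1 hu)
  obtain ⟨w⟩ : Nonempty (InfinitePlace K) := inferInstance
  have hw := IsTotallyReal.isReal w
  let φ : K →+* ℝ := embedding_of_isReal hw
  have h1 : (φ ((u : 𝓞 K) : K)) ^ n = 1 := by
    rw [← map_pow]
    have h2 : (((u : 𝓞 K) : K)) ^ n = 1 := congrArg (fun v : (𝓞 K)ˣ => ((v : 𝓞 K) : K)) hun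
    rw [h2, map_one]
  have h2 : |φ ((u : 𝓞 K) : K)| = 1 := by
    have h3 : |φ ((u : 𝓞 K) : K)| ^ n = 1 := by rw [← abs_pow, h1, abs_one]
    exact (pow_eq_one_iff_of_nonneg (abs_nonneg _) hn.ne').1 h3
  have h3 : φ ((u : 𝓞 K) : K) ^ 2 = 1 := by rw [← sq_abs, h2, one_pow]
  apply Units.ext
  apply RingOfIntegers.ext
  apply φ.injective
  have h4 : φ ((((u ^ 2 : (𝓞 K)ˣ) : 𝓞 K)) : K) = φ ((u : 𝓞 K) : K) ^ 2 := by
    rw [← map_pow]
    rfl
  rw [h4, h3]
  exact (map_one φ).symm

omit hσ [IsTotallyReal K] [IsGalois ℚ K] in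
theorem primitive_root (p m : ℕ) [Fact p.Prime] (hm : m ∣ p - 1) :
    ∃ ζ : ZMod p, IsPrimitiveRoot ζ m := by
  obtain ⟨g, hg⟩ := IsCyclic.exists_generator (α := (ZMod p)ˣ)
  have ho : orderOf g = p - 1 := by
    rw [orderOf_eq_card_of_forall_mem_zpowers hg, Nat.card_eq_fintype_card, ZMod.card_units]
  have hp1 : 0 < p - 1 := Nat.sub_pos_of_lt (Fact.out : p.Prime).one_lt
  obtain ⟨c, hc⟩ := hm
  have h1 : IsPrimitiveRoot g (p - 1) := by
    rw [← ho]
    exact IsPrimitiveRoot.orderOf g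
  have h2 : IsPrimitiveRoot (g ^ c) m := h1.pow hp1 (by rw [hc, mul_comm])
  exact ⟨_, IsPrimitiveRoot.coe_units_iff.2 h2⟩

/-- **The units modulo `p`-th powers.** -/
theorem unit_mod (p : ℕ) [Fact p.Prime] (hp2 : p ≠ 2) (hm : Module.finrank ℚ K ∣ p - 1) :
    ∃ (f : (Fin (rank K) → ZMod p) →ₗ[ZMod p] (Fin (rank K) → ZMod p))
      (π : Additive (𝓞 K)ˣ →+ (Fin (rank K) → ZMod p)) (A : Finset (ZMod p))
      (b : Basis A (ZMod p) (Fin (rank K) → ZMod p)),
      Function.Surjective π ∧ (∀ x, π x = 0 ↔ ∃ y, p • y = x) ∧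
      (∀ u : (𝓞 K)ˣ, π (Additive.ofMul (uA σ u)) = f (π (Additive.ofMul u))) ∧
      A.card = Module.finrank ℚ K - 1 ∧ ∀ a, f (b a) = (a : ZMod p) • b a := by
  classical
  have hpp : p.Prime := Fact.out
  let M := LinearMap.toMatrix (bas K) (bas K) (sL σ)
  let f : (Fin (rank K) → ZMod p) →ₗ[ZMod p] (Fin (rank K) → ZMod p) :=
    Matrix.toLin' (M.map (Int.castRingHom (ZMod p)))
  let π : Additive (𝓞 K)ˣ →+ (Fin (rank K) → ZMod p) := AddMonoidHom.mk'
    (fun x i => ((bas K).repr (mkL x) i : ZMod p)) fun x y => by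
      funext i
      rw [map_add, map_add, Finsupp.add_apply, Int.cast_add]
      rfl
  have hπ : ∀ x i, π x i = ((bas K).repr (mkL x) i : ZMod p) := fun _ _ => rfl
  have hf : f.charpoly = ∑ i ∈ Finset.range (Module.finrank ℚ K), (X : (ZMod p)[X]) ^ i := by
    rw [← LinearMap.charpoly_toMatrix f (Pi.basisFun (ZMod p) (Fin (rank K)))]
    have e1 : LinearMap.toMatrix (Pi.basisFun (ZMod p) (Fin (rank K)))
        (Pi.basisFun (ZMod p) (Fin (rank K))) f = M.map (Int.castRingHom (ZMod p)) := by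
      rw [LinearMap.toMatrix_eq_toMatrix', LinearMap.toMatrix'_toLin']
    rw [e1, Matrix.charpoly_map, LinearMap.charpoly_toMatrix, charpoly_sL hσ, Polynomial.map_sum]
    refine Finset.sum_congr rfl fun i _ => ?_
    rw [Polynomial.map_pow, Polynomial.map_X]
  obtain ⟨ζ, hζ⟩ := primitive_root p (Module.finrank ℚ K) hm
  let A : Finset (ZMod p) := (nthRootsFinset (Module.finrank ℚ K) (1 : ZMod p)).erase 1
  have hmpos : 0 < Module.finrank ℚ K := Module.finrank_pos
  have hA : A.card = Module.finrank ℚ K - 1 := by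
    rw [Finset.card_erase_of_mem, hζ.card_nthRootsFinset]
    rw [mem_nthRootsFinset hmpos, one_pow]
  have hAr : ∀ a ∈ A, f.charpoly.IsRoot a := by
    intro a ha
    obtain ⟨ha1, ha2⟩ := Finset.mem_erase.1 ha
    rw [mem_nthRootsFinset hmpos] at ha2
    rw [hf, IsRoot, eval_finsetSum]
    simp only [eval_pow, eval_X]
    have h1 := geom_sum_mul a (Module.finrank ℚ K)
    rw [ha2, sub_self] at h1
    exact (mul_eq_zero.1 h1).resolve_right (sub_ne_zero.2 ha1)
  obtain ⟨b, hb⟩ := eig_basis f A (by rw [hA, Module.finrank_fin_fun, rank_eq]) hAr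
  refine ⟨f, π, A, b, ?_, ?_, ?_, hA, hb⟩
  · intro c
    choose z hz using fun i => ZMod.intCast_surjective (c i)
    obtain ⟨x, hx⟩ := mkL_surj ((bas K).equivFun.symm z)
    refine ⟨x, ?_⟩
    funext i
    rw [hπ, hx, ← Basis.equivFun_apply, LinearEquiv.apply_symm_apply, hz]
  · intro x
    constructor
    · intro hx
      have h1 : ∀ i, ∃ z : ℤ, (bas K).repr (mkL x) i = p * z := by
        intro i
        have h2 := congrFun hx i
        rw [hπ, Pi.zero_apply, ZMod.intCast_zmod_eq_zero_iff_dvd] at h2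
        exact h2
      choose z hz using h1
      obtain ⟨y, hy⟩ := mkL_surj ((bas K).equivFun.symm z)
      have h3 : mkL x = p • mkL y := by
        apply (bas K).equivFun.injective
        rw [map_nsmul, hy, LinearEquiv.apply_symm_apply]
        funext i
        rw [Basis.equivFun_apply, hz, Pi.smul_apply, nsmul_eq_mul]
      have h4 : mkL (x - p • y) = 0 := by rw [map_sub, map_nsmul, h3, sub_self]
      rw [mkL_eq_zero] at h4
      have h5 := torsion_real h4
      obtain ⟨c, hc⟩ := hpp.odd_of_ne_two hp2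
      refine ⟨y + (x - p • y), ?_⟩
      have h6 : 2 • (x - p • y) = 0 := h5
      have h7 : ∀ w : Additive (𝓞 K)ˣ, 2 • w = 0 → p • w = w := by
        intro w hw
        rw [hc, add_smul, mul_comm, mul_smul, hw, smul_zero, zero_add, one_smul]
      have h8 : p • (y + (x - p • y)) = p • y + p • (x - p • y) := nsmul_add _ _ _
      rw [h8, h7 _ h6]
      abel
    · rintro ⟨y, rfl⟩
      rw [map_nsmul]
      funext i
      rw [Pi.smul_apply, Pi.zero_apply, nsmul_eq_mul, CharP.cast_eq_zero, zero_mul]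
  · intro u
    funext i
    rw [hπ, ← sL_mk]
    have h1 := LinearMap.toMatrix_mulVec_repr (bas K) (bas K) (sL σ) (mkL (Additive.ofMul u))
    have h2 := congrFun h1 i
    rw [← h2]
    change ((Int.castRingHom (ZMod p)) (M.mulVec _ i)) = _
    rw [RingHom.map_mulVec]
    rfl

end Pool.Agent.H515.KV
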